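import Mathlib

/-!
# The addition-subtraction map on x-coordinates really computes `x(P+Q)` and `x(P-Q)`
-/

set_option autoImplicit false
set_option linter.all false

open WeierstrassCurve WeierstrassCurve.Affine MvPolynomial

namespace Pool.Agent.Lib.MP_2f3286_ag.E

variable {F : Type*} [Field F] [DecidableEq F] {W : Affine F} [W.IsShortNF]

theorem negY_eq (x y : F) : W.negY x y = -y := by
  simp [negY, a₁_of_isShortNF, a₃_of_isShortNF]

theorem eqn {x y : F} (h : W.Nonsingular x y) : y ^ 2 = x ^ 3 + W.a₄ * x + W.a₆ := by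
  have := (W.equation_iff x y).1 h.1
  simp only [a₁_of_isShortNF, a₃_of_isShortNF, a₂_of_isShortNF] at this
  linear_combination this

/-- The chord formula. -/
theorem exists_add {x₁ y₁ x₂ y₂ : F} (h₁ : W.Nonsingular x₁ y₁) (h₂ : W.Nonsingular x₂ y₂)
    (hx : x₁ ≠ x₂) : ∃ h₃ : W.Nonsingular (((y₁ - y₂) / (x₁ - x₂)) ^ 2 - x₁ - x₂)
      (-((y₁ - y₂) / (x₁ - x₂) * ((((y₁ - y₂) / (x₁ - x₂)) ^ 2 - x₁ - x₂) - x₁) + y₁)),
      (Point.some _ _ h₁ : W.Point) + Point.some _ _ h₂ = Point.some _ _ h₃ := by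
  have hX : W.addX x₁ x₂ (W.slope x₁ x₂ y₁ y₂) = ((y₁ - y₂) / (x₁ - x₂)) ^ 2 - x₁ - x₂ := by
    rw [slope_of_X_ne hx, addX]
    simp [a₁_of_isShortNF, a₂_of_isShortNF]
  have hY : W.addY x₁ x₂ y₁ (W.slope x₁ x₂ y₁ y₂) =
      -((y₁ - y₂) / (x₁ - x₂) * ((((y₁ - y₂) / (x₁ - x₂)) ^ 2 - x₁ - x₂) - x₁) + y₁) := by
    rw [addY, negAddY, hX, slope_of_X_ne hx, negY_eq]
  have h := Point.add_of_X_ne (h₁ := h₁) (h₂ := h₂) hx
  have h3 : W.Nonsingular (W.addX x₁ x₂ (W.slope x₁ x₂ y₁ y₂))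
      (W.addY x₁ x₂ y₁ (W.slope x₁ x₂ y₁ y₂)) := nonsingular_add h₁ h₂ fun hxy => hx hxy.1
  refine ⟨by rw [← hY, ← hX]; exact h3, ?_⟩
  rw [h]
  simp only [Point.some.injEq]
  exact ⟨hX, hY⟩

/-- The tangent formula. -/
theorem exists_double {x y : F} (h : W.Nonsingular x y) (hy : 2 * y ≠ 0) :
    ∃ h₃ : W.Nonsingular (((3 * x ^ 2 + W.a₄) / (2 * y)) ^ 2 - 2 * x)
      (-((3 * x ^ 2 + W.a₄) / (2 * y) * ((((3 * x ^ 2 + W.a₄) / (2 * y)) ^ 2 - 2 * x) - x) + y)),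
      (Point.some _ _ h : W.Point) + Point.some _ _ h = Point.some _ _ h₃ := by
  have hne : y ≠ W.negY x y := by
    rw [negY_eq]
    intro h1
    apply hy
    linear_combination h1
  have hs : W.slope x x y y = (3 * x ^ 2 + W.a₄) / (2 * y) := by
    rw [slope_of_Y_ne rfl hne, negY_eq]
    simp only [a₁_of_isShortNF, a₂_of_isShortNF]
    congr 1 <;> ring
  have hX : W.addX x x (W.slope x x y y) = ((3 * x ^ 2 + W.a₄) / (2 * y)) ^ 2 - 2 * x := by
    rw [hs, addX]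
    simp only [a₁_of_isShortNF, a₂_of_isShortNF]
    ring
  have hY : W.addY x x y (W.slope x x y y) =
      -((3 * x ^ 2 + W.a₄) / (2 * y) * ((((3 * x ^ 2 + W.a₄) / (2 * y)) ^ 2 - 2 * x) - x) + y) := by
    rw [addY, negAddY, hX, hs, negY_eq]
  have h' := Point.add_self_of_Y_ne (h₁ := h) hne
  have h3 : W.Nonsingular (W.addX x x (W.slope x x y y))
      (W.addY x x y (W.slope x x y y)) := nonsingular_add h h fun hxy => hne hxy.2
  refine ⟨by rw [← hY, ← hX]; exact h3, ?_⟩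
  rw [h']
  simp only [Point.some.injEq]
  exact ⟨hX, hY⟩

theorem neg_some' {x y : F} (h : W.Nonsingular x y) :
    ∃ h' : W.Nonsingular x (-y), -(Point.some _ _ h : W.Point) = Point.some _ _ h' := by
  have h1 : W.Nonsingular x (W.negY x y) := (W.nonsingular_neg x y).2 h
  refine ⟨by rw [← negY_eq (W := W) x y]; exact h1, ?_⟩
  rw [Point.neg_some]
  simp only [Point.some.injEq]
  exact ⟨trivial, negY_eq x y⟩

theorem b₂_eq : W.b₂ = 0 := by simp [WeierstrassCurve.b₂, a₁_of_isShortNF, a₂_of_isShortNF]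
theorem b₄_eq : W.b₄ = 2 * W.a₄ := by
  simp [WeierstrassCurve.b₄, a₁_of_isShortNF]
theorem b₆_eq : W.b₆ = 4 * W.a₆ := by
  simp [WeierstrassCurve.b₆, a₃_of_isShortNF]
theorem b₈_eq : W.b₈ = -W.a₄ ^ 2 := by
  simp [WeierstrassCurve.b₈, a₁_of_isShortNF, a₂_of_isShortNF, a₃_of_isShortNF]

theorem addSub_eval (x : Fin 3 → F) : (fun i => (addSubMap W i).eval x) =
    ![x 0 ^ 2 - 2 * W.a₄ * x 0 * x 2 - 4 * W.a₆ * x 1 * x 2 + W.a₄ ^ 2 * x 2 ^ 2,
      2 * x 1 * x 0 + 2 * W.a₄ * x 1 * x 2 + 4 * W.a₆ * x 2 ^ 2,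
      x 1 ^ 2 - 4 * x 0 * x 2] := by
  ext i
  fin_cases i
  · simp [addSubMap, b₂_eq, b₄_eq, b₆_eq, b₈_eq]
  · simp [addSubMap, b₂_eq, b₄_eq, b₆_eq, b₈_eq]
  · simp [addSubMap, b₂_eq, b₄_eq, b₆_eq, b₈_eq]

theorem vec3_ext {a b : Fin 3 → F} (h0 : a 0 = b 0) (h1 : a 1 = b 1) (h2 : a 2 = b 2) : a = b := by
  ext i
  fin_cases i
  · exact h0
  · exact h1
  · exact h2

/-- The addition-subtraction map. -/
theorem addSub_sym2x (P Q : W.Point) : ∃ c : F, c ≠ 0 ∧
    (fun i => (addSubMap W i).eval (P.sym2x Q)) = c • (P + Q).sym2x (P - Q) := by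
  rcases P with _ | ⟨x₁, y₁, h₁⟩
  · -- P = 0
    rw [← Point.zero_def, zero_add, zero_sub, Point.sym2x_neg_right]
    refine ⟨1, one_ne_zero, ?_⟩
    rw [one_smul, addSub_eval]
    rcases Q with _ | ⟨x₂, y₂, h₂⟩
    · rw [← Point.zero_def, Point.sym2x_zero_zero]
      apply vec3_ext <;> simp
    · rw [Point.sym2x_zero_some, Point.sym2x_some_some]
      apply vec3_ext <;> simp <;> ring
  rcases Q with _ | ⟨x₂, y₂, h₂⟩
  · rw [← Point.zero_def, add_zero, sub_zero]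
    refine ⟨1, one_ne_zero, ?_⟩
    rw [one_smul, addSub_eval, Point.sym2x_some_zero, Point.sym2x_some_some]
    apply vec3_ext <;> simp <;> ring
  have e₁ := eqn h₁
  have e₂ := eqn h₂
  by_cases hx : x₁ = x₂
  · -- P = ± Q
    have hPQ : (Point.some _ _ h₁ : W.Point) = Point.some _ _ h₂ ∨
        (Point.some _ _ h₁ : W.Point) = -Point.some _ _ h₂ := Point.X_eq_iff.1 hx
    suffices H : ∃ c : F, c ≠ 0 ∧ (fun i => (addSubMap W i).eval
        ((Point.some _ _ h₁ : W.Point).sym2x (Point.some _ _ h₁))) =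
        c • ((Point.some _ _ h₁ : W.Point) + Point.some _ _ h₁).sym2x 0 by
      rcases hPQ with h | h
      · rw [← h, sub_self]; exact H
      · have h' : (Point.some _ _ h₂ : W.Point) = -Point.some _ _ h₁ := by rw [h, neg_neg]
        rw [h', Point.sym2x_neg_right, add_neg_cancel, sub_neg_eq_add, Point.sym2x_comm 0]
        exact H
    rw [addSub_eval, Point.sym2x_some_some]
    by_cases hy : 2 * y₁ = 0
    · have h0 : (Point.some _ _ h₁ : W.Point) + Point.some _ _ h₁ = 0 := by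
        apply Point.add_self_of_Y_eq
        rw [negY_eq]; linear_combination hy
      rw [h0, Point.sym2x_zero_zero]
      refine ⟨(x₁ * x₁) ^ 2 - 2 * W.a₄ * (x₁ * x₁) - 4 * W.a₆ * (x₁ + x₁) + W.a₄ ^ 2, ?_, ?_⟩
      · -- nonvanishing by nonsingularity
        intro h3
        have hns := h₁
        rw [W.nonsingular_iff] at hns
        simp only [a₁_of_isShortNF, a₂_of_isShortNF, a₃_of_isShortNF] at hns
        have h4 : (3 * x₁ ^ 2 + W.a₄) ^ 2 = 0 := by
          have : (3 * x₁ ^ 2 + W.a₄) ^ 2 = ((x₁ * x₁) ^ 2 - 2 * W.a₄ * (x₁ * x₁) -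
              4 * W.a₆ * (x₁ + x₁) + W.a₄ ^ 2) + 2 * x₁ * (2 * y₁) ^ 2 := by
            linear_combination (-8 * x₁) * e₁
          rw [this, h3, hy]; ring
        have h5 := pow_eq_zero_iff (two_ne_zero) |>.1 h4
        rcases hns.2 with h6 | h6
        · apply h6; linear_combination -h5
        · apply h6; linear_combination hy
      · apply vec3_ext
        · simp
        · simp only [Matrix.cons_val_one, Matrix.cons_val_zero, Pi.smul_apply, smul_eq_mul, mul_zero,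
            Matrix.cons_val]
          linear_combination (2 * y₁) * hy - 4 * e₁
        · simp
          ring
    · obtain ⟨h₃, h₃'⟩ := exists_double h₁ hy
      rw [h₃', Point.sym2x_some_zero]
      have h2 : (2 : F) ≠ 0 := left_ne_zero_of_mul hy
      have hy1 : y₁ ≠ 0 := right_ne_zero_of_mul hy
      refine ⟨(2 * y₁) ^ 2, pow_ne_zero _ hy, ?_⟩
      apply vec3_ext
      · simp only [Matrix.cons_val_one, Matrix.cons_val_zero, Pi.smul_apply, smul_eq_mul,
            Matrix.cons_val]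
        rw [div_pow, mul_sub, mul_div_cancel₀ _ (pow_ne_zero 2 hy)]
        linear_combination (8 * x₁) * e₁
      · simp only [Matrix.cons_val_one, Matrix.cons_val_zero, Pi.smul_apply, smul_eq_mul,
            Matrix.cons_val]
        linear_combination (-4) * e₁
      · simp
        ring
  · have hd : x₁ - x₂ ≠ 0 := sub_ne_zero.2 hx
    obtain ⟨h₃, h₃'⟩ := exists_add h₁ h₂ hx
    obtain ⟨h₂', h₂''⟩ := neg_some' h₂
    obtain ⟨h₄, h₄'⟩ := exists_add h₁ h₂' hx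
    rw [sub_eq_add_neg, h₂'', h₄', h₃', Point.sym2x_some_some, Point.sym2x_some_some, addSub_eval]
    refine ⟨(x₁ - x₂) ^ 2, pow_ne_zero _ hd, ?_⟩
    apply vec3_ext
    · simp only [Matrix.cons_val_one, Matrix.cons_val_zero, Pi.smul_apply, smul_eq_mul,
            Matrix.cons_val]
      field_simp
      linear_combination (-((y₁ ^ 2 - y₂ ^ 2 + (x₁ ^ 3 + W.a₄ * x₁ + W.a₆) - (x₂ ^ 3 + W.a₄ * x₂ + W.a₆)) - 2 * (x₁ + x₂) * (x₁ - x₂) ^ 2)) * e₁ - (-(y₁ ^ 2 - y₂ ^ 2 + (x₁ ^ 3 + W.a₄ * x₁ + W.a₆) - (x₂ ^ 3 + W.a₄ * x₂ + W.a₆)) - 2 * (x₁ + x₂) * (x₁ - x₂) ^ 2) * e₂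
    · simp only [Matrix.cons_val_one, Matrix.cons_val_zero, Pi.smul_apply, smul_eq_mul,
            Matrix.cons_val]
      field_simp
      linear_combination (-2) * e₁ - 2 * e₂
    · simp
      ring

end Pool.Agent.Lib.MP_2f3286_ag.E
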