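import Mathlib

/-!
# Projective coordinates of points and multihomogeneous forms
-/

set_option autoImplicit false

open WeierstrassCurve WeierstrassCurve.Affine MvPolynomial

namespace Pool.Agent.Lib.MP_2f3286_ag.E

/-- Projective coordinates of a point. -/
def crd {F : Type*} [Field F] {W : Affine F} : W.Point → Fin 3 → F
  | .zero => ![0, 1, 0]
  | .some x y _ => ![x, y, 1]

@[simp] theorem crd_zero {F : Type*} [Field F] {W : Affine F} :
    crd (0 : W.Point) = ![0, 1, 0] := rfl

@[simp] theorem crd_some {F : Type*} [Field F] {W : Affine F} {x y : F} (h : W.Nonsingular x y) :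
    crd (Point.some _ _ h : W.Point) = ![x, y, 1] := rfl

/-- The projective coordinates of a family of points. -/
def crds {I F : Type*} [Field F] {W : Affine F} (Q : I → W.Point) : I × Fin 3 → F :=
  fun p => crd (Q p.1) p.2

/-- `G` is multihomogeneous of multidegree `d` in the triples of variables `(i,0),(i,1),(i,2)`. -/
def MultiHom {I k : Type*} [CommSemiring k] (G : MvPolynomial (I × Fin 3) k) (d : I → ℕ) : Prop :=
  ∀ m ∈ G.support, ∀ i, m (i, 0) + m (i, 1) + m (i, 2) = d i

end Pool.Agent.Lib.MP_2f3286_ag.E
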