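import Mathlib
import Pool.Agent.Lib.MP_2f3286_ag.E.AddSub

/-!
# Local analysis of translations by points close to the origin
-/

set_option autoImplicit false
set_option linter.all false

open WeierstrassCurve WeierstrassCurve.Affine

namespace Pool.Agent.Lib.MP_2f3286_ag.E

section abs

variable {F : Type*} [Field F] {v : AbsoluteValue F ℝ}

theorem sq_add_le (hv : IsNonarchimedean v) {a b : F} {M : ℝ} (ha : v a ^ 2 ≤ M)
    (hb : v b ^ 2 ≤ M) : v (a + b) ^ 2 ≤ M := by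
  have h := hv a b
  rcases max_choice (v a) (v b) with h1 | h1
  · rw [h1] at h
    exact (pow_le_pow_left₀ (v.nonneg _) h 2).trans ha
  · rw [h1] at h
    exact (pow_le_pow_left₀ (v.nonneg _) h 2).trans hb

theorem sq_sub_le (hv : IsNonarchimedean v) {a b : F} {M : ℝ} (ha : v a ^ 2 ≤ M)
    (hb : v b ^ 2 ≤ M) : v (a - b) ^ 2 ≤ M := by
  rw [sub_eq_add_neg]
  exact sq_add_le hv ha (by rwa [v.map_neg])

theorem natCast_le (hv : IsNonarchimedean v) (n : ℕ) : v n ≤ 1 := hv.apply_natCast_le_one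

theorem eq_of_sub_lt (hv : IsNonarchimedean v) {a b : F} (h : v (a - b) < v b) : v a = v b := by
  have h1 : v a ≤ max (v (a - b)) (v b) := by
    have := hv (a - b) b
    rwa [sub_add_cancel] at this
  rw [max_eq_right h.le] at h1
  refine le_antisymm h1 ?_
  have h2 : v b ≤ max (v a) (v (a - b)) := by
    have := hv a (-(a - b))
    rw [v.map_neg] at this
    rwa [show a + -(a - b) = b by ring] at this
  rcases le_max_iff.1 h2 with h3 | h3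
  · exact h3
  · exact absurd h (not_lt.2 h3)

end abs

variable {F : Type*} [Field F] [DecidableEq F] {W : Affine F} [W.IsShortNF]
  {v : AbsoluteValue F ℝ}

theorem vy_le (hv : IsNonarchimedean v) (hA : v W.a₄ ≤ 1) (hB : v W.a₆ ≤ 1) {x y : F}
    (h : W.Nonsingular x y) {X : ℝ} (h1 : 1 ≤ X) (hx : v x ≤ X) : v y ^ 2 ≤ X ^ 3 := by
  have e := eqn h
  have hX : 0 ≤ X := by linarith
  rw [← map_pow, e]
  have h3 : v (x ^ 3) ≤ X ^ 3 := by rw [map_pow]; exact pow_le_pow_left₀ (v.nonneg _) hx 3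
  have h4 : v (W.a₄ * x) ≤ X ^ 3 := by
    rw [map_mul]
    calc v W.a₄ * v x ≤ 1 * X := mul_le_mul hA hx (v.nonneg _) (by norm_num)
      _ ≤ X ^ 3 := by nlinarith [mul_nonneg hX hX, mul_le_mul h1 h1 (by norm_num) hX]
  have h5 : v W.a₆ ≤ X ^ 3 := hB.trans (one_le_pow₀ h1)
  exact (hv _ _).trans (max_le ((hv _ _).trans (max_le h3 h4)) h5)

theorem vy_eq (hv : IsNonarchimedean v) (hA : v W.a₄ ≤ 1) (hB : v W.a₆ ≤ 1) {x y : F}
    (h : W.Nonsingular x y) (hx : 1 < v x) : v y ^ 2 = v x ^ 3 := by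
  have e := eqn h
  rw [← map_pow, ← map_pow]
  apply eq_of_sub_lt hv
  rw [e, show x ^ 3 + W.a₄ * x + W.a₆ - x ^ 3 = W.a₄ * x + W.a₆ by ring]
  have h0 : 0 < v x := by linarith
  have h1 : v (W.a₄ * x) < v (x ^ 3) := by
    rw [map_mul, map_pow]
    calc v W.a₄ * v x ≤ 1 * v x := mul_le_mul_of_nonneg_right hA h0.le
      _ < v x ^ 3 := by nlinarith [mul_pos h0 h0]
  have h2 : v W.a₆ < v (x ^ 3) := by
    rw [map_pow]
    exact hB.trans_lt (one_lt_pow₀ hx (by norm_num))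
  exact (hv _ _).trans_lt (max_lt h1 h2)

/-- Translation by a point close to the origin. -/
theorem shift (hv : IsNonarchimedean v) (hA : v W.a₄ ≤ 1) (hB : v W.a₆ ≤ 1) {x₁ y₁ x₂ y₂ : F}
    (h₁ : W.Nonsingular x₁ y₁) (h₂ : W.Nonsingular x₂ y₂) {X : ℝ} (hX : 1 ≤ X)
    (hx₁ : v x₁ ≤ X) (hXq : X ≤ v x₂) (hlt : v x₁ < v x₂) (hq : 1 < v x₂) :
    ∃ (x₃ y₃ : F) (h₃ : W.Nonsingular x₃ y₃),
      (Point.some _ _ h₁ : W.Point) + Point.some _ _ h₂ = Point.some _ _ h₃ ∧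
      v (x₃ - x₁) ^ 2 * v x₂ ≤ X ^ 3 ∧ v (y₃ - y₁) ^ 2 * v x₂ ≤ X ^ 4 := by
  have hne : x₁ ≠ x₂ := by rintro rfl; exact lt_irrefl _ hlt
  obtain ⟨h₃, h₃'⟩ := exists_add h₁ h₂ hne
  refine ⟨_, _, h₃, h₃', ?_⟩
  set q := v x₂ with hqdef
  have hX0 : 0 ≤ X := by linarith
  have hq0 : 0 < q := by linarith
  have hd : x₁ - x₂ ≠ 0 := sub_ne_zero.2 hne
  have hvd : v (x₁ - x₂) = q := by
    rw [hqdef, ← v.map_neg, neg_sub]
    apply eq_of_sub_lt hv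
    rw [sub_sub_cancel_left, v.map_neg]
    exact hlt
  have e₁ := eqn h₁
  have e₂ := eqn h₂
  have hy₁ : v y₁ ^ 2 ≤ X ^ 3 := vy_le hv hA hB h₁ hX hx₁
  have hy₂ : v y₂ ^ 2 = q ^ 3 := vy_eq hv hA hB h₂ hq
  have hx₁0 := v.nonneg x₁
  have h2 : v (2 : F) ≤ 1 := by have := natCast_le hv 2; simpa using this
  have h3 : v (3 : F) ≤ 1 := by have := natCast_le hv 3; simpa using this
  -- the numerator
  set N := 3 * x₁ ^ 2 * x₂ - x₁ ^ 3 + W.a₄ * (x₁ + x₂) + 2 * W.a₆ - 2 * (y₁ * y₂) with hN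
  have hqX : ∀ a b : ℕ, X ^ a ≤ q ^ a := fun a _ => pow_le_pow_left₀ hX0 hXq a
  have one_q : ∀ a : ℕ, 1 ≤ q ^ a := fun a => one_le_pow₀ hq.le
  have one_X : ∀ a : ℕ, 1 ≤ X ^ a := fun a => one_le_pow₀ hX
  have hA2 : v (W.a₄ * (x₁ + x₂)) ^ 2 ≤ q ^ 2 := by
    rw [map_mul, mul_pow]
    have h4 : v (x₁ + x₂) ≤ q := (hv _ _).trans (max_le hlt.le le_rfl)
    calc v W.a₄ ^ 2 * v (x₁ + x₂) ^ 2 ≤ 1 * q ^ 2 :=
          mul_le_mul (pow_le_one₀ (v.nonneg _) hA) (pow_le_pow_left₀ (v.nonneg _) h4 2)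
            (by positivity) (by norm_num)
      _ = q ^ 2 := one_mul _
  have hB2 : v (2 * W.a₆) ^ 2 ≤ 1 := by
    rw [map_mul]
    exact pow_le_one₀ (by positivity) (mul_le_one₀ h2 (v.nonneg _) hB)
  have hmono : v (3 * x₁ ^ 2 * x₂ - x₁ ^ 3) ^ 2 ≤ X ^ 4 * q ^ 2 := by
    apply sq_sub_le hv
    · rw [map_mul, map_mul, map_pow, mul_pow, mul_pow]
      calc v 3 ^ 2 * (v x₁ ^ 2) ^ 2 * v x₂ ^ 2 ≤ 1 * (X ^ 2) ^ 2 * q ^ 2 := by
            gcongr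
            exact pow_le_one₀ (v.nonneg _) h3
        _ = X ^ 4 * q ^ 2 := by ring
    · rw [map_pow]
      calc (v x₁ ^ 3) ^ 2 ≤ (X ^ 3) ^ 2 := by gcongr
        _ = X ^ 4 * X ^ 2 := by ring
        _ ≤ X ^ 4 * q ^ 2 := by gcongr
  have hA3 : v (3 * x₁ ^ 2 * x₂ - x₁ ^ 3 + W.a₄ * (x₁ + x₂) + 2 * W.a₆) ^ 2 ≤ X ^ 4 * q ^ 2 := by
    apply sq_add_le hv
    · apply sq_add_le hv hmono
      refine hA2.trans ?_
      calc q ^ 2 = 1 * q ^ 2 := (one_mul _).symm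
        _ ≤ X ^ 4 * q ^ 2 := by gcongr; exact one_X 4
    · refine hB2.trans ?_
      calc (1 : ℝ) = 1 * 1 := by norm_num
        _ ≤ X ^ 4 * q ^ 2 := mul_le_mul (one_X 4) (one_q 2) (by norm_num) (by positivity)
  have hNN : v N ^ 2 ≤ X ^ 3 * q ^ 3 := by
    apply sq_sub_le hv
    · refine hA3.trans ?_
      calc X ^ 4 * q ^ 2 = X ^ 3 * q ^ 2 * X := by ring
        _ ≤ X ^ 3 * q ^ 2 * q := by gcongr
        _ = X ^ 3 * q ^ 3 := by ring
    · rw [map_mul, map_mul, mul_pow, mul_pow]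
      calc v 2 ^ 2 * (v y₁ ^ 2 * v y₂ ^ 2) ≤ 1 * (X ^ 3 * q ^ 3) := by
            rw [hy₂]
            gcongr
            exact pow_le_one₀ (v.nonneg _) h2
        _ = X ^ 3 * q ^ 3 := one_mul _
  constructor
  · have e : ((y₁ - y₂) / (x₁ - x₂)) ^ 2 - x₁ - x₂ - x₁ = N / (x₁ - x₂) ^ 2 := by
      field_simp
      rw [hN]
      linear_combination e₁ + e₂
    rw [e, map_div₀, map_pow, hvd, div_pow, div_mul_eq_mul_div, div_le_iff₀ (by positivity)]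
    calc v N ^ 2 * q ≤ X ^ 3 * q ^ 3 * q := by gcongr
      _ = X ^ 3 * (q ^ 2) ^ 2 := by ring
  · set T := y₂ * (3 * x₁ ^ 2 * x₂ - x₁ ^ 3 + W.a₄ * (x₁ + x₂) + 2 * W.a₆) - y₁ * N -
      y₁ * (2 * (W.a₄ * x₂ + W.a₆)) + y₁ * (2 * (x₁ * (3 * x₁ * x₂ - 3 * x₂ ^ 2 - x₁ ^ 2))) with hT
    have hTT : v T ^ 2 ≤ X ^ 4 * q ^ 5 := by
      apply sq_add_le hv
      · apply sq_sub_le hv
        · apply sq_sub_le hv
          · rw [map_mul, mul_pow, hy₂]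
            calc q ^ 3 * v (3 * x₁ ^ 2 * x₂ - x₁ ^ 3 + W.a₄ * (x₁ + x₂) + 2 * W.a₆) ^ 2 ≤
                q ^ 3 * (X ^ 4 * q ^ 2) := by gcongr
              _ = X ^ 4 * q ^ 5 := by ring
          · rw [map_mul, mul_pow]
            calc v y₁ ^ 2 * v N ^ 2 ≤ X ^ 3 * (X ^ 3 * q ^ 3) := by gcongr
              _ = X ^ 4 * q ^ 3 * X ^ 2 := by ring
              _ ≤ X ^ 4 * q ^ 3 * q ^ 2 := by gcongr
              _ = X ^ 4 * q ^ 5 := by ring
        · have h6 : v (2 * (W.a₄ * x₂ + W.a₆)) ≤ q := by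
            rw [map_mul]
            have h7 : v (W.a₄ * x₂ + W.a₆) ≤ q := by
              refine (hv _ _).trans (max_le ?_ (hB.trans hq.le))
              rw [map_mul]
              calc v W.a₄ * v x₂ ≤ 1 * q := by gcongr
                _ = q := one_mul _
            calc v 2 * v (W.a₄ * x₂ + W.a₆) ≤ 1 * q := by gcongr
              _ = q := one_mul _
          rw [map_mul, mul_pow]
          calc v y₁ ^ 2 * v (2 * (W.a₄ * x₂ + W.a₆)) ^ 2 ≤ X ^ 3 * q ^ 2 := by gcongr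
            _ = X ^ 3 * q ^ 2 * 1 * 1 := by ring
            _ ≤ X ^ 3 * q ^ 2 * X * q ^ 3 := by gcongr; exact one_q 3
            _ = X ^ 4 * q ^ 5 := by ring
      · have h6 : v (2 * (x₁ * (3 * x₁ * x₂ - 3 * x₂ ^ 2 - x₁ ^ 2))) ^ 2 ≤ X ^ 2 * q ^ 4 := by
          have h7 : v (3 * x₁ * x₂ - 3 * x₂ ^ 2 - x₁ ^ 2) ^ 2 ≤ q ^ 4 := by
            have hx1q : v x₁ ≤ q := hlt.le
            apply sq_sub_le hv
            · apply sq_sub_le hv
              · rw [map_mul, map_mul]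
                calc (v 3 * v x₁ * v x₂) ^ 2 ≤ (1 * q * q) ^ 2 := by gcongr
                  _ = q ^ 4 := by ring
              · rw [map_mul, map_pow]
                calc (v 3 * v x₂ ^ 2) ^ 2 ≤ (1 * q ^ 2) ^ 2 := by gcongr
                  _ = q ^ 4 := by ring
            · rw [map_pow]
              calc (v x₁ ^ 2) ^ 2 ≤ (q ^ 2) ^ 2 := by gcongr
                _ = q ^ 4 := by ring
          rw [map_mul, map_mul, mul_pow, mul_pow]
          calc v 2 ^ 2 * (v x₁ ^ 2 * v (3 * x₁ * x₂ - 3 * x₂ ^ 2 - x₁ ^ 2) ^ 2) ≤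
              1 * (X ^ 2 * q ^ 4) := by
                gcongr
                exact pow_le_one₀ (v.nonneg _) h2
            _ = X ^ 2 * q ^ 4 := one_mul _
        rw [map_mul, mul_pow]
        calc v y₁ ^ 2 * v (2 * (x₁ * (3 * x₁ * x₂ - 3 * x₂ ^ 2 - x₁ ^ 2))) ^ 2 ≤
            X ^ 3 * (X ^ 2 * q ^ 4) := by gcongr
          _ = X ^ 4 * q ^ 4 * X := by ring
          _ ≤ X ^ 4 * q ^ 4 * q := by gcongr
          _ = X ^ 4 * q ^ 5 := by ring
    have e : -((y₁ - y₂) / (x₁ - x₂) * ((((y₁ - y₂) / (x₁ - x₂)) ^ 2 - x₁ - x₂) - x₁) + y₁) - y₁ =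
        T / (x₁ - x₂) ^ 3 := by
      field_simp
      rw [hT, hN]
      linear_combination (-(y₁ - y₂)) * e₁ + (-(y₁ - y₂) - 2 * y₁) * e₂
    rw [e, map_div₀, map_pow, hvd, div_pow, div_mul_eq_mul_div, div_le_iff₀ (by positivity)]
    calc v T ^ 2 * q ≤ X ^ 4 * q ^ 5 * q := by gcongr
      _ = X ^ 4 * (q ^ 3) ^ 2 := by ring

end Pool.Agent.Lib.MP_2f3286_ag.E
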