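import Mathlib
import Pool.Agent.Lib.MP_2f3286_ag.E.Defs
import Pool.Agent.Lib.MP_2f3286_ag.E.Local

/-!
# Points close to the origin form a subgroup; translation by such points
-/

set_option autoImplicit false
set_option linter.all false

open WeierstrassCurve WeierstrassCurve.Affine

namespace Pool.Agent.Lib.MP_2f3286_ag.E

section

variable {F : Type*} [Field F] {W : Affine F}

/-- `R` is within distance `r⁻¹` of the origin. -/
def Near (v : AbsoluteValue F ℝ) (r : ℝ) : W.Point → Prop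
  | .zero => True
  | .some x _ _ => r ≤ v x

theorem near_zero (v : AbsoluteValue F ℝ) (r : ℝ) : Near v r (0 : W.Point) := trivial

theorem near_some {v : AbsoluteValue F ℝ} {r : ℝ} {x y : F} (h : W.Nonsingular x y) :
    Near v r (Point.some _ _ h : W.Point) ↔ r ≤ v x := Iff.rfl

end

variable {F : Type*} [Field F] [DecidableEq F] {W : Affine F} [W.IsShortNF]
  {v : AbsoluteValue F ℝ}

theorem Near.neg {r : ℝ} {R : W.Point} (h : Near v r R) : Near v r (-R) := by
  rcases R with _ | ⟨x, y, hxy⟩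
  · exact trivial
  · obtain ⟨h', e⟩ := neg_some' hxy
    rw [e]; exact h

/-- If `|x_Q| < |x_R|` and `|x_R| > 1` then `|x_{Q+R}| ≤ max 1 |x_Q|`. -/
theorem x_le_of_lt (hv : IsNonarchimedean v) (hA : v W.a₄ ≤ 1) (hB : v W.a₆ ≤ 1) {x₁ y₁ x₂ y₂ : F}
    (h₁ : W.Nonsingular x₁ y₁) (h₂ : W.Nonsingular x₂ y₂) (hlt : v x₁ < v x₂) (hq : 1 < v x₂) :
    ∃ (x₃ y₃ : F) (h₃ : W.Nonsingular x₃ y₃),
      (Point.some _ _ h₁ : W.Point) + Point.some _ _ h₂ = Point.some _ _ h₃ ∧
      (1 < v x₁ → v x₃ = v x₁) ∧ (v x₁ ≤ 1 → v x₃ ≤ 1) := by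
  have hq0 : 0 < v x₂ := by linarith
  by_cases h : 1 < v x₁
  · obtain ⟨x₃, y₃, h₃, e, h4, -⟩ := shift hv hA hB h₁ h₂ h.le le_rfl hlt.le hlt hq
    refine ⟨x₃, y₃, h₃, e, fun _ => ?_, fun h' => absurd h (not_lt.2 h')⟩
    apply eq_of_sub_lt hv
    by_contra hcon
    push Not at hcon
    have h0 : 0 < v x₁ := by linarith
    have h5 : v x₁ ^ 2 ≤ v (x₃ - x₁) ^ 2 := pow_le_pow_left₀ h0.le hcon 2
    have h6 : v x₁ ^ 2 * v x₂ ≤ v x₁ ^ 3 :=
      (mul_le_mul_of_nonneg_right h5 hq0.le).trans h4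
    have h7 : v x₁ ^ 3 < v x₁ ^ 2 * v x₂ := by
      rw [pow_succ]
      exact mul_lt_mul_of_pos_left hlt (by positivity)
    linarith
  · push Not at h
    obtain ⟨x₃, y₃, h₃, e, h4, -⟩ := shift hv hA hB h₁ h₂ (X := 1) le_rfl h hq.le hlt hq
    refine ⟨x₃, y₃, h₃, e, fun h' => absurd h (not_le.2 h'), fun _ => ?_⟩
    have h5 : v (x₃ - x₁) ≤ 1 := by
      by_contra hcon
      push Not at hcon
      have h6 : 1 < v (x₃ - x₁) ^ 2 := one_lt_pow₀ hcon (by norm_num)
      nlinarith
    have h6 := hv (x₃ - x₁) x₁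
    rw [sub_add_cancel] at h6
    exact h6.trans (max_le h5 h)

theorem Near.add (hv : IsNonarchimedean v) (hA : v W.a₄ ≤ 1) (hB : v W.a₆ ≤ 1) {r : ℝ}
    (hr : 1 < r) {Q R : W.Point} (hQ : Near v r Q) (hR : Near v r R) : Near v r (Q + R) := by
  rcases Q with _ | ⟨x₁, y₁, h₁⟩
  · rw [← Point.zero_def, zero_add]; exact hR
  rcases R with _ | ⟨x₂, y₂, h₂⟩
  · rw [← Point.zero_def, add_zero]; exact hQ
  rw [near_some] at hQ hR
  rcases lt_trichotomy (v x₁) (v x₂) with h | h | h
  · obtain ⟨x₃, y₃, h₃, e, h4, -⟩ := x_le_of_lt hv hA hB h₁ h₂ h (by linarith)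
    rw [e, near_some, h4 (by linarith)]
    exact hQ
  · by_contra hcon
    rcases hS : (Point.some _ _ h₁ : W.Point) + Point.some _ _ h₂ with _ | ⟨x₃, y₃, h₃⟩
    · rw [hS] at hcon; exact hcon trivial
    · rw [hS, near_some] at hcon
      push Not at hcon
      obtain ⟨h₂', e₂⟩ := neg_some' h₂
      have e : (Point.some _ _ h₃ : W.Point) + Point.some _ _ h₂' = Point.some _ _ h₁ := by
        rw [← e₂, ← hS, add_neg_cancel_right]
      obtain ⟨x₄, y₄, h₄, e', h5, h6⟩ := x_le_of_lt hv hA hB h₃ h₂' (by linarith) (by linarith)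
      rw [e] at e'
      have h7 : x₁ = x₄ := by
        have := e'
        simp only [Point.some.injEq] at this
        exact this.1
      rcases lt_or_ge 1 (v x₃) with h8 | h8
      · have := h5 h8
        rw [← h7] at this
        linarith
      · have := h6 h8
        rw [← h7] at this
        linarith
  · rw [add_comm]
    obtain ⟨x₃, y₃, h₃, e, h4, -⟩ := x_le_of_lt hv hA hB h₂ h₁ h (by linarith)
    rw [e, near_some, h4 (by linarith)]
    exact hR

/-- The subgroup of points close to the origin. -/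
def nearSubgroup (hv : IsNonarchimedean v) (hA : v W.a₄ ≤ 1) (hB : v W.a₆ ≤ 1) {r : ℝ}
    (hr : 1 < r) : AddSubgroup W.Point where
  carrier := {R | Near v r R}
  zero_mem' := near_zero (W := W) v r
  add_mem' := fun h1 h2 => Near.add hv hA hB hr h1 h2
  neg_mem' := fun h => h.neg

theorem mem_nearSubgroup (hv : IsNonarchimedean v) (hA : v W.a₄ ≤ 1) (hB : v W.a₆ ≤ 1) {r : ℝ}
    (hr : 1 < r) (R : W.Point) : R ∈ nearSubgroup hv hA hB hr ↔ Near v r R := Iff.rfl

/-- The size of the projective coordinates. -/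
noncomputable def sz (v : AbsoluteValue F ℝ) (Q : W.Point) : ℝ := max (max (v (crd Q 0)) (v (crd Q 1))) (v (crd Q 2))

theorem le_sz (v : AbsoluteValue F ℝ) (Q : W.Point) (j : Fin 3) : v (crd Q j) ≤ sz v Q := by
  fin_cases j
  · exact le_max_of_le_left (le_max_left _ _)
  · exact le_max_of_le_left (le_max_right _ _)
  · exact le_max_right _ _

theorem one_le_sz (v : AbsoluteValue F ℝ) (Q : W.Point) : 1 ≤ sz v Q := by
  rcases Q with _ | ⟨x, y, h⟩
  · have := le_sz v (0 : W.Point) 1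
    rw [← Point.zero_def]
    simpa using this
  · have := le_sz v (Point.some _ _ h : W.Point) 2
    simpa using this

/-- Coordinates of points close to the origin. -/
theorem near_crd (hv : IsNonarchimedean v) (hA : v W.a₄ ≤ 1) (hB : v W.a₆ ≤ 1) {r ε : ℝ}
    (hr : 1 < r) (hε : 0 ≤ ε) (hεr : ε ^ 2 * r = 1) {S : W.Point} (hS : Near v r S) :
    crd S 1 ≠ 0 ∧ ∀ j, j ≠ 1 → v (crd S j) ≤ ε * v (crd S 1) := by
  rcases S with _ | ⟨x, y, h⟩
  · rw [← Point.zero_def, crd_zero]
    refine ⟨by simp, fun j hj => ?_⟩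
    fin_cases j
    · simpa using hε
    · exact absurd rfl hj
    · simpa using hε
  · rw [near_some] at hS
    have hx : 1 < v x := by linarith
    have hx0 : 0 < v x := by linarith
    have hy := vy_eq hv hA hB h hx
    have hy0 : 0 < v y := by
      rcases (v.nonneg y).lt_or_eq with h1 | h1
      · exact h1
      · rw [← h1] at hy
        have : 0 < v x ^ 3 := by positivity
        norm_num at hy
        linarith
    refine ⟨by simpa using v.pos_iff.1 hy0, fun j hj => ?_⟩
    have hr0 : 0 < r := by linarith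
    have key : ∀ a : ℝ, 0 ≤ a → a ≤ v x → a ≤ ε * v y := by
      intro a ha hax
      refine (sq_le_sq₀ ha (mul_nonneg hε hy0.le)).1 ?_
      rw [mul_pow, hy]
      calc a ^ 2 ≤ v x ^ 2 := pow_le_pow_left₀ ha hax 2
        _ = ε ^ 2 * r * v x ^ 2 := by rw [hεr, one_mul]
        _ ≤ ε ^ 2 * v x * v x ^ 2 := by gcongr
        _ = ε ^ 2 * v x ^ 3 := by ring
    fin_cases j
    · exact key _ (v.nonneg _) le_rfl
    · exact absurd rfl hj
    · have := key 1 (by norm_num) hx.le
      simpa using this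

/-- **Translation by a point close to the origin** changes projective coordinates only a little. -/
theorem close (hv : IsNonarchimedean v) (hA : v W.a₄ ≤ 1) (hB : v W.a₆ ≤ 1) {r ε : ℝ}
    (hr : 1 < r) (hε : 0 ≤ ε) (hεr : ε ^ 2 * r = 1) (Q : W.Point) {R : W.Point} (hR : Near v r R) :
    ∃ c : F, ∀ j, v (c * crd (Q + R) j) ≤ sz v Q ∧ v (crd Q j - c * crd (Q + R) j) ≤ ε * sz v Q := by
  have hr0 : 0 < r := by linarith
  have hε1 : ε ≤ 1 := by
    by_contra h
    push Not at h
    have : 1 < ε ^ 2 := one_lt_pow₀ h (by norm_num)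
    nlinarith
  have hsz := one_le_sz v Q
  by_cases hQ : Near v r Q
  · -- both close
    have hS := Near.add hv hA hB hr hQ hR
    obtain ⟨hQ1, hQj⟩ := near_crd hv hA hB hr hε hεr hQ
    obtain ⟨hS1, hSj⟩ := near_crd hv hA hB hr hε hεr hS
    refine ⟨crd Q 1 / crd (Q + R) 1, fun j => ?_⟩
    have hS10 : 0 < v (crd (Q + R) 1) := v.pos hS1
    have hvc : v (crd Q 1 / crd (Q + R) 1) = v (crd Q 1) / v (crd (Q + R) 1) := map_div₀ _ _ _
    by_cases hj : j = 1
    · subst hj
      rw [div_mul_cancel₀ _ hS1, sub_self, v.map_zero]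
      exact ⟨le_sz v Q 1, mul_nonneg hε (by linarith)⟩
    · have h1 : v (crd Q 1 / crd (Q + R) 1 * crd (Q + R) j) ≤ ε * v (crd Q 1) := by
        rw [map_mul, hvc, div_mul_eq_mul_div, div_le_iff₀ hS10]
        calc v (crd Q 1) * v (crd (Q + R) j) ≤ v (crd Q 1) * (ε * v (crd (Q + R) 1)) :=
              mul_le_mul_of_nonneg_left (hSj j hj) (v.nonneg _)
          _ = ε * v (crd Q 1) * v (crd (Q + R) 1) := by ring
      have h2 := le_sz v Q 1
      refine ⟨h1.trans ?_, ?_⟩
      · calc ε * v (crd Q 1) ≤ 1 * sz v Q := mul_le_mul hε1 h2 (v.nonneg _) (by norm_num)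
          _ = sz v Q := one_mul _
      · rw [sub_eq_add_neg]
        refine (hv _ _).trans (max_le ?_ ?_)
        · exact (hQj j hj).trans (mul_le_mul_of_nonneg_left h2 hε)
        · rw [v.map_neg]
          exact h1.trans (mul_le_mul_of_nonneg_left h2 hε)
  · rcases Q with _ | ⟨x₁, y₁, h₁⟩
    · exact absurd trivial hQ
    rcases R with _ | ⟨x₂, y₂, h₂⟩
    · rw [← Point.zero_def, add_zero]
      refine ⟨1, fun j => ?_⟩
      rw [one_mul, sub_self, v.map_zero]
      exact ⟨le_sz v _ j, mul_nonneg hε (by linarith)⟩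
    rw [near_some] at hQ hR
    push Not at hQ
    have hlt : v x₁ < v x₂ := by linarith
    have hq : 1 < v x₂ := by linarith
    have hq0 : 0 < v x₂ := by linarith
    -- comparison of `a / |x₂|` with `ε² a`
    have hεq : ∀ a b : ℝ, 0 ≤ a → 0 ≤ b → a ^ 2 * v x₂ ≤ b ^ 2 → a ≤ ε * b := by
      intro a b ha hb h
      refine (sq_le_sq₀ ha (mul_nonneg hε hb)).1 ?_
      rw [mul_pow]
      calc a ^ 2 = ε ^ 2 * (a ^ 2 * r) := by rw [mul_left_comm, hεr, mul_one]
        _ ≤ ε ^ 2 * (a ^ 2 * v x₂) := by gcongr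
        _ ≤ ε ^ 2 * b ^ 2 := by gcongr
    by_cases h : 1 < v x₁
    · obtain ⟨x₃, y₃, h₃, e, h4, h5⟩ := shift hv hA hB h₁ h₂ h.le le_rfl hlt.le hlt hq
      obtain ⟨x₃', y₃', h₃', e', h4', -⟩ := x_le_of_lt hv hA hB h₁ h₂ hlt hq
      have hx33 : x₃ = x₃' := by
        rw [e] at e'
        simp only [Point.some.injEq] at e'
        exact e'.1
      have hvx₃ : v x₃ = v x₁ := by rw [hx33]; exact h4' h
      have h0 : 0 < v x₁ := by linarith
      have hy₁ := vy_eq hv hA hB h₁ h
      have hy₃ := vy_eq hv hA hB h₃ (by rw [hvx₃]; exact h)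
      have hyy : v y₃ = v y₁ := by
        rw [hvx₃, ← hy₁] at hy₃
        exact (pow_left_inj₀ (v.nonneg _) (v.nonneg _) (by norm_num)).1 hy₃
      have hy₁0 : 0 < v y₁ := by
        rcases (v.nonneg y₁).lt_or_eq with h1 | h1
        · exact h1
        · rw [← h1] at hy₁
          have : 0 < v x₁ ^ 3 := by positivity
          norm_num at hy₁
          linarith
      have hy₃ne : y₃ ≠ 0 := by
        rintro rfl
        rw [v.map_zero] at hyy
        linarith
      have hszy : v y₁ ≤ sz v (Point.some _ _ h₁ : W.Point) := le_sz v (Point.some _ _ h₁ : W.Point) 1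
      have hvc : v (y₁ / y₃) = 1 := by
        rw [map_div₀, hyy, div_self hy₁0.ne']
      have h1c : v (1 - y₁ / y₃) ^ 2 * v x₂ ≤ v x₁ := by
        have : 1 - y₁ / y₃ = (y₃ - y₁) / y₃ := by field_simp
        rw [this, map_div₀, div_pow, div_mul_eq_mul_div, div_le_iff₀ (by rw [hyy]; positivity), hyy,
          hy₁]
        calc v (y₃ - y₁) ^ 2 * v x₂ ≤ v x₁ ^ 4 := h5
          _ = v x₁ * v x₁ ^ 3 := by ring
      rw [e]
      refine ⟨y₁ / y₃, fun j => ?_⟩
      have hj1 : v (y₁ / y₃ * crd (Point.some _ _ h₃ : W.Point) j) =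
          v (crd (Point.some _ _ h₃ : W.Point) j) := by rw [map_mul, hvc, one_mul]
      rw [hj1]
      fin_cases j
      · refine ⟨?_, ?_⟩
        · show v x₃ ≤ _
          rw [hvx₃]
          exact le_sz v (Point.some _ _ h₁ : W.Point) 0
        · show v (x₁ - y₁ / y₃ * x₃) ≤ _
          refine le_trans ?_ (mul_le_mul_of_nonneg_left hszy hε)
          have : x₁ - y₁ / y₃ * x₃ = -(x₃ - x₁) + (1 - y₁ / y₃) * x₃ := by ring
          rw [this]
          refine (hv _ _).trans (max_le ?_ ?_)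
          · rw [v.map_neg]
            exact hεq _ _ (v.nonneg _) (v.nonneg _) (h4.trans hy₁.ge)
          · refine hεq _ _ (v.nonneg _) (v.nonneg _) ?_
            rw [map_mul, mul_pow, hvx₃, hy₁]
            calc v (1 - y₁ / y₃) ^ 2 * v x₁ ^ 2 * v x₂ =
                v (1 - y₁ / y₃) ^ 2 * v x₂ * v x₁ ^ 2 := by ring
              _ ≤ v x₁ * v x₁ ^ 2 := by gcongr
              _ = v x₁ ^ 3 := by ring
      · refine ⟨?_, ?_⟩
        · show v y₃ ≤ _
          rw [hyy]; exact hszy
        · show v (y₁ - y₁ / y₃ * y₃) ≤ _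
          rw [div_mul_cancel₀ _ hy₃ne, sub_self, v.map_zero]
          exact mul_nonneg hε (by linarith)
      · refine ⟨?_, ?_⟩
        · show v 1 ≤ _
          rw [v.map_one]; exact hsz
        · show v (1 - y₁ / y₃ * 1) ≤ _
          rw [mul_one]
          refine le_trans ?_ (mul_le_mul_of_nonneg_left hszy hε)
          refine hεq _ _ (v.nonneg _) (v.nonneg _) (h1c.trans ?_)
          rw [hy₁]
          calc v x₁ = v x₁ * 1 := (mul_one _).symm
            _ ≤ v x₁ * v x₁ ^ 2 := by gcongr; exact one_le_pow₀ h.le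
            _ = v x₁ ^ 3 := by ring
    · push Not at h
      obtain ⟨x₃, y₃, h₃, e, h4, h5⟩ := shift hv hA hB h₁ h₂ (X := 1) le_rfl h hq.le hlt hq
      obtain ⟨x₃', y₃', h₃', e', -, h4'⟩ := x_le_of_lt hv hA hB h₁ h₂ hlt hq
      have hx33 : x₃ = x₃' := by
        rw [e] at e'
        simp only [Point.some.injEq] at e'
        exact e'.1
      have hvx₃ : v x₃ ≤ 1 := by rw [hx33]; exact h4' h
      have hvy₃ : v y₃ ≤ 1 := by
        have := vy_le hv hA hB h₃ (X := 1) le_rfl hvx₃
        rw [one_pow] at this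
        exact (sq_le_one_iff₀ (v.nonneg _)).1 this
      rw [e]
      refine ⟨1, fun j => ?_⟩
      rw [one_mul]
      rw [one_pow] at h4 h5
      fin_cases j
      · refine ⟨hvx₃.trans hsz, ?_⟩
        show v (x₁ - x₃) ≤ _
        rw [← v.map_neg, neg_sub]
        refine le_trans ?_ (mul_le_mul_of_nonneg_left hsz hε)
        exact hεq _ _ (v.nonneg _) (by norm_num) (by simpa using h4)
      · refine ⟨hvy₃.trans hsz, ?_⟩
        show v (y₁ - y₃) ≤ _
        rw [← v.map_neg, neg_sub]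
        refine le_trans ?_ (mul_le_mul_of_nonneg_left hsz hε)
        exact hεq _ _ (v.nonneg _) (by norm_num) (by simpa using h5)
      · refine ⟨?_, ?_⟩
        · show v 1 ≤ _
          rw [v.map_one]; exact hsz
        · show v (1 - 1) ≤ _
          rw [sub_self, v.map_zero]
          exact mul_nonneg hε (by linarith)

end Pool.Agent.Lib.MP_2f3286_ag.E
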