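import Mathlib
import Pool.Agent.Lib.MP_2f3286_ag.E.Near

/-!
# Values of multihomogeneous forms at nearby points
-/

set_option autoImplicit false
set_option linter.all false

open WeierstrassCurve WeierstrassCurve.Affine MvPolynomial

namespace Pool.Agent.Lib.MP_2f3286_ag.E

section

variable {I : Type*} [Fintype I] {k F : Type*} [Field k] [Field F] [Algebra k F]

theorem prod_pow_of_multi {R : Type*} [CommMonoid R] {d : I → ℕ} {m : I × Fin 3 →₀ ℕ}
    (h : ∀ i, m (i, 0) + m (i, 1) + m (i, 2) = d i) (B : I → R) :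
    ∏ p : I × Fin 3, B p.1 ^ m p = ∏ i, B i ^ d i := by
  rw [Fintype.prod_prod_type]
  refine Finset.prod_congr rfl fun i _ => ?_
  rw [Fin.prod_univ_three, ← pow_add, ← pow_add, h]

theorem aeval_eq_sum {ι : Type*} [Fintype ι] (x : ι → F) (G : MvPolynomial ι k) :
    aeval x G = ∑ m ∈ G.support, algebraMap k F (coeff m G) * ∏ i, x i ^ m i := by
  rw [aeval_def, eval₂_eq']

theorem aeval_scale {G : MvPolynomial (I × Fin 3) k} {d : I → ℕ} (hG : MultiHom G d)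
    (c : I → F) (x : I × Fin 3 → F) :
    aeval (fun p => c p.1 * x p) G = (∏ i, c i ^ d i) * aeval x G := by
  rw [aeval_eq_sum, aeval_eq_sum, Finset.mul_sum]
  refine Finset.sum_congr rfl fun m hm => ?_
  have h1 : ∏ p : I × Fin 3, (c p.1 * x p) ^ m p = (∏ i, c i ^ d i) * ∏ p, x p ^ m p := by
    rw [← prod_pow_of_multi (hG m hm) c, ← Finset.prod_mul_distrib]
    refine Finset.prod_congr rfl fun p _ => ?_
    rw [mul_pow]
  rw [h1]; ring

theorem abs_sum_le {v : AbsoluteValue F ℝ} (hv : IsNonarchimedean v) {α : Type*} (s : Finset α)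
    (f : α → F) {B : ℝ} (hB : 0 ≤ B) (h : ∀ a ∈ s, v (f a) ≤ B) : v (∑ a ∈ s, f a) ≤ B := by
  classical
  induction s using Finset.induction_on with
  | empty => simpa using hB
  | insert a s ha ih =>
    rw [Finset.sum_insert ha]
    exact (hv _ _).trans (max_le (h a (Finset.mem_insert_self _ _))
      (ih fun b hb => h b (Finset.mem_insert_of_mem hb)))

theorem abs_monomial_le {ι : Type*} [Fintype ι] (v : AbsoluteValue F ℝ) (x : ι → F) (B : ι → ℝ)
    (h : ∀ i, v (x i) ≤ B i) (m : ι →₀ ℕ) : v (∏ i, x i ^ m i) ≤ ∏ i, B i ^ m i := by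
  rw [map_prod]
  refine Finset.prod_le_prod (fun i _ => v.nonneg _) fun i _ => ?_
  rw [map_pow]
  exact pow_le_pow_left₀ (v.nonneg _) (h i) _

/-- Trivial bound at an arbitrary absolute value. -/
theorem abs_aeval_le {ι : Type*} [Fintype ι] (v : AbsoluteValue F ℝ) (G : MvPolynomial ι k)
    (x : ι → F) (B : ι → ℝ) (h : ∀ i, v (x i) ≤ B i) {β : ℝ}
    (hβ : ∀ m ∈ G.support, ∏ i, B i ^ m i ≤ β) :
    v (aeval x G) ≤ (∑ m ∈ G.support, v (algebraMap k F (coeff m G))) * β := by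
  rw [aeval_eq_sum, Finset.sum_mul]
  refine (v.sum_le _ _).trans (Finset.sum_le_sum fun m hm => ?_)
  rw [map_mul]
  exact mul_le_mul_of_nonneg_left ((abs_monomial_le v x B h m).trans (hβ m hm)) (v.nonneg _)

/-- Trivial bound at a nonarchimedean absolute value. -/
theorem abs_aeval_le' {ι : Type*} [Fintype ι] {v : AbsoluteValue F ℝ} (hv : IsNonarchimedean v)
    (G : MvPolynomial ι k) (x : ι → F) (B : ι → ℝ) (h : ∀ i, v (x i) ≤ B i) {β C : ℝ}
    (hβ0 : 0 ≤ β) (hC0 : 0 ≤ C) (hC : ∀ m ∈ G.support, v (algebraMap k F (coeff m G)) ≤ C)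
    (hβ : ∀ m ∈ G.support, ∏ i, B i ^ m i ≤ β) :
    v (aeval x G) ≤ C * β := by
  rw [aeval_eq_sum]
  refine abs_sum_le hv _ _ (mul_nonneg hC0 hβ0) fun m hm => ?_
  rw [map_mul]
  exact mul_le_mul (hC m hm) ((abs_monomial_le v x B h m).trans (hβ m hm)) (v.nonneg _) hC0

/-- Pairs of close elements. -/
def closeSub {v : AbsoluteValue F ℝ} (hv : IsNonarchimedean v) (ε : ℝ) (hε : 0 ≤ ε) :
    Submonoid (F × F × ℝ) where
  carrier := {t | v t.1 ≤ t.2.2 ∧ v t.2.1 ≤ t.2.2 ∧ v (t.1 - t.2.1) ≤ ε * t.2.2}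
  one_mem' := by simp [hε]
  mul_mem' := by
    rintro ⟨a, b, B⟩ ⟨a', b', B'⟩ ⟨h1, h2, h3⟩ ⟨h1', h2', h3'⟩
    simp only [Set.mem_setOf_eq] at *
    have hB : 0 ≤ B := (v.nonneg _).trans h1
    have hB' : 0 ≤ B' := (v.nonneg _).trans h1'
    simp only [Prod.mk_mul_mk, map_mul]
    refine ⟨mul_le_mul h1 h1' (v.nonneg _) hB, mul_le_mul h2 h2' (v.nonneg _) hB, ?_⟩
    have : a * a' - b * b' = (a - b) * a' + b * (a' - b') := by ring
    rw [this]
    refine (hv _ _).trans (max_le ?_ ?_)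
    · rw [map_mul, ← mul_assoc]
      exact mul_le_mul h3 h1' (v.nonneg _) (mul_nonneg hε hB)
    · rw [map_mul]
      calc v b * v (a' - b') ≤ B * (ε * B') := mul_le_mul h2 h3' (v.nonneg _) hB
        _ = ε * (B * B') := by ring

theorem abs_monomial_sub_le {ι : Type*} [Fintype ι] {v : AbsoluteValue F ℝ}
    (hv : IsNonarchimedean v) {ε : ℝ} (hε : 0 ≤ ε) (p q : ι → F) (B : ι → ℝ)
    (h : ∀ i, v (p i) ≤ B i ∧ v (q i) ≤ B i ∧ v (p i - q i) ≤ ε * B i) (m : ι →₀ ℕ) :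
    v (∏ i, p i ^ m i - ∏ i, q i ^ m i) ≤ ε * ∏ i, B i ^ m i := by
  have hmem : ∏ i, ((p i, q i, B i) : F × F × ℝ) ^ m i ∈ closeSub hv ε hε :=
    Submonoid.prod_mem _ fun i _ => Submonoid.pow_mem _ (h i) _
  have e1 : (∏ i, ((p i, q i, B i) : F × F × ℝ) ^ m i).1 = ∏ i, p i ^ m i := by
    rw [Prod.fst_prod]; rfl
  have e2 : (∏ i, ((p i, q i, B i) : F × F × ℝ) ^ m i).2.1 = ∏ i, q i ^ m i := by
    rw [Prod.snd_prod, Prod.fst_prod]; rfl
  have e3 : (∏ i, ((p i, q i, B i) : F × F × ℝ) ^ m i).2.2 = ∏ i, B i ^ m i := by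
    rw [Prod.snd_prod, Prod.snd_prod]; rfl
  have := hmem.2.2
  rwa [e1, e2, e3] at this

theorem abs_aeval_sub_le {ι : Type*} [Fintype ι] {v : AbsoluteValue F ℝ} (hv : IsNonarchimedean v)
    {ε : ℝ} (hε : 0 ≤ ε) (G : MvPolynomial ι k) (p q : ι → F) (B : ι → ℝ)
    (h : ∀ i, v (p i) ≤ B i ∧ v (q i) ≤ B i ∧ v (p i - q i) ≤ ε * B i) {β C : ℝ}
    (hβ0 : 0 ≤ β) (hC0 : 0 ≤ C) (hC : ∀ m ∈ G.support, v (algebraMap k F (coeff m G)) ≤ C)
    (hβ : ∀ m ∈ G.support, ∏ i, B i ^ m i ≤ β) :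
    v (aeval p G - aeval q G) ≤ C * (ε * β) := by
  rw [aeval_eq_sum, aeval_eq_sum, ← Finset.sum_sub_distrib]
  refine abs_sum_le hv _ _ (mul_nonneg hC0 (mul_nonneg hε hβ0)) fun m hm => ?_
  rw [← mul_sub, map_mul]
  refine mul_le_mul (hC m hm) ((abs_monomial_sub_le hv hε p q B h m).trans ?_) (v.nonneg _) hC0
  exact mul_le_mul_of_nonneg_left (hβ m hm) hε

end

section

variable {I : Type*} [Fintype I] {k F : Type*} [Field k] [Field F] [DecidableEq F] [Algebra k F]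
  {W : Affine F} [W.IsShortNF] {v : AbsoluteValue F ℝ}

/-- If a form vanishes at points close to `Q i`, its value at the `Q i` is small. -/
theorem small_of_near (hv : IsNonarchimedean v) (hA : v W.a₄ ≤ 1) (hB : v W.a₆ ≤ 1) {r ε : ℝ}
    (hr : 1 < r) (hε : 0 ≤ ε) (hεr : ε ^ 2 * r = 1) {G : MvPolynomial (I × Fin 3) k} {d : I → ℕ}
    (hG : MultiHom G d) {C : ℝ} (hC0 : 0 ≤ C)
    (hC : ∀ m ∈ G.support, v (algebraMap k F (coeff m G)) ≤ C)
    (Q R : I → W.Point) (hR : ∀ i, Near v r (R i))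
    (h0 : aeval (crds fun i => Q i + R i) G = 0) :
    v (aeval (crds Q) G) ≤ C * (ε * ∏ i, sz v (Q i) ^ d i) := by
  choose c hc using fun i => close hv hA hB hr hε hεr (Q i) (hR i)
  have h1 : aeval (fun p : I × Fin 3 => c p.1 * crds (fun i => Q i + R i) p) G = 0 := by
    rw [aeval_scale hG, h0, mul_zero]
  have h2 := abs_aeval_sub_le (v := v) hv hε G (crds Q)
    (fun p : I × Fin 3 => c p.1 * crds (fun i => Q i + R i) p) (fun p => sz v (Q p.1))
    (fun p => ⟨le_sz v _ _, (hc p.1 p.2).1, (hc p.1 p.2).2⟩)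
    (β := ∏ i, sz v (Q i) ^ d i) (C := C)
    (Finset.prod_nonneg fun i _ => pow_nonneg (zero_le_one.trans (one_le_sz v _)) _) hC0 hC
    (fun m hm => (prod_pow_of_multi (hG m hm) fun i => sz v (Q i)).le)
  rwa [h1, sub_zero] at h2

end

end Pool.Agent.Lib.MP_2f3286_ag.E
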