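import Mathlib

/-!
# Approximately quadratic functions on the integers
-/

set_option autoImplicit false

open Filter Topology

namespace Pool.Agent.Lib.MP_2f3286_ag.E

theorem exists_quadratic (f : ℤ → ℝ) (C : ℝ)
    (h : ∀ m n, |f (m + n) + f (m - n) - 2 * f m - 2 * f n| ≤ C) :
    ∃ a : ℝ, ∀ m : ℤ, |f m - a * (m : ℝ) ^ 2| ≤ C := by
  have h0 : |f 0| ≤ C / 2 := by
    have := h 0 0
    simp only [add_zero, sub_zero] at this
    have e : f 0 + f 0 - 2 * f 0 - 2 * f 0 = -(2 * f 0) := by ring
    rw [e, abs_neg, abs_mul, abs_two] at this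
    linarith
  have h2 : ∀ m, |f (2 * m) - 4 * f m| ≤ 3 * C / 2 := by
    intro m
    have h1 := h m m
    rw [sub_self, ← two_mul] at h1
    have e : f (2 * m) - 4 * f m = (f (2 * m) + f 0 - 2 * f m - 2 * f m) - f 0 := by ring
    rw [e]
    refine (abs_sub _ _).trans ?_
    linarith
  let g : ℤ → ℕ → ℝ := fun m j => f (2 ^ j * m) / 4 ^ j
  have hstep : ∀ m j, dist (g m j) (g m (j + 1)) ≤ (3 * C / 8) * (1 / 4) ^ j := by
    intro m j
    have h3 := h2 (2 ^ j * m)
    rw [Real.dist_eq]
    have e : g m j - g m (j + 1) = -(f (2 * (2 ^ j * m)) - 4 * f (2 ^ j * m)) / 4 ^ (j + 1) := by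
      simp only [g]
      rw [show (2 : ℤ) ^ (j + 1) * m = 2 * (2 ^ j * m) by ring, pow_succ]
      field_simp
      ring
    rw [e, abs_div, abs_neg, abs_of_pos (by positivity : (0 : ℝ) < 4 ^ (j + 1)),
      div_le_iff₀ (by positivity)]
    refine h3.trans (le_of_eq ?_)
    rw [one_div, inv_pow, pow_succ]
    field_simp
    ring
  have hcau : ∀ m, CauchySeq (g m) := fun m =>
    cauchySeq_of_le_geometric _ _ (by norm_num) (hstep m)
  have hlim : ∀ m, ∃ F, Tendsto (g m) atTop (𝓝 F) := fun m => cauchySeq_tendsto_of_complete (hcau m)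
  choose F hF using hlim
  have hclose : ∀ m, |f m - F m| ≤ C / 2 := by
    intro m
    have := dist_le_of_le_geometric_of_tendsto₀ _ _ (by norm_num) (hstep m) (hF m)
    have e : g m 0 = f m := by simp [g]
    rw [e, Real.dist_eq] at this
    refine this.trans (le_of_eq ?_)
    norm_num
    ring
  have hpar : ∀ m n, F (m + n) + F (m - n) = 2 * F m + 2 * F n := by
    intro m n
    have h1 : Tendsto (fun j => g (m + n) j + g (m - n) j - 2 * g m j - 2 * g n j) atTop
        (𝓝 (F (m + n) + F (m - n) - 2 * F m - 2 * F n)) :=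
      (((hF _).add (hF _)).sub ((hF _).const_mul 2)).sub ((hF _).const_mul 2)
    have h2 : Tendsto (fun j => g (m + n) j + g (m - n) j - 2 * g m j - 2 * g n j) atTop (𝓝 0) := by
      apply squeeze_zero_norm (a := fun j : ℕ => C * (1 / 4 : ℝ) ^ j)
      · intro j
        have h3 := h (2 ^ j * m) (2 ^ j * n)
        have e : g (m + n) j + g (m - n) j - 2 * g m j - 2 * g n j =
            (f (2 ^ j * m + 2 ^ j * n) + f (2 ^ j * m - 2 ^ j * n) - 2 * f (2 ^ j * m) -
              2 * f (2 ^ j * n)) / 4 ^ j := by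
          simp only [g]
          rw [mul_add, mul_sub]
          ring
        rw [e, Real.norm_eq_abs, abs_div, abs_of_pos (by positivity : (0 : ℝ) < 4 ^ j),
          div_le_iff₀ (by positivity)]
        refine h3.trans (le_of_eq ?_)
        rw [one_div, inv_pow]
        field_simp
      · have := (tendsto_pow_atTop_nhds_zero_of_lt_one (by norm_num : (0 : ℝ) ≤ 1 / 4)
          (by norm_num)).const_mul C
        simpa using this
    have := tendsto_nhds_unique h1 h2
    linarith
  have hF0 : F 0 = 0 := by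
    have := hpar 0 0
    simp only [add_zero, sub_zero] at this
    linarith
  have hnat : ∀ n : ℕ, F n = F 1 * (n : ℝ) ^ 2 ∧ F (n + 1) = F 1 * ((n : ℝ) + 1) ^ 2 := by
    intro n
    induction n with
    | zero => simp [hF0]
    | succ n ih =>
      refine ⟨by push_cast; exact ih.2, ?_⟩
      have h1 := hpar (n + 1) 1
      rw [show (n : ℤ) + 1 - 1 = n by ring] at h1
      push_cast
      have h2 := ih.1
      have h3 := ih.2
      push_cast at h1 ⊢
      rw [h2, h3] at h1
      linear_combination h1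
  refine ⟨F 1, fun m => ?_⟩
  have hC : 0 ≤ C := by
    have := abs_nonneg (f 0)
    linarith
  have hm : F m = F 1 * (m : ℝ) ^ 2 := by
    rcases le_total 0 m with hm | hm
    · obtain ⟨n, rfl⟩ := Int.eq_ofNat_of_zero_le hm
      rw [(hnat n).1]; norm_cast
    · obtain ⟨n, hn⟩ := Int.eq_ofNat_of_zero_le (neg_nonneg.2 hm)
      have h1 := hpar 0 m
      rw [zero_add, zero_sub, hn, (hnat n).1, hF0] at h1
      have h2 : (m : ℝ) = -(n : ℝ) := by
        have : m = -(n : ℤ) := by rw [← hn]; ring
        rw [this]; push_cast; rfl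
      rw [h2]
      linear_combination (-1 : ℝ) * h1
  rw [← hm]
  exact (hclose m).trans (by linarith)

end Pool.Agent.Lib.MP_2f3286_ag.E
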