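import Mathlib
import Pool.Agent.Lib.MP_2f3286_ag.E.Quad
import Pool.Agent.Lib.MP_2f3286_ag.E.AddSub

/-!
# The naive height on an elliptic curve over a number field
-/

set_option autoImplicit false
set_option linter.all false

open WeierstrassCurve WeierstrassCurve.Affine MvPolynomial Height

namespace Pool.Agent.Lib.MP_2f3286_ag.E

section

variable {K : Type*} [Field K] [DecidableEq K] [AdmissibleAbsValues K] {W : Affine K}

/-- The naive height of a point. -/
noncomputable def ht (P : W.Point) : ℝ := logHeight P.xRep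

theorem ht_nonneg (P : W.Point) : 0 ≤ ht P := logHeight_nonneg _

theorem ht_zero : ht (0 : W.Point) = 0 := by
  rw [ht, Point.xRep_zero, logHeight_swap, ← logHeight₁_eq_logHeight, logHeight₁_zero]

theorem ht_neg (P : W.Point) : ht (-P) = ht P := by rw [ht, ht, Point.xRep_neg]

theorem ht_some {x y : K} (h : W.Nonsingular x y) : ht (Point.some _ _ h : W.Point) = logHeight₁ x := by
  rw [ht, Point.xRep_some, logHeight₁_eq_logHeight]

theorem xRep_eq (P : W.Point) : P.xRep = ![P.xRep 0, P.xRep 1] := by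
  ext i; fin_cases i <;> rfl

variable (W) in
theorem parallelogram [W.IsShortNF] [WeierstrassCurve.IsElliptic W] : ∃ C : ℝ, ∀ P Q : W.Point,
    |ht (P + Q) + ht (P - Q) - 2 * ht P - 2 * ht Q| ≤ C := by
  obtain ⟨C₁, h₁⟩ := abs_logHeight_addSubMap_sub_two_mul_logHeight_le W
  obtain ⟨C₂, h₂⟩ := abs_logHeight_sym2_sub_le K
  have key : ∀ P Q : W.Point, |logHeight (P.sym2x Q) - (ht P + ht Q)| ≤ C₂ := by
    intro P Q
    have hP := P.xRep_ne_zero
    have hQ := Q.xRep_ne_zero
    rw [xRep_eq] at hP hQ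
    have := h₂ hP hQ
    rw [← xRep_eq, ← xRep_eq] at this
    exact this
  refine ⟨C₁ + 3 * C₂, fun P Q => ?_⟩
  obtain ⟨c, hc, h⟩ := addSub_sym2x P Q
  have e1 := h₁ (P.sym2x Q)
  have e2 := congrArg logHeight h
  rw [logHeight_smul_eq_logHeight _ hc] at e2
  rw [e2] at e1
  have e3 := key P Q
  have e4 := key (P + Q) (P - Q)
  rw [abs_le] at *
  constructor <;> linarith [e1.1, e1.2, e3.1, e3.2, e4.1, e4.2]

end

section NF

variable {K : Type*} [Field K] [DecidableEq K] [NumberField K] {W : Affine K} [W.IsShortNF]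
  [WeierstrassCurve.IsElliptic W]

/-- Points of bounded height are finitely many. -/
theorem finite_ht (B : ℝ) : {P : W.Point | ht P ≤ B}.Finite := by
  have h1 := NumberField.finite_setOfPred_logHeight₁_le K B
  set s : Set (Fin 2 → K) := insert ![1, 0] ((fun x : K => ![x, 1]) '' {x : K | logHeight₁ x ≤ B})
    with hs
  have hsf : s.Finite := (h1.image _).insert _
  have h2 : {P : W.Point | ht P ≤ B} ⊆ (fun P : W.Point => P.xRep) ⁻¹' s := by
    rintro (_ | ⟨x, y, h⟩) hP
    · exact Or.inl rfl
    · right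
      refine ⟨x, ?_, rfl⟩
      rw [Set.mem_setOf_eq, ht_some] at hP
      exact hP
  refine Set.Finite.subset ?_ h2
  refine Set.Finite.preimage' hsf fun b hb => ?_
  by_cases hP : ∃ P : W.Point, P.xRep = b
  · obtain ⟨P, rfl⟩ := hP
    refine Set.Finite.subset (Set.toFinite {P, -P}) fun Q hQ => ?_
    exact Point.xRep_eq_xRep_iff.1 hQ
  · refine Set.Finite.subset Set.finite_empty fun Q hQ => ?_
    exact hP ⟨Q, hQ⟩

/-- The height grows quadratically on the multiples of a point of infinite order. -/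
theorem ht_zsmul (P : W.Point) (hP : ∀ n : ℕ, n ≠ 0 → n • P ≠ 0) :
    ∃ a : ℝ, 0 < a ∧ ∃ C : ℝ, ∀ m : ℤ, |ht (m • P) - a * (m : ℝ) ^ 2| ≤ C := by
  obtain ⟨C, hC⟩ := parallelogram W
  obtain ⟨a, ha⟩ := exists_quadratic (fun m : ℤ => ht (m • P)) C (fun m n => by
    have := hC (m • P) (n • P)
    rwa [← add_smul, ← sub_smul] at this)
  refine ⟨a, ?_, C, ha⟩
  by_contra hneg
  push Not at hneg
  have hinj : Function.Injective (fun m : ℕ => m • P) := by
    have key : ∀ m n : ℕ, m < n → m • P ≠ n • P := by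
      intro m n h1 h2
      apply hP (n - m) (by omega)
      have h3 : (n - m) • P + m • P = n • P := by
        rw [← add_nsmul, Nat.sub_add_cancel h1.le]
      have h4 : (n - m) • P + m • P = 0 + m • P := by rw [h3, ← h2, zero_add]
      exact add_right_cancel h4
    intro m n hmn
    rcases lt_trichotomy m n with h | h | h
    · exact absurd hmn (key m n h)
    · exact h
    · exact absurd hmn.symm (key n m h)
  have hfin := finite_ht (W := W) C
  have hsub : Set.range (fun m : ℕ => m • P) ⊆ {P : W.Point | ht P ≤ C} := by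
    rintro _ ⟨m, rfl⟩
    have h1 := ha m
    rw [abs_le] at h1
    have h2 : a * ((m : ℤ) : ℝ) ^ 2 ≤ 0 := mul_nonpos_of_nonpos_of_nonneg hneg (by positivity)
    have h3 : ((m : ℤ) • P) = m • P := natCast_zsmul P m
    rw [h3] at h1
    show ht (m • P) ≤ C
    linarith [h1.2]
  exact Set.infinite_range_of_injective hinj (hfin.subset hsub)

end NF

end Pool.Agent.Lib.MP_2f3286_ag.E
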