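import Mathlib
import Pool.Agent.Lib.MP_2f3286_ag.E.Height

/-!
# Doubling at an arbitrary absolute value
-/

set_option autoImplicit false
set_option linter.all false

open WeierstrassCurve WeierstrassCurve.Affine

namespace Pool.Agent.Lib.MP_2f3286_ag.E

/-- `max 1 |x(Q)|`. -/
noncomputable def mx {F : Type*} [Field F] {W : Affine F} (w : AbsoluteValue F ℝ) : W.Point → ℝ
  | .zero => 1
  | .some x _ _ => max 1 (w x)

section

variable {F : Type*} [Field F] {W : Affine F} (w : AbsoluteValue F ℝ)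

@[simp] theorem mx_zero : mx w (0 : W.Point) = 1 := rfl

@[simp] theorem mx_some {x y : F} (h : W.Nonsingular x y) :
    mx w (Point.some _ _ h : W.Point) = max 1 (w x) := rfl

theorem one_le_mx (Q : W.Point) : 1 ≤ mx w Q := by
  rcases Q with _ | ⟨x, y, h⟩
  · exact le_rfl
  · exact le_max_left _ _

theorem mx_pos (Q : W.Point) : 0 < mx w Q := zero_lt_one.trans_le (one_le_mx w Q)

theorem log_mx_nonneg (Q : W.Point) : 0 ≤ Real.log (mx w Q) := Real.log_nonneg (one_le_mx w Q)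

end

variable {F : Type*} [Field F] [DecidableEq F] {W : Affine F} [W.IsShortNF]

theorem two_ne_zero_of_disc (hW : W.Δ ≠ 0) : (2 : F) ≠ 0 := by
  intro h
  apply hW
  rw [WeierstrassCurve.Δ, b₂_eq, b₄_eq, b₆_eq, b₈_eq]
  have h4 : (4 : F) = 0 := by
    have : (4 : F) = 2 * 2 := by norm_num
    rw [this, h, mul_zero]
  linear_combination (-8 * W.a₄ ^ 3) * h4 * 2 - 27 * (4 * W.a₆ ^ 2) * h4

/-- Bounds for the doubling map far out. -/
theorem exists_double_bound (w : AbsoluteValue F ℝ) (hW : W.Δ ≠ 0) : ∃ C : ℝ, 1 ≤ C ∧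
    ∀ Q : W.Point, C ≤ mx w Q → mx w (2 • Q) ≤ C * mx w Q ∧ mx w Q ≤ C * mx w (2 • Q) := by
  have h2 := two_ne_zero_of_disc hW
  have h4 : (4 : F) ≠ 0 := by
    have : (4 : F) = 2 * 2 := by norm_num
    rw [this]; exact mul_ne_zero h2 h2
  have h4pos : 0 < w (4 : F) := w.pos h4
  set A := w (2 * W.a₄) + w (8 * W.a₆) + w (W.a₄ ^ 2) with hA
  set B := w W.a₄ + w W.a₆ with hB
  have hA0 : 0 ≤ A := add_nonneg (add_nonneg (w.nonneg _) (w.nonneg _)) (w.nonneg _)
  have hB0 : 0 ≤ B := add_nonneg (w.nonneg _) (w.nonneg _)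
  set C := 2 + 2 * A + 2 * B + 4 / w 4 + 4 * w 4 with hC
  have h4' : 0 < 4 / w (4 : F) := by positivity
  have hC2 : 2 ≤ C := by rw [hC]; nlinarith
  refine ⟨C, by linarith, ?_⟩
  rintro (_ | ⟨x, y, h⟩) hQ
  · change C ≤ 1 at hQ
    linarith
  rw [mx_some] at hQ
  have hX : C ≤ w x := by
    rcases le_max_iff.1 hQ with h' | h'
    · linarith
    · exact h'
  have hX1 : 1 ≤ w x := by linarith
  have hX0 : 0 < w x := by linarith
  have e := eqn h
  have hAX : A * 2 ≤ w x ^ 2 := by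
    have : C * 1 ≤ w x * w x := mul_le_mul hX hX1 (by norm_num) hX0.le
    nlinarith
  have hBX : B * 2 ≤ w x ^ 2 := by
    have : C * 1 ≤ w x * w x := mul_le_mul hX hX1 (by norm_num) hX0.le
    nlinarith
  -- the numerator
  have hn : w (2 * W.a₄ * x ^ 2 + 8 * W.a₆ * x - W.a₄ ^ 2) * 2 ≤ w x ^ 4 := by
    have h5 : w (2 * W.a₄ * x ^ 2 + 8 * W.a₆ * x - W.a₄ ^ 2) ≤ A * w x ^ 2 := by
      calc w (2 * W.a₄ * x ^ 2 + 8 * W.a₆ * x - W.a₄ ^ 2) ≤
          w (2 * W.a₄ * x ^ 2) + w (8 * W.a₆ * x) + w (W.a₄ ^ 2) := by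
            rw [sub_eq_add_neg]
            refine (w.add_le _ _).trans ?_
            rw [w.map_neg]
            gcongr
            exact w.add_le _ _
        _ = w (2 * W.a₄) * w x ^ 2 + w (8 * W.a₆) * w x + w (W.a₄ ^ 2) := by
            rw [map_mul w (2 * W.a₄), map_mul w (8 * W.a₆), map_pow w x]
        _ ≤ w (2 * W.a₄) * w x ^ 2 + w (8 * W.a₆) * w x ^ 2 + w (W.a₄ ^ 2) * w x ^ 2 := by
            have h6 : w x ≤ w x ^ 2 := by nlinarith
            have h7 : 1 ≤ w x ^ 2 := by nlinarith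
            have h8 := w.nonneg (8 * W.a₆)
            have h9 := w.nonneg (W.a₄ ^ 2)
            have h10 : w (8 * W.a₆) * w x ≤ w (8 * W.a₆) * w x ^ 2 := by gcongr
            have h11 : w (W.a₄ ^ 2) * 1 ≤ w (W.a₄ ^ 2) * w x ^ 2 := by gcongr
            linarith
        _ = A * w x ^ 2 := by rw [hA]; ring
    calc w (2 * W.a₄ * x ^ 2 + 8 * W.a₆ * x - W.a₄ ^ 2) * 2 ≤ A * w x ^ 2 * 2 := by gcongr
      _ = (A * 2) * w x ^ 2 := by ring
      _ ≤ w x ^ 2 * w x ^ 2 := by gcongr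
      _ = w x ^ 4 := by ring
  have hd : w (W.a₄ * x + W.a₆) * 2 ≤ w x ^ 3 := by
    have h5 : w (W.a₄ * x + W.a₆) ≤ B * w x := by
      calc w (W.a₄ * x + W.a₆) ≤ w (W.a₄ * x) + w W.a₆ := w.add_le _ _
        _ = w W.a₄ * w x + w W.a₆ := by rw [map_mul]
        _ ≤ w W.a₄ * w x + w W.a₆ * w x := by
            have h6 := w.nonneg W.a₆
            have : w W.a₆ * 1 ≤ w W.a₆ * w x := by gcongr
            linarith
        _ = B * w x := by rw [hB]; ring
    calc w (W.a₄ * x + W.a₆) * 2 ≤ B * w x * 2 := by gcongr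
      _ = (B * 2) * w x := by ring
      _ ≤ w x ^ 2 * w x := by gcongr
      _ = w x ^ 3 := by ring
  set num := x ^ 4 - (2 * W.a₄ * x ^ 2 + 8 * W.a₆ * x - W.a₄ ^ 2) with hnum
  have hnum_le : w num ≤ 2 * w x ^ 4 := by
    rw [hnum, sub_eq_add_neg]
    refine (w.add_le _ _).trans ?_
    rw [w.map_neg, map_pow]
    have := w.nonneg (2 * W.a₄ * x ^ 2 + 8 * W.a₆ * x - W.a₄ ^ 2)
    have : 0 ≤ w x ^ 4 := by positivity
    linarith
  have hnum_ge : w x ^ 4 ≤ 2 * w num := by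
    have h5 : w (x ^ 4) ≤ w num + w (2 * W.a₄ * x ^ 2 + 8 * W.a₆ * x - W.a₄ ^ 2) := by
      have : x ^ 4 = num + (2 * W.a₄ * x ^ 2 + 8 * W.a₆ * x - W.a₄ ^ 2) := by rw [hnum]; ring
      conv_lhs => rw [this]
      exact w.add_le _ _
    rw [map_pow] at h5
    linarith
  have hy2 : w (y ^ 2) = w (x ^ 3 + (W.a₄ * x + W.a₆)) := by rw [e]; congr 1; ring
  have hy_le : w (y ^ 2) ≤ 2 * w x ^ 3 := by
    rw [hy2]
    refine (w.add_le _ _).trans ?_
    rw [map_pow]
    have := w.nonneg (W.a₄ * x + W.a₆)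
    have : 0 ≤ w x ^ 3 := by positivity
    linarith
  have hy_ge : w x ^ 3 ≤ 2 * w (y ^ 2) := by
    have h5 : w (x ^ 3) ≤ w (y ^ 2) + w (W.a₄ * x + W.a₆) := by
      have : x ^ 3 = y ^ 2 + -(W.a₄ * x + W.a₆) := by rw [e]; ring
      conv_lhs => rw [this]
      refine (w.add_le _ _).trans ?_
      rw [w.map_neg]
    rw [map_pow] at h5
    linarith
  have hy2pos : 0 < w (y ^ 2) := by
    have : 0 < w x ^ 3 := by positivity
    linarith
  have hy0 : y ≠ 0 := by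
    rintro rfl
    rw [zero_pow (by norm_num), w.map_zero] at hy2pos
    exact lt_irrefl _ hy2pos
  obtain ⟨h₃, e₃⟩ := exists_double h (mul_ne_zero h2 hy0)
  rw [two_nsmul, e₃, mx_some, mx_some]
  set x' := ((3 * x ^ 2 + W.a₄) / (2 * y)) ^ 2 - 2 * x with hx'
  have hx'e : x' * (4 * y ^ 2) = num := by
    have hℓ : (3 * x ^ 2 + W.a₄) / (2 * y) * (2 * y) = 3 * x ^ 2 + W.a₄ :=
      div_mul_cancel₀ _ (mul_ne_zero h2 hy0)
    rw [hx', hnum]
    linear_combination ((3 * x ^ 2 + W.a₄) / (2 * y) * (2 * y) + (3 * x ^ 2 + W.a₄)) * hℓ +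
      (-8 * x) * e
  have hx'w : w x' * (w 4 * w (y ^ 2)) = w num := by
    rw [← map_mul, ← map_mul, hx'e]
  have hx'0 := w.nonneg x'
  -- upper bound
  have hup : w x' * w 4 ≤ 4 * w x := by
    have h5 : (w x' * w 4) * w x ^ 3 ≤ (4 * w x) * w x ^ 3 := by
      calc (w x' * w 4) * w x ^ 3 ≤ (w x' * w 4) * (2 * w (y ^ 2)) := by gcongr
        _ = 2 * (w x' * (w 4 * w (y ^ 2))) := by ring
        _ = 2 * w num := by rw [hx'w]
        _ ≤ 2 * (2 * w x ^ 4) := by gcongr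
        _ = (4 * w x) * w x ^ 3 := by ring
    exact le_of_mul_le_mul_right h5 (by positivity)
  have hlow : w x ≤ 4 * (w 4 * w x') := by
    have h5 : w x * w x ^ 3 ≤ (4 * (w 4 * w x')) * w x ^ 3 := by
      calc w x * w x ^ 3 = w x ^ 4 := by ring
        _ ≤ 2 * w num := hnum_ge
        _ = 2 * (w x' * (w 4 * w (y ^ 2))) := by rw [hx'w]
        _ ≤ 2 * (w x' * (w 4 * (2 * w x ^ 3))) := by gcongr
        _ = _ := by ring
    exact le_of_mul_le_mul_right h5 (by positivity)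
  have hmx : max 1 (w x) = w x := max_eq_right hX1
  rw [hmx]
  have hCx : 1 ≤ C * w x := by nlinarith
  constructor
  · refine max_le hCx ?_
    have h5 : w x' ≤ 4 / w 4 * w x := by
      rw [div_mul_eq_mul_div, le_div_iff₀ h4pos]; exact hup
    refine h5.trans ?_
    apply mul_le_mul_of_nonneg_right _ hX0.le
    rw [hC]; linarith [mul_pos (by norm_num : (0:ℝ) < 4) h4pos]
  · have h5 : w x ≤ C * w x' := by
      refine hlow.trans ?_
      rw [← mul_assoc]
      apply mul_le_mul_of_nonneg_right _ hx'0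
      rw [hC]; linarith
    refine h5.trans ?_
    apply mul_le_mul_of_nonneg_left (le_max_right _ _) (by linarith)

/-- Bounds for iterated doubling. -/
theorem iter_double {w : AbsoluteValue F ℝ} {C : ℝ} (hC1 : 1 ≤ C)
    (hC : ∀ Q : W.Point, C ≤ mx w Q → mx w (2 • Q) ≤ C * mx w Q ∧ mx w Q ≤ C * mx w (2 • Q))
    (n : ℕ) (Q : W.Point) (hQ : C ^ (n + 1) ≤ mx w Q) :
    mx w (2 ^ n • Q) ≤ C ^ n * mx w Q ∧ mx w Q ≤ C ^ n * mx w (2 ^ n • Q) := by
  induction n generalizing Q with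
  | zero => simp
  | succ n ih =>
    have hC0 : 0 < C := by linarith
    have h1 : C ≤ mx w Q := le_trans (by
      calc C = C ^ 1 := (pow_one C).symm
        _ ≤ C ^ (n + 1 + 1) := pow_le_pow_right₀ hC1 (by omega)) hQ
    obtain ⟨h2, h3⟩ := hC Q h1
    have h4 : C ^ (n + 1) ≤ mx w (2 • Q) := by
      have h5 : C * C ^ (n + 1) ≤ C * mx w (2 • Q) := by
        calc C * C ^ (n + 1) = C ^ (n + 1 + 1) := by ring
          _ ≤ mx w Q := hQ
          _ ≤ _ := h3
      exact le_of_mul_le_mul_left h5 hC0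
    obtain ⟨h5, h6⟩ := ih (2 • Q) h4
    have e : (2 ^ (n + 1)) • Q = 2 ^ n • (2 • Q) := by rw [← mul_nsmul', pow_succ]
    rw [e]
    constructor
    · calc mx w (2 ^ n • (2 • Q)) ≤ C ^ n * mx w (2 • Q) := h5
        _ ≤ C ^ n * (C * mx w Q) := by gcongr
        _ = C ^ (n + 1) * mx w Q := by ring
    · calc mx w Q ≤ C * mx w (2 • Q) := h3
        _ ≤ C * (C ^ n * mx w (2 ^ n • (2 • Q))) := by gcongr
        _ = _ := by ring

end Pool.Agent.Lib.MP_2f3286_ag.E
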