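import Mathlib
import Pool.Agent.Lib.MP_2f3286_ag.E.Near

/-!
# Finite exponent of the group of local points modulo points close to the origin
-/

set_option autoImplicit false
set_option linter.all false

open WeierstrassCurve WeierstrassCurve.Affine

namespace Pool.Agent.Lib.MP_2f3286_ag.E

variable {F : Type*} [Field F] [DecidableEq F] {W : Affine F} [W.IsShortNF]
  {v : AbsoluteValue F ℝ}

theorem disc_ne_zero (hW : W.Δ ≠ 0) : (4 : F) ≠ 0 ∧ 4 * W.a₄ ^ 3 + 27 * W.a₆ ^ 2 ≠ 0 := by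
  have h : W.Δ = -(4 * 4 * (4 * W.a₄ ^ 3 + 27 * W.a₆ ^ 2)) := by
    rw [WeierstrassCurve.Δ, b₂_eq, b₄_eq, b₆_eq, b₈_eq]
    ring
  rw [h] at hW
  constructor
  · intro h4
    apply hW
    rw [h4]; ring
  · intro h4
    apply hW
    rw [h4]; ring

theorem num_le_one (hv : IsNonarchimedean v) (n : ℕ) : v (n : F) ≤ 1 := natCast_le hv n

theorem abs_add_le (hv : IsNonarchimedean v) {a b : F} {M : ℝ} (ha : v a ≤ M) (hb : v b ≤ M) :
    v (a + b) ≤ M := (hv _ _).trans (max_le ha hb)

theorem abs_sub_le (hv : IsNonarchimedean v) {a b : F} {M : ℝ} (ha : v a ≤ M) (hb : v b ≤ M) :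
    v (a - b) ≤ M := by
  rw [sub_eq_add_neg]
  exact abs_add_le hv ha (by rwa [v.map_neg])

theorem abs_eq_of_sub_lt (hv : IsNonarchimedean v) {a b : F} (h : v (a - b) < v b) : v a = v b :=
  eq_of_sub_lt hv h

/-- `f` and `f'` are not both small. -/
theorem bezout (hv : IsNonarchimedean v) (hA : v W.a₄ ≤ 1) (hB : v W.a₆ ≤ 1) {x R c : ℝ} {X : F}
    (hR : 1 ≤ R) (hX : v X ≤ R)
    (h1 : R ^ 2 * v (3 * X ^ 2 + W.a₄) < v (4 * W.a₄ ^ 3 + 27 * W.a₆ ^ 2))
    (h2 : R * v (X ^ 3 + W.a₄ * X + W.a₆) < v (4 * W.a₄ ^ 3 + 27 * W.a₆ ^ 2)) : False := by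
  have hR0 : 0 ≤ R := by linarith
  have e : 4 * W.a₄ ^ 3 + 27 * W.a₆ ^ 2 =
      (6 * W.a₄ * X ^ 2 - 9 * W.a₆ * X + 4 * W.a₄ ^ 2) * (3 * X ^ 2 + W.a₄) -
      (18 * W.a₄ * X - 27 * W.a₆) * (X ^ 3 + W.a₄ * X + W.a₆) := by ring
  have n6 : v (6 : F) ≤ 1 := by have := natCast_le hv 6; simpa using this
  have n9 : v (9 : F) ≤ 1 := by have := natCast_le hv 9; simpa using this
  have n4 : v (4 : F) ≤ 1 := by have := natCast_le hv 4; simpa using this
  have n18 : v (18 : F) ≤ 1 := by have := natCast_le hv 18; simpa using this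
  have n27 : v (27 : F) ≤ 1 := by have := natCast_le hv 27; simpa using this
  have hRR : R ≤ R ^ 2 := by nlinarith
  have h3 : v (6 * W.a₄ * X ^ 2 - 9 * W.a₆ * X + 4 * W.a₄ ^ 2) ≤ R ^ 2 := by
    apply abs_add_le hv
    · apply abs_sub_le hv
      · rw [map_mul, map_mul, map_pow]
        calc v 6 * v W.a₄ * v X ^ 2 ≤ 1 * 1 * R ^ 2 := by gcongr
          _ = R ^ 2 := by ring
      · rw [map_mul, map_mul]
        calc v 9 * v W.a₆ * v X ≤ 1 * 1 * R := by gcongr
          _ = R := by ring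
          _ ≤ R ^ 2 := hRR
    · rw [map_mul, map_pow]
      calc v 4 * v W.a₄ ^ 2 ≤ 1 * 1 ^ 2 := by gcongr
        _ ≤ R ^ 2 := by nlinarith
  have h4 : v (18 * W.a₄ * X - 27 * W.a₆) ≤ R := by
    apply abs_sub_le hv
    · rw [map_mul, map_mul]
      calc v 18 * v W.a₄ * v X ≤ 1 * 1 * R := by gcongr
        _ = R := by ring
    · rw [map_mul]
      calc v 27 * v W.a₆ ≤ 1 * 1 := by gcongr
        _ ≤ R := by linarith
  have h5 : v (4 * W.a₄ ^ 3 + 27 * W.a₆ ^ 2) ≤
      max (R ^ 2 * v (3 * X ^ 2 + W.a₄)) (R * v (X ^ 3 + W.a₄ * X + W.a₆)) := by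
    conv_lhs => rw [e, sub_eq_add_neg]
    refine (hv _ _).trans (max_le_max ?_ ?_)
    · rw [map_mul]; gcongr
    · rw [v.map_neg, map_mul]; gcongr
  rcases le_max_iff.1 h5 with h | h
  · exact absurd h1 (not_lt.2 h)
  · exact absurd h2 (not_lt.2 h)

/-- Points with close coordinates have difference close to the origin. -/
theorem near_of_close (hv : IsNonarchimedean v) (hA : v W.a₄ ≤ 1) (hB : v W.a₆ ≤ 1)
    (hW : W.Δ ≠ 0) {R Λ : ℝ} (hR : 1 ≤ R) (hΛ : R < Λ) :
    ∃ ρ : ℝ, 0 < ρ ∧ ∀ {x y x' y' : F} (h : W.Nonsingular x y) (h' : W.Nonsingular x' y'),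
      v x ≤ R → v x' ≤ R → v (x - x') ≤ ρ → v (y - y') ≤ ρ →
      Near v Λ ((Point.some _ _ h : W.Point) - Point.some _ _ h') := by
  obtain ⟨h40, hδ0⟩ := disc_ne_zero hW
  have hR0 : 0 < R := by linarith
  have hΛ0 : 0 < Λ := by linarith
  set δ := v (4 * W.a₄ ^ 3 + 27 * W.a₆ ^ 2) with hδ
  have hδpos : 0 < δ := v.pos hδ0
  have h4pos : 0 < v (4 : F) := v.pos h40
  have n4 : v (4 : F) ≤ 1 := by have := natCast_le hv 4; simpa using this
  have n27 : v (27 : F) ≤ 1 := by have := natCast_le hv 27; simpa using this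
  have n2 : v (2 : F) ≤ 1 := by have := natCast_le hv 2; simpa using this
  have hδ1 : δ ≤ 1 := by
    apply abs_add_le hv
    · rw [map_mul, map_pow]
      calc v 4 * v W.a₄ ^ 3 ≤ 1 * 1 ^ 3 := by gcongr
        _ = 1 := by ring
    · rw [map_mul, map_pow]
      calc v 27 * v W.a₆ ^ 2 ≤ 1 * 1 ^ 2 := by gcongr
        _ = 1 := by ring
  have hR3 : 1 ≤ R ^ 3 := one_le_pow₀ hR
  set c := v (4 : F) * δ / R ^ 3 with hc
  have hc0 : 0 < c := by positivity
  have hc1 : c ≤ 1 := by
    rw [hc, div_le_one (by positivity)]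
    calc v (4 : F) * δ ≤ 1 * 1 := by gcongr
      _ ≤ R ^ 3 := by linarith
  have hcsq : c ^ 2 * R ≤ v (4 : F) * δ := by
    have : c ^ 2 ≤ c := by nlinarith
    calc c ^ 2 * R ≤ c * R := by gcongr
      _ = v (4 : F) * δ / R ^ 2 := by rw [hc]; field_simp
      _ ≤ v (4 : F) * δ := div_le_self (by positivity) (one_le_pow₀ hR)
  have hcR : c * R ^ 3 ≤ δ := by
    rw [hc, div_mul_cancel₀ _ (by positivity)]
    calc v (4 : F) * δ ≤ 1 * δ := by gcongr
      _ = δ := one_mul _
  refine ⟨c / (Λ + 1), by positivity, ?_⟩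
  intro x y x' y' h h' hx hx' hxx hyy
  set ρ := c / (Λ + 1) with hρ
  have hρ0 : 0 < ρ := by positivity
  have hρc : ρ < c := by
    rw [hρ, div_lt_iff₀ (by positivity)]
    nlinarith
  have hcρ : c = (Λ + 1) * ρ := by rw [hρ]; field_simp
  have e := eqn h
  have e' := eqn h'
  -- it suffices to bound the slope
  have final : ∀ (ℓ s : F) (a : F), v s ≤ R → (Λ + 1) * v a ≤ v ℓ * v a → 0 < v a →
      Λ ≤ v (ℓ ^ 2 - s) := by
    intro ℓ s a hs h1 h2
    have h3 : Λ + 1 ≤ v ℓ := le_of_mul_le_mul_right h1 h2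
    have h4 : Λ ≤ v (ℓ ^ 2) := by rw [map_pow]; nlinarith
    have h5 : v (ℓ ^ 2 - s) = v (ℓ ^ 2) := by
      apply abs_eq_of_sub_lt hv
      rw [sub_sub_cancel_left, v.map_neg]
      linarith
    rw [h5]; exact h4
  have hf' : R * v (x ^ 3 + W.a₄ * x + W.a₆) < δ → δ ≤ R ^ 2 * v (3 * x ^ 2 + W.a₄) := by
    intro h1
    by_contra h2
    push Not at h2
    exact bezout hv hA hB (x := 0) (c := 0) hR hx h2 h1
  obtain ⟨hn, en⟩ := neg_some' h'
  rw [sub_eq_add_neg, en]
  by_cases hxe : x = x'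
  · subst hxe
    have hyy' : (y - y') * (y + y') = 0 := by linear_combination e - e'
    rcases mul_eq_zero.1 hyy' with h1 | h1
    · have h2 : y = y' := sub_eq_zero.1 h1
      subst h2
      have h3 : (Point.some _ _ h : W.Point) + Point.some _ _ hn = 0 := by
        rw [← en, add_neg_cancel]
      rw [h3]; trivial
    · have h2 : y' = -y := by linear_combination h1
      subst h2
      by_cases hy0 : 2 * y = 0
      · have h3 : y = - y := by linear_combination hy0
        have h4 : (Point.some _ _ h : W.Point) + Point.some _ _ hn = 0 := by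
          obtain ⟨hn', en'⟩ := neg_some' h
          have h5 : (Point.some _ _ hn : W.Point) = Point.some _ _ hn' := by
            simp only [Point.some.injEq]
            exact ⟨trivial, by linear_combination hy0⟩
          rw [h5, ← en', add_neg_cancel]
        rw [h4]; trivial
      · obtain ⟨h₃, e₃⟩ := exists_double h hy0
        have h5 : (Point.some _ _ hn : W.Point) = Point.some _ _ h := by
          simp only [Point.some.injEq]
          exact ⟨trivial, by ring⟩
        rw [h5, e₃, near_some]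
        have h2y : v (2 * y) ≤ ρ := by
          have : 2 * y = y - -y := by ring
          rw [this]; exact hyy
        have h2y0 : 0 < v (2 * y) := v.pos hy0
        have hfx : R * v (x ^ 3 + W.a₄ * x + W.a₆) < δ := by
          rw [← e]
          have h6 : v (4 : F) * (R * v (y ^ 2)) = R * v (2 * y) ^ 2 := by
            rw [← map_pow, show (2 * y) ^ 2 = 4 * y ^ 2 by ring, map_mul]; ring
          have h7 : R * v (2 * y) ^ 2 < v (4 : F) * δ := by
            calc R * v (2 * y) ^ 2 ≤ R * ρ ^ 2 := by gcongr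
              _ < R * c ^ 2 := by gcongr
              _ = c ^ 2 * R := by ring
              _ ≤ v (4 : F) * δ := hcsq
          rw [← h6] at h7
          exact lt_of_mul_lt_mul_left h7 h4pos.le
        have h8 := hf' hfx
        refine final _ (2 * x) (2 * y) ?_ ?_ h2y0
        · rw [map_mul]
          calc v 2 * v x ≤ 1 * R := by gcongr
            _ = R := one_mul _
        · rw [← map_mul, div_mul_cancel₀ _ hy0]
          have h9 : (Λ + 1) * v (2 * y) ≤ c := by rw [hcρ]; gcongr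
          refine h9.trans ?_
          have h10 : c * R ^ 2 ≤ v (3 * x ^ 2 + W.a₄) * R ^ 2 := by
            calc c * R ^ 2 ≤ c * R ^ 3 := by
                  apply mul_le_mul_of_nonneg_left _ hc0.le
                  exact pow_le_pow_right₀ hR (by norm_num)
              _ ≤ δ := hcR
              _ ≤ R ^ 2 * v (3 * x ^ 2 + W.a₄) := h8
              _ = _ := by ring
          exact le_of_mul_le_mul_right h10 (by positivity)
  · obtain ⟨h₃, e₃⟩ := exists_add h hn hxe
    rw [e₃, near_some, sub_neg_eq_add]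
    have hd : x - x' ≠ 0 := sub_ne_zero.2 hxe
    have hd0 : 0 < v (x - x') := v.pos hd
    rw [sub_sub]
    have hs : v (x + x') ≤ R := abs_add_le hv hx hx'
    have key : (y - y') * (y + y') = (x - x') * (x ^ 2 + x * x' + x' ^ 2 + W.a₄) := by
      linear_combination e - e'
    by_cases hfx : R * v (x ^ 3 + W.a₄ * x + W.a₆) < δ
    · have h8 := hf' hfx
      have h9 : c * R ≤ v (3 * x ^ 2 + W.a₄) := by
        have h10 : c * R * R ^ 2 ≤ v (3 * x ^ 2 + W.a₄) * R ^ 2 := by
          calc c * R * R ^ 2 = c * R ^ 3 := by ring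
            _ ≤ δ := hcR
            _ ≤ R ^ 2 * v (3 * x ^ 2 + W.a₄) := h8
            _ = _ := by ring
        exact le_of_mul_le_mul_right h10 (by positivity)
      have h11 : v (x ^ 2 + x * x' + x' ^ 2 + W.a₄) = v (3 * x ^ 2 + W.a₄) := by
        apply abs_eq_of_sub_lt hv
        have : x ^ 2 + x * x' + x' ^ 2 + W.a₄ - (3 * x ^ 2 + W.a₄) =
            -((x - x') * (x' + 2 * x)) := by ring
        rw [this, v.map_neg, map_mul]
        have h12 : v (x' + 2 * x) ≤ R := by
          apply abs_add_le hv hx'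
          rw [map_mul]
          calc v 2 * v x ≤ 1 * R := by gcongr
            _ = R := one_mul _
        calc v (x - x') * v (x' + 2 * x) ≤ ρ * R := by gcongr
          _ < c * R := by gcongr
          _ ≤ _ := h9
      have h13 : 0 < v (x ^ 2 + x * x' + x' ^ 2 + W.a₄) := by
        rw [h11]
        exact lt_of_lt_of_le (by positivity) h9
      have h14 : (y - y') * (y + y') ≠ 0 := by
        rw [key]
        exact mul_ne_zero hd (v.pos_iff.1 h13)
      have hyne : y - y' ≠ 0 := left_ne_zero_of_mul h14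
      refine final _ _ (y - y') hs ?_ (v.pos hyne)
      rw [← map_mul]
      have h15 : (y + y') / (x - x') * (y - y') = x ^ 2 + x * x' + x' ^ 2 + W.a₄ := by
        field_simp
        linear_combination key
      rw [h15, h11]
      calc (Λ + 1) * v (y - y') ≤ (Λ + 1) * ρ := by gcongr
        _ = c * 1 := by rw [hcρ, mul_one]
        _ ≤ c * R := by gcongr
        _ ≤ _ := h9
    · push Not at hfx
      have h16 : c ≤ v (2 * y) := by
        by_contra hcon
        push Not at hcon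
        have h6 : v (4 : F) * (R * v (y ^ 2)) = R * v (2 * y) ^ 2 := by
          rw [← map_pow, show (2 * y) ^ 2 = 4 * y ^ 2 by ring, map_mul]; ring
        have h7 : R * v (2 * y) ^ 2 < v (4 : F) * δ := by
          calc R * v (2 * y) ^ 2 < R * c ^ 2 := by gcongr
            _ = c ^ 2 * R := by ring
            _ ≤ v (4 : F) * δ := hcsq
        rw [← e] at hfx
        have h17 : v (4 : F) * δ ≤ v (4 : F) * (R * v (y ^ 2)) := by gcongr
        linarith
      have h18 : v (y + y') = v (2 * y) := by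
        apply abs_eq_of_sub_lt hv
        rw [show y + y' - 2 * y = -(y - y') by ring, v.map_neg]
        linarith
      refine final _ _ (x - x') hs ?_ hd0
      rw [← map_mul, div_mul_cancel₀ _ hd, h18]
      calc (Λ + 1) * v (x - x') ≤ (Λ + 1) * ρ := by gcongr
        _ = c := hcρ.symm
        _ ≤ _ := h16

theorem Near.mono {r r' : ℝ} (h : r ≤ r') {R : W.Point} (hR : Near v r' R) : Near v r R := by
  rcases R with _ | ⟨x, y, hxy⟩
  · trivial
  · exact le_trans h hR

/-- Finite exponent. -/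
theorem exists_exponent_of_net (hv : IsNonarchimedean v) (hA : v W.a₄ ≤ 1) (hB : v W.a₆ ≤ 1)
    (hW : W.Δ ≠ 0)
    (hnet : ∀ R ρ : ℝ, 0 < ρ → ∃ Z : Finset F, ∀ x, v x ≤ R → ∃ z ∈ Z, v (x - z) ≤ ρ)
    {r : ℝ} (hr : 1 < r) : ∃ n : ℕ, 0 < n ∧ ∀ Q : W.Point, Near v r (n • Q) := by
  classical
  obtain ⟨ρ, hρ, hclose⟩ := near_of_close hv hA hB hW (R := r) (Λ := r + 1) hr.le (by linarith)
  obtain ⟨Z, hZ⟩ := hnet r ρ hρ
  obtain ⟨Z', hZ'⟩ := hnet (r ^ 2) ρ hρ
  -- the colouring
  have hcol : ∀ Q : W.Point, ∃ c : Option (Z × Z'), match c with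
      | none => Near v r Q
      | Option.some (z, z') => ∃ (x y : F) (h : W.Nonsingular x y), Q = Point.some _ _ h ∧ v x ≤ r ∧
        v (x - z) ≤ ρ ∧ v (y - z') ≤ ρ := by
    intro Q
    by_cases hQ : Near v r Q
    · exact ⟨none, hQ⟩
    · rcases Q with _ | ⟨x, y, h⟩
      · exact absurd trivial hQ
      · rw [near_some] at hQ
        push Not at hQ
        obtain ⟨z, hz, hz'⟩ := hZ x hQ.le
        have hy := vy_le hv hA hB h hr.le hQ.le
        have hy2 : v y ≤ r ^ 2 := by
          refine (sq_le_sq₀ (v.nonneg _) (by positivity)).1 (hy.trans ?_)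
          rw [← pow_mul]
          exact pow_le_pow_right₀ hr.le (by norm_num)
        obtain ⟨w, hw, hw'⟩ := hZ' y hy2
        exact ⟨Option.some (⟨z, hz⟩, ⟨w, hw⟩), x, y, h, rfl, hQ.le, hz', hw'⟩
  choose col hcol using hcol
  set m := Fintype.card (Option (Z × Z')) with hm
  refine ⟨m.factorial, Nat.factorial_pos _, fun Q => ?_⟩
  have hnot : ¬ Function.Injective (fun j : Fin (m + 1) => col ((j : ℕ) • Q)) := by
    intro hinj
    have := Fintype.card_le_of_injective _ hinj
    rw [Fintype.card_fin] at this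
    omega
  have hsame : ∀ Q₁ Q₂ : W.Point, col Q₁ = col Q₂ → Near v r (Q₁ - Q₂) := by
    intro Q₁ Q₂ h
    have h1 := hcol Q₁
    have h2 := hcol Q₂
    rw [h] at h1
    rcases hc : col Q₂ with _ | ⟨z, z'⟩
    · rw [hc] at h1 h2
      rw [sub_eq_add_neg]
      exact Near.add hv hA hB hr h1 h2.neg
    · rw [hc] at h1 h2
      obtain ⟨x₁, y₁, g₁, rfl, hx₁, hz₁, hw₁⟩ := h1
      obtain ⟨x₂, y₂, g₂, rfl, hx₂, hz₂, hw₂⟩ := h2
      apply Near.mono (r' := r + 1) (by linarith)
      apply hclose g₁ g₂ hx₁ hx₂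
      · have : x₁ - x₂ = (x₁ - z) - (x₂ - z) := by ring
        rw [this]; exact abs_sub_le hv hz₁ hz₂
      · have : y₁ - y₂ = (y₁ - z') - (y₂ - z') := by ring
        rw [this]; exact abs_sub_le hv hw₁ hw₂
  have main : ∀ i j : Fin (m + 1), i < j → col ((i : ℕ) • Q) = col ((j : ℕ) • Q) →
      Near v r (m.factorial • Q) := by
    intro i j hij h
    have h1 := hsame _ _ h.symm
    have h2 : (j : ℕ) • Q - (i : ℕ) • Q = ((j : ℕ) - (i : ℕ)) • Q := by
      rw [sub_eq_iff_eq_add, ← add_nsmul, Nat.sub_add_cancel (Fin.lt_def.1 hij).le]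
    rw [h2] at h1
    have h3 : (j : ℕ) - (i : ℕ) ∣ m.factorial := by
      apply Nat.dvd_factorial
      · have := Fin.lt_def.1 hij; omega
      · have := j.2; omega
    obtain ⟨q, hq⟩ := h3
    rw [hq, mul_comm, mul_nsmul']
    have h4 : ((j : ℕ) - (i : ℕ)) • Q ∈ nearSubgroup hv hA hB hr := h1
    exact AddSubgroup.nsmul_mem _ h4 q
  rw [Function.Injective] at hnot
  push Not at hnot
  obtain ⟨i, j, hij, hne⟩ := hnot
  rcases lt_or_gt_of_ne hne with h | h
  · exact main i j h hij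
  · exact main j i h hij.symm

end Pool.Agent.Lib.MP_2f3286_ag.E
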