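import Mathlib
import Pool.Agent.Lib.MP_2f3286_ag.Local
import Pool.Agent.Lib.MP_2f3286_ag.E.LocExp

/-!
# Nets in completions of number fields, finite exponent of `E(k_v)`
-/

set_option autoImplicit false
set_option linter.all false

open WeierstrassCurve WeierstrassCurve.Affine
open IsDedekindDomain NumberField WithZero WithZeroMulInt

namespace Pool.Agent.Lib.MP_2f3286_ag.E

variable {k : Type*} [Field k] [NumberField k]

/-- The norm of the completion as an absolute value. -/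
noncomputable def nv (v : HeightOneSpectrum (𝓞 k)) : AbsoluteValue (v.adicCompletion k) ℝ :=
  NormedField.toAbsoluteValue _

theorem nv_apply (v : HeightOneSpectrum (𝓞 k)) (x : v.adicCompletion k) : nv v x = ‖x‖ := rfl

theorem norm_le_iff (v : HeightOneSpectrum (𝓞 k)) (x y : v.adicCompletion k) :
    ‖x‖ ≤ ‖y‖ ↔ Valued.v x ≤ Valued.v y := by
  rw [FinitePlace.norm_def, FinitePlace.norm_def, NNReal.coe_le_coe]
  exact (toNNReal_strictMono (HeightOneSpectrum.one_lt_absNorm_nnreal v)).le_iff_le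

theorem nv_nonarch (v : HeightOneSpectrum (𝓞 k)) : IsNonarchimedean (nv v) := by
  intro x y
  rw [nv_apply, nv_apply, nv_apply]
  rcases le_total (Valued.v x) (Valued.v y) with h | h
  · refine le_max_of_le_right ((norm_le_iff v _ _).2 ?_)
    exact (Valued.v.map_add _ _).trans (max_le h le_rfl)
  · refine le_max_of_le_left ((norm_le_iff v _ _).2 ?_)
    exact (Valued.v.map_add _ _).trans (max_le le_rfl h)

theorem nv_algebraMap (v : HeightOneSpectrum (𝓞 k)) (x : k) :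
    nv v (algebraMap k (v.adicCompletion k) x) = HeightOneSpectrum.adicAbv k v x :=
  FinitePlace.norm_embedding v x

theorem exists_lt_one (v : HeightOneSpectrum (𝓞 k)) :
    ∃ π : v.adicCompletion k, 0 < ‖π‖ ∧ ‖π‖ < 1 := by
  obtain ⟨γ, hγ⟩ := HeightOneSpectrum.valuedAdicCompletion_surjective k v (exp (-1 : ℤ))
  have hγ0 : γ ≠ 0 := by
    intro h
    rw [h, map_zero] at hγ
    exact exp_ne_zero hγ.symm
  refine ⟨γ, norm_pos_iff.2 hγ0, ?_⟩
  rw [← norm_one (α := v.adicCompletion k)]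
  rw [← not_le, norm_le_iff, not_le, hγ, map_one, ← exp_zero, exp_lt_exp]
  norm_num

/-- Finite nets in the unit ball. -/
theorem exists_net_one (v : HeightOneSpectrum (𝓞 k)) (m : ℕ) :
    ∃ Z : Finset (v.adicCompletion k), ∀ x : v.adicCompletion k, Valued.v x ≤ 1 →
      ∃ z ∈ Z, Valued.v (x - z) ≤ exp (-(m : ℤ)) := by
  classical
  have hfin : Finite (𝓞 k ⧸ v.asIdeal ^ m) :=
    Ideal.finiteQuotientOfFreeOfNeBot _ (pow_ne_zero _ v.ne_bot)
  have : Fintype (𝓞 k ⧸ v.asIdeal ^ m) := Fintype.ofFinite _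
  let rep : 𝓞 k ⧸ v.asIdeal ^ m → 𝓞 k := fun c => Quotient.out c
  refine ⟨Finset.univ.image fun c => algebraMap k (v.adicCompletion k) (algebraMap (𝓞 k) k (rep c)),
    fun y hy => ?_⟩
  have hle : exp (-(m : ℤ)) ≤ (1 : WithZero (Multiplicative ℤ)) := by
    rw [← exp_zero]
    exact exp_le_exp.mpr (by omega)
  obtain ⟨x, hx⟩ := exists_approx v y m
  have hx1 : v.valuation k x ≤ 1 := by
    rw [← val_alg]
    have : algebraMap k (v.adicCompletion k) x = y - (y - algebraMap k (v.adicCompletion k) x) := by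
      simp
    rw [this]
    exact (Valued.v.map_sub _ _).trans (max_le hy (hx.trans hle))
  obtain ⟨a, ha⟩ := HeightOneSpectrum.exists_valuation_sub_lt_of_integer v hx1
    (Units.mk0 (exp (-(m : ℤ))) exp_ne_zero)
  simp only [Units.val_mk0] at ha
  have hmem : a - rep (Ideal.Quotient.mk _ a) ∈ v.asIdeal ^ m := by
    rw [← Ideal.Quotient.eq]
    exact (Ideal.Quotient.mk_out (Ideal.Quotient.mk (v.asIdeal ^ m) a)).symm
  have h2 : v.valuation k (algebraMap (𝓞 k) k a - algebraMap (𝓞 k) k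
      (rep (Ideal.Quotient.mk _ a))) ≤ exp (-(m : ℤ)) := by
    have := (v.intValuation_le_pow_iff_mem _ m).mpr hmem
    rw [← HeightOneSpectrum.valuation_of_algebraMap (K := k)] at this
    simpa using this
  refine ⟨_, Finset.mem_image.2 ⟨Ideal.Quotient.mk _ a, Finset.mem_univ _, rfl⟩, ?_⟩
  have e : y - algebraMap k (v.adicCompletion k) (algebraMap (𝓞 k) k
      (rep (Ideal.Quotient.mk (v.asIdeal ^ m) a))) =
      (y - algebraMap k (v.adicCompletion k) x) -
        algebraMap k (v.adicCompletion k) (algebraMap (𝓞 k) k a - x) +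
        algebraMap k (v.adicCompletion k) (algebraMap (𝓞 k) k a - algebraMap (𝓞 k) k
          (rep (Ideal.Quotient.mk _ a))) := by
    rw [map_sub, map_sub]; ring
  rw [e]
  refine (Valued.v.map_add _ _).trans (max_le ((Valued.v.map_sub _ _).trans (max_le hx ?_)) ?_)
  · rw [val_alg]; exact ha.le
  · rw [val_alg]; exact h2

theorem exists_net (v : HeightOneSpectrum (𝓞 k)) (R ρ : ℝ) (hρ : 0 < ρ) :
    ∃ Z : Finset (v.adicCompletion k), ∀ x, nv v x ≤ R → ∃ z ∈ Z, nv v (x - z) ≤ ρ := by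
  classical
  obtain ⟨π, hπ0, hπ1⟩ := exists_lt_one v
  have hπne : π ≠ 0 := norm_pos_iff.1 hπ0
  -- `c` large
  obtain ⟨j, hj⟩ : ∃ j : ℕ, R < (‖π‖⁻¹) ^ j :=
    pow_unbounded_of_one_lt _ ((one_lt_inv₀ hπ0).2 hπ1)
  set c := (π⁻¹) ^ j with hc
  have hc0 : c ≠ 0 := pow_ne_zero _ (inv_ne_zero hπne)
  have hcn : ‖c‖ = (‖π‖⁻¹) ^ j := by rw [hc, norm_pow, norm_inv]
  have hcpos : 0 < ‖c‖ := norm_pos_iff.2 hc0
  -- the precision
  obtain ⟨n, hn⟩ : ∃ n : ℕ, ‖π‖ ^ n < ρ / ‖c‖ := exists_pow_lt_of_lt_one (by positivity) hπ1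
  obtain ⟨m, hm⟩ := exists_exp_neg_lt (g := Valued.v (π ^ n))
    (by rw [Valuation.ne_zero_iff]; exact pow_ne_zero _ hπne)
  obtain ⟨Z, hZ⟩ := exists_net_one v m
  refine ⟨Z.image fun z => c * z, fun x hx => ?_⟩
  rw [nv_apply] at hx
  obtain ⟨z, hz, hz'⟩ := hZ (x / c) (by
    rw [← map_one (Valued.v : Valuation (v.adicCompletion k) _), ← norm_le_iff, norm_one, norm_div,
      div_le_one hcpos, hcn]
    exact hx.trans hj.le)
  refine ⟨c * z, Finset.mem_image_of_mem _ hz, ?_⟩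
  have h1 : ‖x / c - z‖ ≤ ‖π ^ n‖ := (norm_le_iff v _ _).2 (hz'.trans hm.le)
  rw [nv_apply]
  have h2 : x - c * z = c * (x / c - z) := by field_simp
  rw [h2, norm_mul]
  rw [norm_pow] at h1
  calc ‖c‖ * ‖x / c - z‖ ≤ ‖c‖ * (ρ / ‖c‖) := by
        apply mul_le_mul_of_nonneg_left _ hcpos.le
        exact h1.trans hn.le
    _ = ρ := by field_simp

/-- Good reduction-like hypothesis: integral short Weierstrass equation at `v`. -/
theorem exists_exponent_local (v : HeightOneSpectrum (𝓞 k)) [DecidableEq (v.adicCompletion k)]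
    {W : Affine (v.adicCompletion k)} [W.IsShortNF] (hA : nv v W.a₄ ≤ 1) (hB : nv v W.a₆ ≤ 1)
    (hW : W.Δ ≠ 0) {r : ℝ} (hr : 1 < r) :
    ∃ n : ℕ, 0 < n ∧ ∀ Q : W.Point, Near (nv v) r (n • Q) :=
  exists_exponent_of_net (nv_nonarch v) hA hB hW (exists_net v) hr

/-- A point divisible by all integers is zero. -/
theorem eq_zero_of_divisible (v : HeightOneSpectrum (𝓞 k)) [DecidableEq (v.adicCompletion k)]
    {W : Affine (v.adicCompletion k)} [W.IsShortNF] (hA : nv v W.a₄ ≤ 1) (hB : nv v W.a₆ ≤ 1)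
    (hW : W.Δ ≠ 0) {Q : W.Point} (h : ∀ n : ℕ, 1 ≤ n → ∃ R : W.Point, n • R = Q) : Q = 0 := by
  rcases Q with _ | ⟨x, y, hxy⟩
  · rfl
  exfalso
  obtain ⟨n, hn, hn'⟩ := exists_exponent_local v hA hB hW
    (r := max 1 (nv v x) + 1) (by linarith [le_max_left 1 (nv v x)])
  obtain ⟨R, hR⟩ := h n hn
  have h1 := hn' R
  rw [hR, near_some] at h1
  linarith [le_max_right 1 (nv v x)]

end Pool.Agent.Lib.MP_2f3286_ag.E
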