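import Mathlib
import Pool.Agent.Lib.MP_2f3286_ag.E.Doubling
import Pool.Agent.Lib.MP_2f3286_ag.E.Net

/-!
# Product formula and heights as finite sums
-/

set_option autoImplicit false
set_option linter.all false

open WeierstrassCurve WeierstrassCurve.Affine
open IsDedekindDomain NumberField Height

namespace Pool.Agent.Lib.MP_2f3286_ag.E

variable {k : Type*} [Field k] [NumberField k]

/-- The `v`-adic absolute value on `k`. -/
noncomputable abbrev fv (v : HeightOneSpectrum (𝓞 k)) : AbsoluteValue k ℝ :=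
  HeightOneSpectrum.adicAbv k v

theorem finprod_eq (φ : AbsoluteValue k ℝ → ℝ) :
    ∏ᶠ w : FinitePlace k, φ w.val = ∏ᶠ v : HeightOneSpectrum (𝓞 k), φ (fv v) := by
  rw [← finprod_comp_equiv FinitePlace.equivHeightOneSpectrum.symm]
  refine finprod_congr fun v => ?_
  have h : (FinitePlace.mk v).val = fv v :=
    AbsoluteValue.ext fun x => FinitePlace.norm_embedding v x
  exact congrArg φ h

theorem finite_ne_one {g : k} (hg : g ≠ 0) : {v : HeightOneSpectrum (𝓞 k) | fv v g ≠ 1}.Finite := by
  have hfin : (fun w : FinitePlace k => w g).HasFiniteMulSupport :=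
    FinitePlace.hasFiniteMulSupport hg
  have h2 : ((fun v => FinitePlace.equivHeightOneSpectrum.symm v) ⁻¹'
          (Function.mulSupport fun w : FinitePlace k => w g)).Finite :=
    Set.Finite.preimage (FinitePlace.equivHeightOneSpectrum.symm.injective.injOn) hfin
  refine h2.subset fun v hv => ?_
  simp only [Set.mem_preimage, Function.mem_mulSupport]
  rw [FinitePlace.equivHeightOneSpectrum_symm_apply, FinitePlace.norm_embedding]
  exact hv

theorem finite_not_le_one (g : k) : {v : HeightOneSpectrum (𝓞 k) | ¬ fv v g ≤ 1}.Finite := by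
  by_cases hg : g = 0
  · subst hg
    simp
  · refine (finite_ne_one hg).subset fun v hv => ?_
    intro h
    exact hv h.le

/-- Product formula. -/
theorem prod_formula {g : k} (hg : g ≠ 0) : ∃ T₀ : Finset (HeightOneSpectrum (𝓞 k)),
    ∀ T, T₀ ⊆ T → ∑ w : InfinitePlace k, (w.mult : ℝ) * Real.log (w g) +
      ∑ v ∈ T, Real.log (fv v g) = 0 := by
  classical
  refine ⟨(finite_ne_one hg).toFinset, fun T hT => ?_⟩
  have h1 := prod_abs_eq_one hg
  have h2 : ∏ᶠ w : FinitePlace k, w g = ∏ v ∈ T, fv v g := by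
    rw [show (∏ᶠ w : FinitePlace k, w g) = ∏ᶠ w : FinitePlace k, (fun u : AbsoluteValue k ℝ => u g)
      w.val from rfl, finprod_eq (fun u : AbsoluteValue k ℝ => u g)]
    apply finprod_eq_prod_of_mulSupport_subset
    intro v hv
    apply hT
    rw [Set.Finite.mem_toFinset]
    exact hv
  rw [h2] at h1
  have h3 := congrArg Real.log h1
  rw [Real.log_one, Real.log_mul, Real.log_prod, Real.log_prod] at h3
  · rw [← h3]
    congr 1
    refine Finset.sum_congr rfl fun w _ => ?_
    rw [Real.log_pow]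
  · intro v _
    exact ((fv v).pos hg).ne'
  · intro w _
    exact pow_ne_zero _ (InfinitePlace.pos_iff.2 hg).ne'
  · exact Finset.prod_ne_zero_iff.2 fun w _ => pow_ne_zero _ (InfinitePlace.pos_iff.2 hg).ne'
  · exact Finset.prod_ne_zero_iff.2 fun v _ => ((fv v).pos hg).ne'

/-- The height as a finite sum. -/
theorem height_formula (x : k) : ∃ T₀ : Finset (HeightOneSpectrum (𝓞 k)),
    ∀ T, T₀ ⊆ T → logHeight₁ x = ∑ w : InfinitePlace k, (w.mult : ℝ) * Real.log (max 1 (w x)) +
      ∑ v ∈ T, Real.log (max 1 (fv v x)) := by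
  classical
  refine ⟨(finite_not_le_one x).toFinset, fun T hT => ?_⟩
  have h1 := NumberField.mulHeight₁_eq x
  have h2 : ∏ᶠ w : FinitePlace k, max (w x) 1 = ∏ v ∈ T, max 1 (fv v x) := by
    rw [show (∏ᶠ w : FinitePlace k, max (w x) 1) = ∏ᶠ w : FinitePlace k,
      (fun u : AbsoluteValue k ℝ => max 1 (u x)) w.val from finprod_congr fun w => max_comm _ _,
      finprod_eq (fun u : AbsoluteValue k ℝ => max 1 (u x))]
    apply finprod_eq_prod_of_mulSupport_subset
    intro v hv
    apply hT
    rw [Set.Finite.mem_toFinset]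
    intro hle
    exact hv (max_eq_left hle)
  rw [h2] at h1
  have hpos : ∀ r : ℝ, 0 < max 1 r := fun r => lt_max_of_lt_left one_pos
  rw [logHeight₁, h1, Real.log_mul, Real.log_prod, Real.log_prod]
  · congr 1
    refine Finset.sum_congr rfl fun w _ => ?_
    rw [Real.log_pow, max_comm]
  · intro v _
    exact (hpos _).ne'
  · intro w _
    rw [max_comm]
    exact pow_ne_zero _ (hpos _).ne'
  · refine Finset.prod_ne_zero_iff.2 fun w _ => ?_
    rw [max_comm]
    exact pow_ne_zero _ (hpos _).ne'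
  · exact Finset.prod_ne_zero_iff.2 fun v _ => (hpos _).ne'

/-- Partial sums are bounded by the height. -/
theorem partial_le_height (x : k) (T : Finset (HeightOneSpectrum (𝓞 k))) :
    ∑ w : InfinitePlace k, (w.mult : ℝ) * Real.log (max 1 (w x)) +
      ∑ v ∈ T, Real.log (max 1 (fv v x)) ≤ logHeight₁ x := by
  classical
  obtain ⟨T₀, hT₀⟩ := height_formula x
  rw [hT₀ (T₀ ∪ T) Finset.subset_union_left]
  gcongr
  · intro v _ _
    exact Real.log_nonneg (le_max_left _ _)
  · exact Finset.subset_union_right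

section points

variable [DecidableEq k] {W : Affine k}

theorem ht_formula (Q : W.Point) : ∃ T₀ : Finset (HeightOneSpectrum (𝓞 k)),
    ∀ T, T₀ ⊆ T → ht Q = ∑ w : InfinitePlace k, (w.mult : ℝ) * Real.log (mx w.val Q) +
      ∑ v ∈ T, Real.log (mx (fv v) Q) := by
  rcases Q with _ | ⟨x, y, h⟩
  · refine ⟨∅, fun T _ => ?_⟩
    rw [← Point.zero_def, ht_zero]
    simp
  · obtain ⟨T₀, hT₀⟩ := height_formula x
    refine ⟨T₀, fun T hT => ?_⟩
    rw [ht_some, hT₀ T hT]
    rfl

theorem partial_le_ht (Q : W.Point) (T : Finset (HeightOneSpectrum (𝓞 k))) :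
    ∑ w : InfinitePlace k, (w.mult : ℝ) * Real.log (mx w.val Q) +
      ∑ v ∈ T, Real.log (mx (fv v) Q) ≤ ht Q := by
  rcases Q with _ | ⟨x, y, h⟩
  · rw [← Point.zero_def, ht_zero]
    simp
  · rw [ht_some]
    exact partial_le_height x T

end points

end Pool.Agent.Lib.MP_2f3286_ag.E
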