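import Mathlib
import Pool.Agent.Lib.MP_2f3286_ag.E.Global
import Pool.Agent.Lib.MP_2f3286_ag.E.Eval

/-!
# The global inequality
-/

set_option autoImplicit false
set_option linter.all false

open WeierstrassCurve WeierstrassCurve.Affine
open IsDedekindDomain NumberField Height MvPolynomial

namespace Pool.Agent.Lib.MP_2f3286_ag.E

instance {R S : Type*} [CommRing R] [CommRing S] [Algebra R S] (W : Affine R)
    [h : WeierstrassCurve.IsShortNF W] : WeierstrassCurve.IsShortNF (W⁄S) :=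
  ⟨by show algebraMap R S W.a₁ = 0; rw [h.a₁, map_zero],
   by show algebraMap R S W.a₂ = 0; rw [h.a₂, map_zero],
   by show algebraMap R S W.a₃ = 0; rw [h.a₃, map_zero]⟩

section size

variable {F : Type*} [Field F] [DecidableEq F] {V : Affine F} [V.IsShortNF]

theorem sz_le (w : AbsoluteValue F ℝ) (Q : V.Point) :
    sz w Q ≤ (1 + w V.a₄ + w V.a₆) * mx w Q ^ 2 := by
  have h4 := w.nonneg V.a₄
  have h6 := w.nonneg V.a₆
  set c := 1 + w V.a₄ + w V.a₆ with hc
  have hc1 : 1 ≤ c := by rw [hc]; linarith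
  rcases Q with _ | ⟨x, y, h⟩
  · rw [← Point.zero_def, mx_zero, sz, crd_zero]
    simp
    linarith
  · rw [mx_some]
    set X := max 1 (w x) with hX
    have hX1 : 1 ≤ X := le_max_left _ _
    have hxX : w x ≤ X := le_max_right _ _
    have hX2 : X ≤ X ^ 2 := by nlinarith
    have hX3 : X ≤ X ^ 3 := by nlinarith [mul_nonneg (zero_le_one.trans hX1) (zero_le_one.trans hX1)]
    have hX31 : 1 ≤ X ^ 3 := one_le_pow₀ hX1
    have hX4 : X ^ 3 ≤ X ^ 4 := pow_le_pow_right₀ hX1 (by norm_num)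
    have hX21 : 1 ≤ X ^ 2 := one_le_pow₀ hX1
    have hx : w x ≤ c * X ^ 2 := by nlinarith
    have h1 : w 1 ≤ c * X ^ 2 := by rw [w.map_one]; nlinarith
    have hy : w y ≤ c * X ^ 2 := by
      refine (sq_le_sq₀ (w.nonneg _) (by positivity)).1 ?_
      rw [← map_pow, eqn h]
      calc w (x ^ 3 + V.a₄ * x + V.a₆) ≤ w (x ^ 3) + w (V.a₄ * x) + w V.a₆ :=
            (w.add_le _ _).trans (by gcongr; exact w.add_le _ _)
        _ = w x ^ 3 + w V.a₄ * w x + w V.a₆ := by rw [map_pow, map_mul]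
        _ ≤ X ^ 3 + w V.a₄ * X + w V.a₆ := by
            have := w.nonneg x
            gcongr
        _ ≤ X ^ 3 + w V.a₄ * X ^ 3 + w V.a₆ * X ^ 3 := by nlinarith
        _ = c * X ^ 3 := by rw [hc]; ring
        _ ≤ c * X ^ 4 := by gcongr
        _ ≤ c ^ 2 * X ^ 4 := by
            apply mul_le_mul_of_nonneg_right _ (by positivity)
            nlinarith
        _ = (c * X ^ 2) ^ 2 := by ring
    exact max_le (max_le hx hy) h1

theorem sz_le' {w : AbsoluteValue F ℝ} (hw : IsNonarchimedean w) (hA : w V.a₄ ≤ 1)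
    (hB : w V.a₆ ≤ 1) (Q : V.Point) : sz w Q ≤ mx w Q ^ 2 := by
  rcases Q with _ | ⟨x, y, h⟩
  · rw [← Point.zero_def, mx_zero, sz, crd_zero]
    simp
  · rw [mx_some]
    set X := max 1 (w x) with hX
    have hX1 : 1 ≤ X := le_max_left _ _
    have hxX : w x ≤ X := le_max_right _ _
    have hX4 : X ^ 3 ≤ X ^ 4 := pow_le_pow_right₀ hX1 (by norm_num)
    have hX21 : 1 ≤ X ^ 2 := one_le_pow₀ hX1
    have hx : w x ≤ X ^ 2 := by nlinarith
    have h1 : w 1 ≤ X ^ 2 := by rw [w.map_one]; exact hX21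
    have hy : w y ≤ X ^ 2 := by
      refine (sq_le_sq₀ (w.nonneg _) (by positivity)).1 ?_
      refine (vy_le hw hA hB h hX1 hxX).trans ?_
      rw [← pow_mul]; exact hX4
    exact max_le (max_le hx hy) h1

end size

variable {k : Type*} [Field k] [NumberField k] [DecidableEq k] {W : Affine k} [W.IsShortNF]
  {I : Type*} [Fintype I]

section base

variable (v : HeightOneSpectrum (𝓞 k)) [DecidableEq (v.adicCompletion k)]

theorem crd_base (Q : (W⁄k).Point) (j : Fin 3) :
    crd (Point.baseChange (W' := W) k (v.adicCompletion k) Q) j =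
      algebraMap k (v.adicCompletion k) (crd Q j) := by
  rcases Q with _ | ⟨x, y, h⟩
  · have : Point.baseChange (W' := W) k (v.adicCompletion k) (Point.zero) = 0 := rfl
    rw [this, ← Point.zero_def, crd_zero, crd_zero]
    fin_cases j <;> simp
  · rw [Point.baseChange, Point.map_some, crd_some, crd_some]
    fin_cases j <;> simp [Algebra.ofId_apply]

theorem crds_base (Q : I → (W⁄k).Point) :
    crds (fun i => Point.baseChange (W' := W) k (v.adicCompletion k) (Q i)) =
      algebraMap k (v.adicCompletion k) ∘ crds Q := by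
  funext p
  exact crd_base v (Q p.1) p.2

theorem sz_base (Q : (W⁄k).Point) :
    sz (nv v) (Point.baseChange (W' := W) k (v.adicCompletion k) Q) = sz (fv v) Q := by
  rw [sz, sz, crd_base, crd_base, crd_base, nv_algebraMap, nv_algebraMap, nv_algebraMap]

end base

/-- Logarithmic bound of a form at an arbitrary absolute value. -/
theorem log_form_le {G : MvPolynomial (I × Fin 3) k} {d : I → ℕ} (hG : MultiHom G d)
    (w : AbsoluteValue k ℝ) (Q : I → (W⁄k).Point) (h0 : aeval (crds Q) G ≠ 0) :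
    Real.log (w (aeval (crds Q) G)) ≤
      (Real.log (max 1 (∑ m ∈ G.support, w (coeff m G))) +
        ∑ i, (d i : ℝ) * Real.log (1 + w (W⁄k).a₄ + w (W⁄k).a₆)) +
      2 * ∑ i, (d i : ℝ) * Real.log (mx w (Q i)) := by
  have h4 := w.nonneg (W⁄k).a₄
  have h6 := w.nonneg (W⁄k).a₆
  set c := 1 + w (W⁄k).a₄ + w (W⁄k).a₆ with hc
  have hc1 : 1 ≤ c := by rw [hc]; linarith
  have hβ : ∀ m ∈ G.support, ∏ p : I × Fin 3, (c * mx w (Q p.1) ^ 2) ^ m p ≤
      ∏ i, (c * mx w (Q i) ^ 2) ^ d i := fun m hm =>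
    (prod_pow_of_multi (hG m hm) fun i => c * mx w (Q i) ^ 2).le
  have h1 := abs_aeval_le w G (crds Q) (fun p => c * mx w (Q p.1) ^ 2)
    (fun p => (le_sz w (Q p.1) p.2).trans (sz_le w (Q p.1))) hβ
  have hP : 0 < ∏ i, (c * mx w (Q i) ^ 2) ^ d i :=
    Finset.prod_pos fun i _ => pow_pos (mul_pos (by linarith) (pow_pos (mx_pos w _) 2)) _
  have h2 : w (aeval (crds Q) G) ≤ max 1 (∑ m ∈ G.support, w (coeff m G)) *
      ∏ i, (c * mx w (Q i) ^ 2) ^ d i := by
    refine h1.trans ?_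
    apply mul_le_mul_of_nonneg_right _ hP.le
    exact le_max_right _ _
  have h3 := Real.log_le_log (w.pos h0) h2
  have hmax : 0 < max 1 (∑ m ∈ G.support, w (coeff m G)) := lt_max_of_lt_left one_pos
  rw [Real.log_mul hmax.ne' hP.ne', Real.log_prod] at h3
  · refine h3.trans (le_of_eq ?_)
    rw [add_assoc]
    congr 1
    rw [Finset.mul_sum, ← Finset.sum_add_distrib]
    refine Finset.sum_congr rfl fun i _ => ?_
    rw [Real.log_pow, Real.log_mul (by linarith) (pow_pos (mx_pos w _) 2).ne', Real.log_pow]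
    push_cast
    ring
  · intro i _
    exact (pow_pos (mul_pos (by linarith) (pow_pos (mx_pos w _) 2)) _).ne'

theorem coeff_le_prod (w : AbsoluteValue k ℝ) (G : MvPolynomial (I × Fin 3) k) :
    ∀ m ∈ G.support, w (coeff m G) ≤ ∏ m ∈ G.support, max 1 (w (coeff m G)) := by
  classical
  intro m hm
  rw [← Finset.mul_prod_erase _ _ hm]
  calc w (coeff m G) ≤ max 1 (w (coeff m G)) * 1 := by rw [mul_one]; exact le_max_right _ _
    _ ≤ _ := by
        apply mul_le_mul_of_nonneg_left _ (zero_le_one.trans (le_max_left _ _))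
        calc (1 : ℝ) = ∏ m ∈ G.support.erase m, 1 := by rw [Finset.prod_const_one]
          _ ≤ _ := Finset.prod_le_prod (fun _ _ => zero_le_one) fun _ _ => le_max_left _ _

/-- Logarithmic bound at a good finite place, with a gain from nearby zeros. -/
theorem log_form_le' {G : MvPolynomial (I × Fin 3) k} {d : I → ℕ} (hG : MultiHom G d)
    (v : HeightOneSpectrum (𝓞 k)) [DecidableEq (v.adicCompletion k)]
    (hA : fv v W.a₄ ≤ 1) (hB : fv v W.a₆ ≤ 1) (Q : I → (W⁄k).Point)
    (h0 : aeval (crds Q) G ≠ 0) (R₀ : (W⁄k).Point)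
    (hnear : 1 < mx (fv v) R₀ → ∃ R : I → (W⁄(v.adicCompletion k)).Point,
      (∀ i, Near (nv v) (mx (fv v) R₀) (R i)) ∧
      aeval (crds fun i => Point.baseChange (W' := W) k (v.adicCompletion k) (Q i) + R i) G = 0) :
    Real.log (fv v (aeval (crds Q) G)) ≤
      ∑ m ∈ G.support, Real.log (max 1 (fv v (coeff m G))) +
      2 * ∑ i, (d i : ℝ) * Real.log (mx (fv v) (Q i)) - 1 / 2 * Real.log (mx (fv v) R₀) := by
  have hvn : IsNonarchimedean (fv v) := HeightOneSpectrum.isNonarchimedean_adicAbv k v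
  set r := mx (fv v) R₀ with hr
  have hr1 : 1 ≤ r := one_le_mx _ _
  have hr0 : 0 < r := by linarith
  set ε := (Real.sqrt r)⁻¹ with hε
  have hsq : 0 < Real.sqrt r := Real.sqrt_pos.2 hr0
  have hε0 : 0 < ε := inv_pos.2 hsq
  have hεr : ε ^ 2 * r = 1 := by
    rw [hε, inv_pow, Real.sq_sqrt hr0.le, inv_mul_cancel₀ hr0.ne']
  set C := ∏ m ∈ G.support, max 1 (fv v (coeff m G)) with hC
  have hC0 : 0 < C := Finset.prod_pos fun m _ => lt_max_of_lt_left one_pos
  set β := ∏ i, (mx (fv v) (Q i) ^ 2) ^ d i with hβ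
  have hβ0 : 0 < β := Finset.prod_pos fun i _ => pow_pos (pow_pos (mx_pos _ _) 2) _
  have hA' : fv v (W⁄k).a₄ ≤ 1 := hA
  have hB' : fv v (W⁄k).a₆ ≤ 1 := hB
  have hszm : ∀ i, sz (fv v) (Q i) ≤ mx (fv v) (Q i) ^ 2 := fun i => sz_le' hvn hA' hB' (Q i)
  have main : fv v (aeval (crds Q) G) ≤ C * (ε * β) := by
    rcases hr1.eq_or_lt with h1 | h1
    · have hε1 : ε = 1 := by rw [hε, ← h1, Real.sqrt_one, inv_one]
      rw [hε1, one_mul]
      refine abs_aeval_le' hvn G (crds Q) (fun p => mx (fv v) (Q p.1) ^ 2)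
        (fun p => (le_sz _ (Q p.1) p.2).trans (hszm p.1)) hβ0.le hC0.le (coeff_le_prod (fv v) G) ?_
      exact fun m hm => (prod_pow_of_multi (hG m hm) fun i => mx (fv v) (Q i) ^ 2).le
    · obtain ⟨R, hR, hz⟩ := hnear h1
      have e4 : nv v (W⁄(v.adicCompletion k)).a₄ ≤ 1 := by
        have : (W⁄(v.adicCompletion k)).a₄ = algebraMap k (v.adicCompletion k) W.a₄ := rfl
        rw [this, nv_algebraMap]; exact hA
      have e6 : nv v (W⁄(v.adicCompletion k)).a₆ ≤ 1 := by
        have : (W⁄(v.adicCompletion k)).a₆ = algebraMap k (v.adicCompletion k) W.a₆ := rfl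
        rw [this, nv_algebraMap]; exact hB
      have h2 := small_of_near (nv_nonarch v) e4 e6 h1 hε0.le hεr hG (C := C) hC0.le
        (by
          intro m hm
          rw [nv_algebraMap]
          exact coeff_le_prod (fv v) G m hm)
        (fun i => Point.baseChange (W' := W) k (v.adicCompletion k) (Q i)) R hR hz
      rw [crds_base, aeval_algebraMap_apply, nv_algebraMap] at h2
      refine h2.trans ?_
      apply mul_le_mul_of_nonneg_left _ hC0.le
      apply mul_le_mul_of_nonneg_left _ hε0.le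
      refine Finset.prod_le_prod (fun i _ => ?_) fun i _ => ?_
      · exact pow_nonneg (zero_le_one.trans (one_le_sz _ _)) _
      · rw [sz_base]
        exact pow_le_pow_left₀ (zero_le_one.trans (one_le_sz _ _)) (hszm i) _
  have h3 := Real.log_le_log ((fv v).pos h0) main
  rw [Real.log_mul hC0.ne' (mul_pos hε0 hβ0).ne', Real.log_mul hε0.ne' hβ0.ne', hC, hβ,
    Real.log_prod, Real.log_prod] at h3
  · refine h3.trans (le_of_eq ?_)
    have e1 : Real.log ε = - (1 / 2 * Real.log r) := by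
      rw [hε, Real.log_inv, Real.log_sqrt hr0.le]; ring
    have e2 : ∑ i, Real.log ((mx (fv v) (Q i) ^ 2) ^ d i) =
        2 * ∑ i, (d i : ℝ) * Real.log (mx (fv v) (Q i)) := by
      rw [Finset.mul_sum]
      refine Finset.sum_congr rfl fun i _ => ?_
      rw [Real.log_pow, Real.log_pow]
      push_cast
      ring
    rw [e1, e2]
    ring
  · intro i _
    exact (pow_pos (pow_pos (mx_pos _ _) 2) _).ne'
  · intro m _
    exact (lt_max_of_lt_left one_pos).ne'

/-- The contribution of the exceptional places to the height. -/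
noncomputable def excSum (S' : Finset (HeightOneSpectrum (𝓞 k))) (R : (W⁄k).Point) : ℝ :=
  ∑ w : InfinitePlace k, (w.mult : ℝ) * Real.log (mx w.val R) + ∑ v ∈ S', Real.log (mx (fv v) R)

/-- **The global inequality.** -/
theorem core_ineq [∀ v : HeightOneSpectrum (𝓞 k), DecidableEq (v.adicCompletion k)]
    {G : MvPolynomial (I × Fin 3) k} {d : I → ℕ} (hG : MultiHom G d)
    (S' : Finset (HeightOneSpectrum (𝓞 k)))
    (hS' : ∀ v ∉ S', fv v W.a₄ ≤ 1 ∧ fv v W.a₆ ≤ 1) :
    ∃ C : ℝ, ∀ (Q : I → (W⁄k).Point) (R₀ : (W⁄k).Point), aeval (crds Q) G ≠ 0 →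
      (∀ v ∉ S', 1 < mx (fv v) R₀ → ∃ R : I → (W⁄(v.adicCompletion k)).Point,
        (∀ i, Near (nv v) (mx (fv v) R₀) (R i)) ∧
        aeval (crds fun i => Point.baseChange (W' := W) k (v.adicCompletion k) (Q i) + R i) G = 0) →
      1 / 2 * (ht R₀ - excSum S' R₀) ≤ C + 2 * ∑ i, (d i : ℝ) * ht (Q i) := by
  classical
  -- constants
  let A : AbsoluteValue k ℝ → ℝ := fun w =>
    Real.log (max 1 (∑ m ∈ G.support, w (coeff m G))) +
        ∑ i, (d i : ℝ) * Real.log (1 + w (W⁄k).a₄ + w (W⁄k).a₆)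
  let B : ℝ := ∑ m ∈ G.support, logHeight₁ (coeff m G)
  refine ⟨∑ w : InfinitePlace k, (w.mult : ℝ) * A w.val + ∑ v ∈ S', A (fv v) + B, ?_⟩
  intro Q R₀ h0 hnear
  obtain ⟨T₁, hT₁⟩ := prod_formula h0
  obtain ⟨T₂, hT₂⟩ := ht_formula R₀
  set T := T₁ ∪ T₂ ∪ S' with hT
  have hST : S' ⊆ T := Finset.subset_union_right
  have e1 := hT₁ T (Finset.subset_union_left.trans Finset.subset_union_left)
  have e2 := hT₂ T (Finset.subset_union_right.trans Finset.subset_union_left)
  rw [← Finset.sum_sdiff hST] at e1 e2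
  -- infinite places
  have b1 : ∑ w : InfinitePlace k, (w.mult : ℝ) * Real.log (w (aeval (crds Q) G)) ≤
      ∑ w : InfinitePlace k, (w.mult : ℝ) * A w.val +
      2 * ∑ i, (d i : ℝ) * ∑ w : InfinitePlace k, (w.mult : ℝ) * Real.log (mx w.val (Q i)) := by
    have : 2 * ∑ i, (d i : ℝ) * ∑ w : InfinitePlace k, (w.mult : ℝ) * Real.log (mx w.val (Q i)) =
        ∑ w : InfinitePlace k, (w.mult : ℝ) *
          (2 * ∑ i, (d i : ℝ) * Real.log (mx w.val (Q i))) := by
      simp only [Finset.mul_sum]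
      rw [Finset.sum_comm]
      refine Finset.sum_congr rfl fun w _ => Finset.sum_congr rfl fun i _ => by ring
    rw [this, ← Finset.sum_add_distrib]
    refine Finset.sum_le_sum fun w _ => ?_
    rw [← mul_add]
    apply mul_le_mul_of_nonneg_left _ (by positivity)
    exact log_form_le hG w.val Q h0
  -- exceptional finite places
  have b2 : ∑ v ∈ S', Real.log (fv v (aeval (crds Q) G)) ≤
      ∑ v ∈ S', A (fv v) + 2 * ∑ i, (d i : ℝ) * ∑ v ∈ S', Real.log (mx (fv v) (Q i)) := by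
    have : 2 * ∑ i, (d i : ℝ) * ∑ v ∈ S', Real.log (mx (fv v) (Q i)) =
        ∑ v ∈ S', (2 * ∑ i, (d i : ℝ) * Real.log (mx (fv v) (Q i))) := by
      simp only [Finset.mul_sum]
      rw [Finset.sum_comm]
    rw [this, ← Finset.sum_add_distrib]
    exact Finset.sum_le_sum fun v _ => log_form_le hG (fv v) Q h0
  -- good places
  have b3 : ∑ v ∈ T \ S', Real.log (fv v (aeval (crds Q) G)) ≤
      B + 2 * ∑ i, (d i : ℝ) * ∑ v ∈ T \ S', Real.log (mx (fv v) (Q i)) -
        1 / 2 * ∑ v ∈ T \ S', Real.log (mx (fv v) R₀) := by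
    have h1 : ∑ v ∈ T \ S', Real.log (fv v (aeval (crds Q) G)) ≤ ∑ v ∈ T \ S',
        (∑ m ∈ G.support, Real.log (max 1 (fv v (coeff m G))) +
        2 * ∑ i, (d i : ℝ) * Real.log (mx (fv v) (Q i)) - 1 / 2 * Real.log (mx (fv v) R₀)) := by
      refine Finset.sum_le_sum fun v hv => ?_
      have hv' : v ∉ S' := (Finset.mem_sdiff.1 hv).2
      exact log_form_le' hG v (hS' v hv').1 (hS' v hv').2 Q h0 R₀ (hnear v hv')
    refine h1.trans ?_
    rw [Finset.sum_sub_distrib, Finset.sum_add_distrib]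
    have h2 : ∑ v ∈ T \ S', ∑ m ∈ G.support, Real.log (max 1 (fv v (coeff m G))) ≤ B := by
      rw [Finset.sum_comm]
      refine Finset.sum_le_sum fun m _ => ?_
      have h3 := partial_le_height (coeff m G) (T \ S')
      have h4 : 0 ≤ ∑ w : InfinitePlace k, (w.mult : ℝ) * Real.log (max 1 (w (coeff m G))) :=
        Finset.sum_nonneg fun w _ => mul_nonneg (by positivity) (Real.log_nonneg (le_max_left _ _))
      linarith
    have h5 : ∑ v ∈ T \ S', 2 * ∑ i, (d i : ℝ) * Real.log (mx (fv v) (Q i)) =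
        2 * ∑ i, (d i : ℝ) * ∑ v ∈ T \ S', Real.log (mx (fv v) (Q i)) := by
      simp only [Finset.mul_sum]
      rw [Finset.sum_comm]
    have h6 : ∑ v ∈ T \ S', 1 / 2 * Real.log (mx (fv v) R₀) =
        1 / 2 * ∑ v ∈ T \ S', Real.log (mx (fv v) R₀) := by
      rw [Finset.mul_sum]
    rw [h5, h6]
    linarith
  -- heights of `Q i`
  have b4 : ∑ i, (d i : ℝ) * (∑ w : InfinitePlace k, (w.mult : ℝ) * Real.log (mx w.val (Q i)) +
      (∑ v ∈ T \ S', Real.log (mx (fv v) (Q i)) + ∑ v ∈ S', Real.log (mx (fv v) (Q i)))) ≤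
      ∑ i, (d i : ℝ) * ht (Q i) := by
    refine Finset.sum_le_sum fun i _ => ?_
    apply mul_le_mul_of_nonneg_left _ (by positivity)
    have := partial_le_ht (Q i) T
    rw [← Finset.sum_sdiff hST] at this
    exact this
  have b5 : ∑ i, (d i : ℝ) * (∑ w : InfinitePlace k, (w.mult : ℝ) * Real.log (mx w.val (Q i)) +
      (∑ v ∈ T \ S', Real.log (mx (fv v) (Q i)) + ∑ v ∈ S', Real.log (mx (fv v) (Q i)))) =
      ∑ i, (d i : ℝ) * ∑ w : InfinitePlace k, (w.mult : ℝ) * Real.log (mx w.val (Q i)) +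
      ∑ i, (d i : ℝ) * ∑ v ∈ T \ S', Real.log (mx (fv v) (Q i)) +
      ∑ i, (d i : ℝ) * ∑ v ∈ S', Real.log (mx (fv v) (Q i)) := by
    rw [← Finset.sum_add_distrib, ← Finset.sum_add_distrib]
    refine Finset.sum_congr rfl fun i _ => by ring
  have e3 : ht R₀ - excSum S' R₀ = ∑ v ∈ T \ S', Real.log (mx (fv v) R₀) := by
    rw [e2, excSum]; ring
  rw [e3]
  linarith

end Pool.Agent.Lib.MP_2f3286_ag.E
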