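import Mathlib
import Pool.Agent.Lib.MP_2f3286_ag.E.Net

/-!
# Rescaling a short Weierstrass equation
-/

set_option autoImplicit false
set_option linter.all false

open WeierstrassCurve WeierstrassCurve.Affine
open IsDedekindDomain NumberField WithZero WithZeroMulInt

namespace Pool.Agent.Lib.MP_2f3286_ag.E

section

variable {F : Type*} [Field F]

/-- the rescaled equation -/
def scaleW (W : Affine F) (u : F) : Affine F := ⟨0, 0, 0, u ^ 4 * W.a₄, u ^ 6 * W.a₆⟩

instance (W : Affine F) (u : F) : WeierstrassCurve.IsShortNF (scaleW W u) := ⟨rfl, rfl, rfl⟩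

theorem scaleW_Δ (W : Affine F) [W.IsShortNF] (u : F) : (scaleW W u).Δ = u ^ 12 * W.Δ := by
  classical
  rw [WeierstrassCurve.Δ, WeierstrassCurve.Δ, b₂_eq, b₄_eq, b₆_eq, b₈_eq, b₂_eq, b₄_eq, b₆_eq, b₈_eq]
  simp only [scaleW]
  ring

theorem scale_nonsingular {W : Affine F} [W.IsShortNF] (hW : W.Δ ≠ 0) {u : F} (hu : u ≠ 0)
    {x y : F} (h : W.Nonsingular x y) : (scaleW W u).Nonsingular (u ^ 2 * x) (u ^ 3 * y) := by
  classical
  rw [← equation_iff_nonsingular_of_Δ_ne_zero (W := scaleW W u)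
    (by rw [scaleW_Δ]; exact mul_ne_zero (pow_ne_zero _ hu) hW)]
  rw [WeierstrassCurve.Affine.equation_iff]
  have e := eqn h
  simp only [scaleW]
  linear_combination u ^ 6 * e

variable [DecidableEq F]

/-- the rescaled point -/
def scalePt {W : Affine F} [W.IsShortNF] (hW : W.Δ ≠ 0) {u : F} (hu : u ≠ 0) :
    W.Point → (scaleW W u).Point
  | .zero => 0
  | .some _ _ h => .some _ _ (scale_nonsingular hW hu h)

theorem scalePt_add {W : Affine F} [W.IsShortNF] (hW : W.Δ ≠ 0) {u : F} (hu : u ≠ 0)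
    (P Q : W.Point) : scalePt hW hu (P + Q) = scalePt hW hu P + scalePt hW hu Q := by
  rcases P with _ | ⟨x₁, y₁, h₁⟩
  · rw [← Point.zero_def, zero_add]
    show _ = 0 + _
    rw [zero_add]
  rcases Q with _ | ⟨x₂, y₂, h₂⟩
  · rw [← Point.zero_def, add_zero]
    show _ = _ + 0
    rw [add_zero]
  have hu2 : u ^ 2 ≠ 0 := pow_ne_zero _ hu
  have hu3 : u ^ 3 ≠ 0 := pow_ne_zero _ hu
  have e₁ := eqn h₁
  have e₂ := eqn h₂
  by_cases hx : x₁ = x₂
  · subst hx
    have h3 : (y₁ - y₂) * (y₁ + y₂) = 0 := by linear_combination e₁ - e₂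
    by_cases hneg : y₁ + y₂ = 0
    · have h4 : y₂ = -y₁ := by linear_combination hneg
      subst h4
      obtain ⟨h', e'⟩ := neg_some' h₁
      have h5 : (Point.some _ _ h₁ : W.Point) + Point.some _ _ h₂ = 0 := by
        rw [← e', add_neg_cancel]
      rw [h5]
      obtain ⟨h'', e''⟩ := neg_some' (scale_nonsingular hW hu h₁)
      show (0 : (scaleW W u).Point) = Point.some _ _ (scale_nonsingular hW hu h₁) +
        Point.some _ _ (scale_nonsingular hW hu h₂)
      have h6 : (Point.some _ _ (scale_nonsingular hW hu h₂) : (scaleW W u).Point) =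
          Point.some _ _ h'' := by
        simp only [Point.some.injEq]
        exact ⟨trivial, by ring⟩
      rw [h6, ← e'', add_neg_cancel]
    · have h4 : y₁ = y₂ := by
        rcases mul_eq_zero.1 h3 with h | h
        · exact sub_eq_zero.1 h
        · exact absurd h hneg
      subst h4
      have h2y : 2 * y₁ ≠ 0 := by rwa [two_mul]
      obtain ⟨h₃, e₃⟩ := exists_double h₁ h2y
      rw [e₃]
      have h2y' : 2 * (u ^ 3 * y₁) ≠ 0 := by
        rw [mul_left_comm]; exact mul_ne_zero hu3 h2y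
      obtain ⟨h₃', e₃'⟩ := exists_double (scale_nonsingular hW hu h₁) h2y'
      show Point.some _ _ (scale_nonsingular hW hu h₃) =
        Point.some _ _ (scale_nonsingular hW hu h₁) + Point.some _ _ (scale_nonsingular hW hu h₁)
      rw [e₃']
      have h2 : (2 : F) ≠ 0 := left_ne_zero_of_mul h2y
      have hy : y₁ ≠ 0 := right_ne_zero_of_mul h2y
      simp only [Point.some.injEq]
      have hs : (3 * (u ^ 2 * x₁) ^ 2 + (scaleW W u).a₄) / (2 * (u ^ 3 * y₁)) =
          u * ((3 * x₁ ^ 2 + W.a₄) / (2 * y₁)) := by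
        simp only [scaleW]
        field_simp
      rw [hs]
      constructor
      · ring
      · ring
  · obtain ⟨h₃, e₃⟩ := exists_add h₁ h₂ hx
    rw [e₃]
    have hx' : u ^ 2 * x₁ ≠ u ^ 2 * x₂ := fun h => hx (mul_left_cancel₀ hu2 h)
    obtain ⟨h₃', e₃'⟩ := exists_add (scale_nonsingular hW hu h₁) (scale_nonsingular hW hu h₂) hx'
    show Point.some _ _ (scale_nonsingular hW hu h₃) =
      Point.some _ _ (scale_nonsingular hW hu h₁) + Point.some _ _ (scale_nonsingular hW hu h₂)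
    rw [e₃']
    simp only [Point.some.injEq]
    have hd : x₁ - x₂ ≠ 0 := sub_ne_zero.2 hx
    have hs : (u ^ 3 * y₁ - u ^ 3 * y₂) / (u ^ 2 * x₁ - u ^ 2 * x₂) =
        u * ((y₁ - y₂) / (x₁ - x₂)) := by
      rw [← mul_sub, ← mul_sub]
      field_simp
    rw [hs]
    constructor
    · ring
    · ring

/-- rescaling as a homomorphism -/
def scaleHom {W : Affine F} [W.IsShortNF] (hW : W.Δ ≠ 0) {u : F} (hu : u ≠ 0) :
    W.Point →+ (scaleW W u).Point where
  toFun := scalePt hW hu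
  map_zero' := rfl
  map_add' := scalePt_add hW hu

theorem scaleHom_eq_zero {W : Affine F} [W.IsShortNF] (hW : W.Δ ≠ 0) {u : F} (hu : u ≠ 0)
    {P : W.Point} (h : scaleHom hW hu P = 0) : P = 0 := by
  rcases P with _ | ⟨x, y, hxy⟩
  · rfl
  · have h1 : (Point.some _ _ (scale_nonsingular hW hu hxy) : (scaleW W u).Point) = 0 := h
    exact absurd h1 (Point.some_ne_zero _)

end

variable {k : Type*} [Field k] [NumberField k]

/-- A point divisible by all integers is zero (no integrality assumption). -/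
theorem eq_zero_of_divisible' (v : HeightOneSpectrum (𝓞 k)) [DecidableEq (v.adicCompletion k)]
    {W : Affine (v.adicCompletion k)} [W.IsShortNF]
    (hW : W.Δ ≠ 0) {Q : W.Point} (h : ∀ n : ℕ, 1 ≤ n → ∃ R : W.Point, n • R = Q) : Q = 0 := by
  obtain ⟨π, hπ0, hπ1⟩ := exists_lt_one v
  have hπne : π ≠ 0 := norm_pos_iff.1 hπ0
  obtain ⟨j, hj⟩ : ∃ j : ℕ, ‖π‖ ^ j < 1 / (‖W.a₄‖ + ‖W.a₆‖ + 1) :=
    exists_pow_lt_of_lt_one (by positivity) hπ1
  have hu : π ^ j ≠ 0 := pow_ne_zero _ hπne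
  have hn4 := norm_nonneg W.a₄
  have hn6 := norm_nonneg W.a₆
  have huj : ‖π ^ j‖ * (‖W.a₄‖ + ‖W.a₆‖ + 1) ≤ 1 := by
    rw [norm_pow]
    rw [lt_div_iff₀ (by positivity)] at hj
    exact hj.le
  have hu1 : ‖π ^ j‖ ≤ 1 := by
    rw [norm_pow]; exact pow_le_one₀ hπ0.le hπ1.le
  have hu0 := norm_nonneg (π ^ j)
  have hA : nv v (scaleW W (π ^ j)).a₄ ≤ 1 := by
    show ‖(π ^ j) ^ 4 * W.a₄‖ ≤ 1
    rw [norm_mul, norm_pow]
    calc ‖π ^ j‖ ^ 4 * ‖W.a₄‖ ≤ ‖π ^ j‖ * ‖W.a₄‖ := by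
          apply mul_le_mul_of_nonneg_right _ hn4
          exact pow_le_of_le_one hu0 hu1 (by norm_num)
      _ ≤ ‖π ^ j‖ * (‖W.a₄‖ + ‖W.a₆‖ + 1) := by
          apply mul_le_mul_of_nonneg_left _ hu0
          linarith
      _ ≤ 1 := huj
  have hB : nv v (scaleW W (π ^ j)).a₆ ≤ 1 := by
    show ‖(π ^ j) ^ 6 * W.a₆‖ ≤ 1
    rw [norm_mul, norm_pow]
    calc ‖π ^ j‖ ^ 6 * ‖W.a₆‖ ≤ ‖π ^ j‖ * ‖W.a₆‖ := by
          apply mul_le_mul_of_nonneg_right _ hn6
          exact pow_le_of_le_one hu0 hu1 (by norm_num)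
      _ ≤ ‖π ^ j‖ * (‖W.a₄‖ + ‖W.a₆‖ + 1) := by
          apply mul_le_mul_of_nonneg_left _ hu0
          linarith
      _ ≤ 1 := huj
  apply scaleHom_eq_zero hW hu
  apply eq_zero_of_divisible v hA hB (by rw [scaleW_Δ]; exact mul_ne_zero (pow_ne_zero _ hu) hW)
  intro n hn
  obtain ⟨R, hR⟩ := h n hn
  exact ⟨scaleHom hW hu R, by rw [← map_nsmul, hR]⟩

end Pool.Agent.Lib.MP_2f3286_ag.E
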