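import Mathlib
import Pool.Agent.Lib.MP_2f3286_ag.E.Doubling

/-!
# Multiples of a point avoiding finitely many places, and Dirichlet's theorem
-/

set_option autoImplicit false
set_option linter.all false

open WeierstrassCurve WeierstrassCurve.Affine

namespace Pool.Agent.Lib.MP_2f3286_ag.E

variable {F : Type*} [Field F] [DecidableEq F] {W : Affine F} [W.IsShortNF]

/-- There are arbitrarily large, highly divisible `M` such that no point `(M/k) P`, `k ≤ K`, is
very close to the origin at one of finitely many places. -/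
theorem exists_window (hW : W.Δ ≠ 0) {T : Type*} [Fintype T] (aw : T → AbsoluteValue F ℝ)
    (mu : T → ℝ) (hmu : ∀ t, 0 < mu t)
    (h : W.Point → ℝ) (hle : ∀ t Q, mu t * Real.log (mx (aw t) Q) ≤ h Q) {P : W.Point} {a C₀ : ℝ}
    (ha : 0 < a) (hP : ∀ m : ℕ, h (m • P) ≤ a * (m : ℝ) ^ 2 + C₀) {η : ℝ} (hη : 0 < η)
    (K L M₀ : ℕ) (hL : 0 < L) (hK : ∀ k, 1 ≤ k → k ≤ K → k ∣ L) :
    ∃ M : ℕ, M₀ ≤ M ∧ 0 < M ∧ L ∣ M ∧ ∀ k, 1 ≤ k → k ≤ K → ∀ t,
      mu t * Real.log (mx (aw t) ((M / k) • P)) ≤ η * ((M / k : ℕ) : ℝ) ^ 2 := by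
  classical
  choose C hC1 hC using fun t => exists_double_bound (aw t) hW
  have hlogC : ∀ t, 0 ≤ mu t * Real.log (C t) := fun t =>
    mul_nonneg (hmu t).le (Real.log_nonneg (hC1 t))
  set B := ∑ t, mu t * Real.log (C t) with hB
  have hB0 : 0 ≤ B := Finset.sum_nonneg fun t _ => hlogC t
  have hBt : ∀ t, mu t * Real.log (C t) ≤ B := fun t =>
    Finset.single_le_sum (f := fun t => mu t * Real.log (C t)) (fun t _ => hlogC t)
      (Finset.mem_univ t)
  obtain ⟨g, hg⟩ : ∃ g : ℕ, 2 * a / η < (4 : ℝ) ^ g := pow_unbounded_of_one_lt _ (by norm_num)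
  rw [div_lt_iff₀ hη] at hg
  set J := Fintype.card (Fin K × T) with hJ
  -- large N
  obtain ⟨N₀, hN₀⟩ : ∃ N₀ : ℕ, ((g * J + 1 : ℕ) * B + (C₀ + (g * J : ℕ) * B) + 1) *
      (1 / η + 1 / a) ≤ N₀ ∧ 1 ≤ N₀ := by
    obtain ⟨n, hn⟩ := exists_nat_ge (((g * J + 1 : ℕ) * B + (C₀ + (g * J : ℕ) * B) + 1) *
      (1 / η + 1 / a))
    exact ⟨n + 1, hn.trans (by push_cast; linarith), by omega⟩
  have hC₀ : 0 ≤ C₀ ∨ True := Or.inr trivial
  have hbig : ∀ N : ℕ, N₀ ≤ N → 1 ≤ N →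
      (0 ≤ C₀ → ((g * J + 1 : ℕ) : ℝ) * B ≤ η * (N : ℝ) ^ 2 ∧
        C₀ + (g * J : ℕ) * B < a * (N : ℝ) ^ 2) := by
    intro N hN hN1 hC0
    have h1 : (N₀ : ℝ) ≤ N := by exact_mod_cast hN
    have h2 : (1 : ℝ) ≤ N := by exact_mod_cast hN1
    have h3 : (N : ℝ) ≤ (N : ℝ) ^ 2 := by nlinarith
    have h4 : ((g * J + 1 : ℕ) * B + (C₀ + (g * J : ℕ) * B) + 1) * (1 / η + 1 / a) ≤ (N : ℝ) ^ 2 :=
      hN₀.1.trans (h1.trans h3)
    have h5 : 0 ≤ ((g * J + 1 : ℕ) : ℝ) * B := by positivity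
    have h6 : 0 ≤ C₀ + ((g * J : ℕ) : ℝ) * B := by positivity
    have h7 : 0 < 1 / η := by positivity
    have h8 : 0 < 1 / a := by positivity
    set X := ((g * J + 1 : ℕ) : ℝ) * B with hX
    set Y := C₀ + ((g * J : ℕ) : ℝ) * B with hY
    constructor
    · have h9 : X * (1 / η) ≤ (N : ℝ) ^ 2 := by
        refine le_trans ?_ h4
        nlinarith [mul_nonneg h5 h8.le, mul_nonneg h6 h7.le, mul_nonneg h6 h8.le]
      calc X = η * (X * (1 / η)) := by field_simp
        _ ≤ η * (N : ℝ) ^ 2 := by gcongr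
    · have h9 : (Y + 1) * (1 / a) ≤ (N : ℝ) ^ 2 := by
        refine le_trans ?_ h4
        nlinarith [mul_nonneg h5 h8.le, mul_nonneg h6 h7.le, mul_nonneg h5 h7.le]
      calc Y < Y + 1 := by linarith
        _ = a * ((Y + 1) * (1 / a)) := by field_simp
        _ ≤ a * (N : ℝ) ^ 2 := by gcongr
  have hC₀' : 0 ≤ C₀ ∨ IsEmpty T := by
    by_cases hT : IsEmpty T
    · exact Or.inr hT
    · left
      rw [not_isEmpty_iff] at hT
      obtain ⟨t⟩ := hT
      have h1 := hP 0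
      have h2 := hle t (0 • P)
      have h3 : 0 ≤ mu t * Real.log (mx (aw t) (0 • P)) :=
        mul_nonneg (hmu t).le (log_mx_nonneg _ _)
      simp only [Nat.cast_zero] at h1
      nlinarith
  have key : ∀ N : ℕ, N₀ ≤ N → ∀ t, ∀ i, 1 ≤ i → i ≤ J →
      η * (N : ℝ) ^ 2 < mu t * Real.log (mx (aw t) (N • P)) →
      η * ((2 ^ (g * i) * N : ℕ) : ℝ) ^ 2 < mu t * Real.log (mx (aw t) ((2 ^ (g * i) * N) • P)) →
      False := by
    intro N hN t i hi hiJ hbad1 hbad2
    have hC0 : 0 ≤ C₀ := by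
      rcases hC₀' with h | h
      · exact h
      · exact (h.false t).elim
    have hN1 : 1 ≤ N := hN₀.2.trans hN
    obtain ⟨hb1, hb2⟩ := hbig N hN hN1 hC0
    have hgi : g * i ≤ g * J := Nat.mul_le_mul_left g hiJ
    have hCt : 0 < C t := by linarith [hC1 t]
    have hlogCt : 0 ≤ Real.log (C t) := Real.log_nonneg (hC1 t)
    -- `mx` is large
    have h1 : C t ^ (g * i + 1) ≤ mx (aw t) (N • P) := by
      rw [← Real.log_le_log_iff (by positivity) (mx_pos _ _), Real.log_pow]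
      have h2 : mu t * (((g * i + 1 : ℕ) : ℝ) * Real.log (C t)) ≤
          mu t * Real.log (mx (aw t) (N • P)) := by
        calc mu t * (((g * i + 1 : ℕ) : ℝ) * Real.log (C t)) =
            ((g * i + 1 : ℕ) : ℝ) * (mu t * Real.log (C t)) := by ring
          _ ≤ ((g * J + 1 : ℕ) : ℝ) * (mu t * Real.log (C t)) := by
              apply mul_le_mul_of_nonneg_right _ (hlogC t)
              exact_mod_cast Nat.succ_le_succ hgi
          _ ≤ ((g * J + 1 : ℕ) : ℝ) * B := by gcongr; exact hBt t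
          _ ≤ _ := hb1
          _ ≤ _ := hbad1.le
      exact le_of_mul_le_mul_left h2 (hmu t)
    obtain ⟨h3, -⟩ := iter_double (hC1 t) (hC t) (g * i) (N • P) h1
    rw [← mul_nsmul'] at h3
    have h4 : mu t * Real.log (mx (aw t) ((2 ^ (g * i) * N) • P)) ≤
        (g * J : ℕ) * B + (a * (N : ℝ) ^ 2 + C₀) := by
      have h5 := Real.log_le_log (mx_pos _ _) h3
      rw [Real.log_mul (pow_ne_zero _ hCt.ne') (mx_pos _ _).ne', Real.log_pow] at h5
      calc mu t * Real.log (mx (aw t) ((2 ^ (g * i) * N) • P)) ≤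
          mu t * (((g * i : ℕ) : ℝ) * Real.log (C t) + Real.log (mx (aw t) (N • P))) := by
            apply mul_le_mul_of_nonneg_left h5 (hmu t).le
        _ = ((g * i : ℕ) : ℝ) * (mu t * Real.log (C t)) +
            mu t * Real.log (mx (aw t) (N • P)) := by ring
        _ ≤ ((g * J : ℕ) : ℝ) * B + h (N • P) := by
            refine add_le_add ?_ (hle t _)
            calc ((g * i : ℕ) : ℝ) * (mu t * Real.log (C t)) ≤
                ((g * J : ℕ) : ℝ) * (mu t * Real.log (C t)) := by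
                  apply mul_le_mul_of_nonneg_right _ (hlogC t)
                  exact_mod_cast hgi
              _ ≤ ((g * J : ℕ) : ℝ) * B := by gcongr; exact hBt t
        _ ≤ _ := by linarith [hP N]
    have h6 : η * ((2 ^ (g * i) * N : ℕ) : ℝ) ^ 2 = η * (4 : ℝ) ^ (g * i) * (N : ℝ) ^ 2 := by
      push_cast
      rw [mul_pow, ← pow_mul, mul_comm (g * i) 2, pow_mul]
      norm_num
      ring
    have h7 : (4 : ℝ) ^ g ≤ (4 : ℝ) ^ (g * i) :=
      pow_le_pow_right₀ (by norm_num) (Nat.le_mul_of_pos_right g hi)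
    have hN2 : (0 : ℝ) < (N : ℝ) ^ 2 := by
      have : (1 : ℝ) ≤ N := by exact_mod_cast hN1
      positivity
    have h8 : 2 * a * (N : ℝ) ^ 2 ≤ η * (4 : ℝ) ^ (g * i) * (N : ℝ) ^ 2 := by
      apply mul_le_mul_of_nonneg_right _ hN2.le
      calc 2 * a ≤ (4 : ℝ) ^ g * η := hg.le
        _ ≤ (4 : ℝ) ^ (g * i) * η := by gcongr
        _ = _ := mul_comm _ _
    rw [h6] at hbad2
    linarith
  -- the window
  obtain ⟨s, hs⟩ : ∃ s : ℕ, N₀ + M₀ ≤ 2 ^ s := ⟨N₀ + M₀, Nat.lt_two_pow_self.le⟩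
  by_contra hcon
  push Not at hcon
  have hj : ∀ j : Fin (J + 1), ∃ kt : Fin K × T,
      η * (((L / (kt.1 + 1)) * 2 ^ s * 2 ^ (g * (j : ℕ)) : ℕ) : ℝ) ^ 2 <
        mu kt.2 * Real.log (mx (aw kt.2) (((L / (kt.1 + 1)) * 2 ^ s * 2 ^ (g * (j : ℕ))) • P)) := by
    intro j
    have hpos : 0 < L * 2 ^ s * 2 ^ (g * (j : ℕ)) := by positivity
    have hge : M₀ ≤ L * 2 ^ s * 2 ^ (g * (j : ℕ)) := by
      calc M₀ ≤ 2 ^ s := by omega
        _ = 1 * 2 ^ s * 1 := by ring
        _ ≤ L * 2 ^ s * 2 ^ (g * (j : ℕ)) := by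
            gcongr
            · exact hL
            · exact Nat.one_le_two_pow
    obtain ⟨k, hk1, hk2, t, ht⟩ := hcon _ hge hpos ⟨2 ^ s * 2 ^ (g * (j : ℕ)), by ring⟩
    refine ⟨⟨⟨k - 1, by omega⟩, t⟩, ?_⟩
    have e1 : k - 1 + 1 = k := by omega
    simp only [e1]
    obtain ⟨q, hq⟩ := hK k hk1 hk2
    have e2 : L * 2 ^ s * 2 ^ (g * (j : ℕ)) / k = L / k * 2 ^ s * 2 ^ (g * (j : ℕ)) := by
      rw [hq, Nat.mul_div_cancel_left _ (by omega), mul_assoc, mul_assoc,
        Nat.mul_div_cancel_left _ (by omega), mul_assoc]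
    rw [e2] at ht
    exact ht
  choose kt hkt using hj
  have hnot : ¬ Function.Injective kt := by
    intro hinj
    have := Fintype.card_le_of_injective _ hinj
    rw [Fintype.card_fin] at this
    omega
  have main : ∀ i j : Fin (J + 1), i < j → kt i = kt j → False := by
    intro i j hij h
    have h1 := hkt i
    have h2 := hkt j
    rw [← h] at h2
    have hlt := Fin.lt_def.1 hij
    set q := L / ((kt i).1 + 1) with hq
    have hq1 : 1 ≤ q := by
      have hd := hK ((kt i).1 + 1) (by omega) (by have := (kt i).1.2; omega)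
      rw [hq]
      exact Nat.div_pos (Nat.le_of_dvd hL hd) (by omega)
    have hN : N₀ ≤ q * 2 ^ s * 2 ^ (g * (i : ℕ)) := by
      calc N₀ ≤ 2 ^ s := by omega
        _ = 1 * 2 ^ s * 1 := by ring
        _ ≤ q * 2 ^ s * 2 ^ (g * (i : ℕ)) := by
            gcongr
            exact Nat.one_le_two_pow
    refine key _ hN (kt i).2 (j - i) (by omega) (by have := j.2; omega) h1 ?_
    have e : 2 ^ (g * (j - i)) * (q * 2 ^ s * 2 ^ (g * (i : ℕ))) = q * 2 ^ s * 2 ^ (g * (j : ℕ)) := by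
      have : g * (j : ℕ) = g * (j - i) + g * (i : ℕ) := by
        rw [← mul_add, Nat.sub_add_cancel hlt.le]
      rw [this, pow_add]; ring
    rw [e]
    exact h2
  rw [Function.Injective] at hnot
  push Not at hnot
  obtain ⟨i, j, hij, hne⟩ := hnot
  rcases lt_or_gt_of_ne hne with h | h
  · exact main i j h hij
  · exact main j i h hij.symm

/-- **Dirichlet's simultaneous approximation**, integer version. -/
theorem dirichlet {I : Type*} [Fintype I] (α : I → ℤ) (M n : ℕ) (hM : 0 < M) (hn : 0 < n) :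
    ∃ k : ℕ, 1 ≤ k ∧ k ≤ n ^ Fintype.card I ∧ ∃ c : I → ℤ, ∀ i, |k * α i - c i * M| * n ≤ M := by
  classical
  have hM' : (0 : ℤ) < M := by exact_mod_cast hM
  have hn' : (0 : ℤ) < n := by exact_mod_cast hn
  have hr0 : ∀ (j : ℕ) i, 0 ≤ ((j : ℤ) * α i) % M := fun j i => Int.emod_nonneg _ hM'.ne'
  have hr1 : ∀ (j : ℕ) i, ((j : ℤ) * α i) % M < M := fun j i => Int.emod_lt_of_pos _ hM'
  have hb : ∀ (j : ℕ) i, ((n : ℤ) * (((j : ℤ) * α i) % M) / M).toNat < n := by
    intro j i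
    have h1 : (n : ℤ) * (((j : ℤ) * α i) % M) / M < n := by
      rw [Int.ediv_lt_iff_lt_mul hM']
      exact mul_lt_mul_of_pos_left (hr1 j i) hn'
    have h2 : 0 ≤ (n : ℤ) * (((j : ℤ) * α i) % M) / M :=
      Int.ediv_nonneg (mul_nonneg hn'.le (hr0 j i)) hM'.le
    omega
  let f : Fin (n ^ Fintype.card I + 1) → (I → Fin n) := fun j i =>
    ⟨((n : ℤ) * (((j : ℤ) * α i) % M) / M).toNat, hb j i⟩
  have hnot : ¬ Function.Injective f := by
    intro hinj
    have := Fintype.card_le_of_injective _ hinj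
    rw [Fintype.card_fin, Fintype.card_fun, Fintype.card_fin] at this
    omega
  have main : ∀ i j : Fin (n ^ Fintype.card I + 1), i < j → f i = f j →
      ∃ k : ℕ, 1 ≤ k ∧ k ≤ n ^ Fintype.card I ∧ ∃ c : I → ℤ, ∀ i, |k * α i - c i * M| * n ≤ M := by
    intro u w huw h
    have hlt := Fin.lt_def.1 huw
    refine ⟨w - u, by omega, by have := w.2; omega,
      fun i => ((w : ℤ) * α i) / M - ((u : ℤ) * α i) / M, fun i => ?_⟩
    have h1 := congrFun h i
    simp only [f, Fin.mk.injEq] at h1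
    have h2 : 0 ≤ (n : ℤ) * (((u : ℤ) * α i) % M) / M :=
      Int.ediv_nonneg (mul_nonneg hn'.le (hr0 _ i)) hM'.le
    have h3 : 0 ≤ (n : ℤ) * (((w : ℤ) * α i) % M) / M :=
      Int.ediv_nonneg (mul_nonneg hn'.le (hr0 _ i)) hM'.le
    have h4 : (n : ℤ) * (((u : ℤ) * α i) % M) / M = (n : ℤ) * (((w : ℤ) * α i) % M) / M := by
      have e1 := Int.toNat_of_nonneg h2
      have e2 := Int.toNat_of_nonneg h3
      rw [← e1, ← e2, h1]
    have e3 := Int.mul_ediv_add_emod ((n : ℤ) * (((u : ℤ) * α i) % M)) M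
    have e4 := Int.mul_ediv_add_emod ((n : ℤ) * (((w : ℤ) * α i) % M)) M
    have e5 := Int.mul_ediv_add_emod ((u : ℤ) * α i) M
    have e6 := Int.mul_ediv_add_emod ((w : ℤ) * α i) M
    have b1 := Int.emod_nonneg ((n : ℤ) * (((u : ℤ) * α i) % M)) hM'.ne'
    have b2 := Int.emod_lt_of_pos ((n : ℤ) * (((u : ℤ) * α i) % M)) hM'
    have b3 := Int.emod_nonneg ((n : ℤ) * (((w : ℤ) * α i) % M)) hM'.ne'
    have b4 := Int.emod_lt_of_pos ((n : ℤ) * (((w : ℤ) * α i) % M)) hM'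
    have hcast : ((w - u : ℕ) : ℤ) = (w : ℤ) - (u : ℤ) := by push_cast [hlt.le]; ring
    have e7 : ((w - u : ℕ) : ℤ) * α i - (((w : ℤ) * α i) / M - ((u : ℤ) * α i) / M) * M =
        ((w : ℤ) * α i) % M - ((u : ℤ) * α i) % M := by
      rw [hcast]; linear_combination e5 - e6
    rw [e7]
    rw [← abs_of_pos hn', ← abs_mul]
    have e8 : (((w : ℤ) * α i) % M - ((u : ℤ) * α i) % M) * n =
        (n : ℤ) * (((w : ℤ) * α i) % M) % M - (n : ℤ) * (((u : ℤ) * α i) % M) % M := by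
      rw [h4] at e3
      linear_combination e3 - e4
    rw [e8, abs_le]
    constructor <;> linarith
  rw [Function.Injective] at hnot
  push Not at hnot
  obtain ⟨i, j, hij, hne⟩ := hnot
  rcases lt_or_gt_of_ne hne with h | h
  · exact main i j h hij
  · exact main j i h hij.symm

end Pool.Agent.Lib.MP_2f3286_ag.E
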