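import Mathlib
import Pool.Agent.Lib.MP_2f3286_ag.E.Ineq
import Pool.Agent.Lib.MP_2f3286_ag.E.Scale
import Pool.Agent.Lib.MP_2f3286_ag.E.Window

/-!
# The adelic Mordell–Lang theorem in rank one
-/

set_option autoImplicit false
set_option linter.all false

open WeierstrassCurve WeierstrassCurve.Affine
open IsDedekindDomain NumberField Height MvPolynomial

namespace Pool.Agent.Lib.MP_2f3286_ag.E

variable {k : Type*} [Field k] [NumberField k] [DecidableEq k] {W : Affine k} [W.IsShortNF]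
  {I : Type*} [Fintype I]

theorem Δ_ne_zero_of_isElliptic (W : Affine k) [W.IsElliptic] : W.Δ ≠ 0 :=
  W.coe_Δ' ▸ W.Δ'.ne_zero

theorem base_Δ {R S : Type*} [CommRing R] [CommRing S] [Algebra R S] (W : Affine R) :
    (W⁄S).Δ = algebraMap R S W.Δ := WeierstrassCurve.map_Δ W (algebraMap R S)

/-- The index type of the exceptional places. -/
abbrev Exc (k : Type*) [Field k] [NumberField k] (S' : Finset (HeightOneSpectrum (𝓞 k))) : Type _ :=
  InfinitePlace k ⊕ {v // v ∈ S'}

noncomputable def excAbs (S' : Finset (HeightOneSpectrum (𝓞 k))) :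
    Exc k S' → AbsoluteValue k ℝ
  | .inl w => w.val
  | .inr v => fv v.1

noncomputable def excMu (S' : Finset (HeightOneSpectrum (𝓞 k))) : Exc k S' → ℝ
  | .inl w => (w.mult : ℝ)
  | .inr _ => 1

theorem excMu_pos (S' : Finset (HeightOneSpectrum (𝓞 k))) (t : Exc k S') : 0 < excMu S' t := by
  rcases t with w | v
  · have := w.mult_pos
    show (0 : ℝ) < (w.mult : ℝ)
    exact_mod_cast this
  · exact one_pos

theorem excSum_eq (S' : Finset (HeightOneSpectrum (𝓞 k))) (R : (W⁄k).Point) :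
    excSum S' R = ∑ t, excMu S' t * Real.log (mx (excAbs S' t) R) := by
  rw [Fintype.sum_sum_type, excSum]
  congr 1
  have : ∀ v : {v // v ∈ S'}, excMu S' (Sum.inr v) * Real.log (mx (excAbs S' (Sum.inr v)) R) =
      Real.log (mx (fv v.1) R) := fun v => by
    show (1 : ℝ) * _ = _
    rw [one_mul]
    rfl
  simp only [this]
  exact (Finset.sum_coe_sort S' fun v => Real.log (mx (fv v) R)).symm

theorem exc_le_ht (S' : Finset (HeightOneSpectrum (𝓞 k))) (t : Exc k S') (R : (W⁄k).Point) :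
    excMu S' t * Real.log (mx (excAbs S' t) R) ≤ ht R := by
  refine le_trans ?_ (partial_le_ht R S')
  have h := excSum_eq S' R
  rw [excSum] at h
  rw [h]
  exact Finset.single_le_sum (f := fun t => excMu S' t * Real.log (mx (excAbs S' t) R))
    (fun t _ => mul_nonneg (excMu_pos S' t).le (log_mx_nonneg _ _)) (Finset.mem_univ t)

/-- Finitely many forms, places outside a finite set where the equation is integral. -/
theorem core_finite [W.IsElliptic]
    [∀ v : HeightOneSpectrum (𝓞 k), DecidableEq (v.adicCompletion k)]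
    (S' : Finset (HeightOneSpectrum (𝓞 k)))
    (hS' : ∀ v ∉ S', fv v W.a₄ ≤ 1 ∧ fv v W.a₆ ≤ 1)
    (P : (W⁄k).Point) (hP : ∀ n : ℕ, n ≠ 0 → n • P ≠ 0) (t : I → (W⁄k).Point)
    (α : I → ℕ → ℤ) (hα : ∀ (i : I) (n m : ℕ), 1 ≤ m → n ∣ m → (n : ℤ) ∣ α i m - α i n)
    (y : ∀ v : HeightOneSpectrum (𝓞 k), I → (W⁄(v.adicCompletion k)).Point)
    (hy : ∀ v ∉ S', ∀ i n, 1 ≤ n → ∃ z, y v i =
      Point.baseChange (W' := W) k (v.adicCompletion k) (α i n • P + t i) + n • z)
    (𝒢 : Finset (MvPolynomial (I × Fin 3) k)) (h𝒢 : ∀ G ∈ 𝒢, ∃ d, MultiHom G d)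
    (hrel : ∀ v ∉ S', ∀ G ∈ 𝒢, aeval (crds (y v)) G = 0) (N₀ : ℕ) (hN₀ : 1 ≤ N₀) :
    ∃ m : I → ℤ, (∀ i, (N₀ : ℤ) ∣ m i - α i N₀) ∧
      ∀ G ∈ 𝒢, aeval (crds fun i => m i • P + t i) G = 0 := by
  classical
  have hWΔ := Δ_ne_zero_of_isElliptic W
  have hkΔ : (W⁄k).Δ ≠ 0 := by rw [base_Δ]; exact hWΔ
  have : WeierstrassCurve.IsElliptic (W⁄k) := ⟨isUnit_iff_ne_zero.2 hkΔ⟩
  obtain ⟨a, ha, C₀, hC₀⟩ := ht_zsmul P hP
  obtain ⟨C₁, hC₁⟩ := parallelogram (W⁄k)
  choose! d hd using h𝒢
  have hineq : ∀ G ∈ 𝒢, ∃ C : ℝ, ∀ (Q : I → (W⁄k).Point) (R₀ : (W⁄k).Point),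
      aeval (crds Q) G ≠ 0 →
      (∀ v ∉ S', 1 < mx (fv v) R₀ → ∃ R : I → (W⁄(v.adicCompletion k)).Point,
        (∀ i, Near (nv v) (mx (fv v) R₀) (R i)) ∧
        aeval (crds fun i => Point.baseChange (W' := W) k (v.adicCompletion k) (Q i) + R i) G = 0) →
      1 / 2 * (ht R₀ - excSum S' R₀) ≤ C + 2 * ∑ i, (d G i : ℝ) * ht (Q i) :=
    fun G hG => core_ineq (hd G hG) S' hS'
  choose! C hC using hineq
  -- uniform constants
  set D : ℕ := ∑ G ∈ 𝒢, ∑ i, d G i with hD
  have hDG : ∀ G ∈ 𝒢, ∑ i, d G i ≤ D := fun G hG =>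
    Finset.single_le_sum (f := fun G => ∑ i, d G i) (fun _ _ => Nat.zero_le _) hG
  let X : MvPolynomial (I × Fin 3) k → ℝ := fun G =>
    C G + 2 * ∑ i, (d G i : ℝ) * (2 * C₀ + 2 * ht (t i) + C₁) + C₀ / 2
  obtain ⟨B, hB⟩ : ∃ B : ℝ, ∀ G ∈ 𝒢, X G ≤ B := by
    refine ⟨∑ G ∈ 𝒢, |X G|, fun G hG => ?_⟩
    exact (le_abs_self _).trans
      (Finset.single_le_sum (f := fun G => |X G|) (fun _ _ => abs_nonneg _) hG)
  set e : ℝ := (Fintype.card (Exc k S') : ℝ) with he
  have he0 : 0 ≤ e := Nat.cast_nonneg _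
  set η := a / (4 * (e + 1)) with hη
  have hη0 : 0 < η := by positivity
  set n : ℕ := 6 * (D + 1) with hn
  set K : ℕ := n ^ Fintype.card I with hK
  set L : ℕ := K.factorial * N₀ with hL
  have hL0 : 0 < L := Nat.mul_pos (Nat.factorial_pos _) hN₀
  obtain ⟨X₀, hX₀⟩ : ∃ X₀ : ℕ, 4 * B / a < (X₀ : ℝ) := exists_nat_gt _
  obtain ⟨M, hM₀, hM, hLM, hwin⟩ := exists_window hkΔ (excAbs (k := k) S') (excMu S')
    (excMu_pos S') ht (exc_le_ht S') (P := P) (a := a) (C₀ := C₀) ha
    (fun m => by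
      have := (abs_le.1 (hC₀ m)).2
      rw [natCast_zsmul] at this
      push_cast at this
      linarith) hη0 K L (K * (X₀ + 1)) hL0
    (fun k h1 h2 => (Nat.dvd_factorial h1 h2).mul_right _)
  obtain ⟨k', hk1, hk2, c, hc⟩ := dirichlet (fun i => α i M) M n hM (by omega)
  obtain ⟨N, hN⟩ : k' ∣ M := ((Nat.dvd_factorial hk1 hk2).mul_right _).trans hLM
  have hNz : (M : ℤ) = k' * N := by exact_mod_cast hN
  have hNM : M / k' = N := by rw [hN, Nat.mul_div_cancel_left _ hk1]
  have hN0 : 0 < N := by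
    rcases Nat.eq_zero_or_pos N with h | h
    · rw [h, mul_zero] at hN; omega
    · exact h
  have hN₀N : N₀ ∣ N := by
    obtain ⟨q, hq⟩ := hLM
    obtain ⟨r, hr⟩ := Nat.dvd_factorial hk1 hk2
    refine ⟨r * q, ?_⟩
    have h1 : k' * N = k' * (N₀ * (r * q)) := by
      rw [← hN, hq, hL, hr]; ring
    exact Nat.eq_of_mul_eq_mul_left hk1 h1
  have hXN : X₀ + 1 ≤ N := by
    have h1 : K * (X₀ + 1) ≤ K * N := hM₀.trans (by rw [hN]; exact Nat.mul_le_mul_right _ hk2)
    have hK0 : 0 < K := by rw [hK]; positivity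
    exact Nat.le_of_mul_le_mul_left h1 hK0
  -- the approximants
  let b : I → ℤ := fun i => α i M - c i * N
  have hb : ∀ i, |b i| * n ≤ N := by
    intro i
    have h1 := hc i
    have h2 : (k' : ℤ) * α i M - c i * M = k' * b i := by
      simp only [b]; linear_combination (-(c i)) * hNz
    rw [h2, abs_mul, abs_of_nonneg (by positivity : (0 : ℤ) ≤ k')] at h1
    have h3 : (k' : ℤ) * (|b i| * n) ≤ k' * N := by
      calc (k' : ℤ) * (|b i| * n) = k' * |b i| * n := by ring
        _ ≤ M := h1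
        _ = k' * N := hNz
    exact le_of_mul_le_mul_left h3 (by exact_mod_cast hk1)
  refine ⟨b, fun i => ?_, fun G hG => ?_⟩
  · have h1 : (N₀ : ℤ) ∣ α i M - α i N₀ := by
      apply hα _ _ _ hM
      exact hN₀N.trans ⟨k', by rw [hN]; ring⟩
    have h2 : (N₀ : ℤ) ∣ c i * N := (Int.natCast_dvd_natCast.2 hN₀N).mul_left _
    have h3 : b i - α i N₀ = (α i M - α i N₀) - c i * N := by simp only [b]; ring
    rw [h3]
    exact dvd_sub h1 h2
  · by_contra hne
    have hnear : ∀ v ∉ S', 1 < mx (fv v) (N • P) →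
        ∃ R : I → (W⁄(v.adicCompletion k)).Point,
        (∀ i, Near (nv v) (mx (fv v) (N • P)) (R i)) ∧
        aeval (crds fun i => Point.baseChange (W' := W) k (v.adicCompletion k)
          (b i • P + t i) + R i) G = 0 := by
      intro v hv hr
      have hWv : (W⁄(v.adicCompletion k)).Δ ≠ 0 := by
        rw [base_Δ]
        exact fun h => hWΔ ((map_eq_zero _).1 h)
      have e4 : nv v (W⁄(v.adicCompletion k)).a₄ ≤ 1 := by
        have : (W⁄(v.adicCompletion k)).a₄ = algebraMap k (v.adicCompletion k) W.a₄ := rfl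
        rw [this, nv_algebraMap]; exact (hS' v hv).1
      have e6 : nv v (W⁄(v.adicCompletion k)).a₆ ≤ 1 := by
        have : (W⁄(v.adicCompletion k)).a₆ = algebraMap k (v.adicCompletion k) W.a₆ := rfl
        rw [this, nv_algebraMap]; exact (hS' v hv).2
      obtain ⟨nv', hnv0, hnv⟩ := exists_exponent_local v e4 e6 hWv hr
      refine ⟨fun i => y v i - Point.baseChange (W' := W) k (v.adicCompletion k) (b i • P + t i),
        fun i => ?_, ?_⟩
      · obtain ⟨z, hz⟩ := hy v hv i (M * nv') (Nat.mul_pos hM hnv0)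
        obtain ⟨u, hu⟩ := hα i M (M * nv') (Nat.mul_pos hM hnv0) (dvd_mul_right _ _)
        have h1 : y v i - Point.baseChange (W' := W) k (v.adicCompletion k) (b i • P + t i) =
            (u * k' + c i) • (Point.baseChange (W' := W) k (v.adicCompletion k) (N • P)) +
            M • (nv' • z) := by
          have h2 : α i (M * nv') • P + t i = (b i • P + t i) + (u * k' + c i) • (N • P) := by
            have h3 : α i (M * nv') = b i + (u * k' + c i) * N := by
              have : α i (M * nv') = α i M + M * u := by linarith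
              simp only [b]; linear_combination this + u * hNz
            rw [h3, add_smul, mul_smul, natCast_zsmul]; abel
          rw [hz, h2, map_add, map_zsmul, mul_nsmul']
          abel
        simp only []
        rw [h1]
        have hnearN : Near (nv v) (mx (fv v) (N • P))
            (Point.baseChange (W' := W) k (v.adicCompletion k) (N • P)) := by
          rcases hNP : N • P with _ | ⟨x, y', h⟩
          · trivial
          · rw [hNP, mx_some] at hr
            rw [mx_some, Point.baseChange, Point.map_some, near_some]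
            have h2 : nv v (algebraMap k (v.adicCompletion k) x) = fv v x := nv_algebraMap v x
            have h3 : (Algebra.ofId k (v.adicCompletion k)) x =
              algebraMap k (v.adicCompletion k) x := rfl
            rw [h3, h2]
            rcases lt_max_iff.1 hr with h4 | h4
            · exact absurd h4 (lt_irrefl _)
            · exact (max_eq_right h4.le).le
        have hsub := nearSubgroup (nv_nonarch v) e4 e6 hr
        refine Near.add (nv_nonarch v) e4 e6 hr ?_ ?_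
        · exact AddSubgroup.zsmul_mem (nearSubgroup (nv_nonarch v) e4 e6 hr) hnearN _
        · exact AddSubgroup.nsmul_mem (nearSubgroup (nv_nonarch v) e4 e6 hr) (hnv z) _
      · have h1 : (fun i => Point.baseChange (W' := W) k (v.adicCompletion k) (b i • P + t i) +
            (y v i - Point.baseChange (W' := W) k (v.adicCompletion k) (b i • P + t i))) = y v := by
          funext i; abel
        rw [h1]
        exact hrel v hv G hG
    have h1 := hC G hG (fun i => b i • P + t i) (N • P) hne hnear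
    -- estimates
    have hNr : (0 : ℝ) < N := by exact_mod_cast hN0
    have h2 : a * (N : ℝ) ^ 2 - C₀ ≤ ht (N • P) := by
      have := (abs_le.1 (hC₀ N)).1
      rw [natCast_zsmul] at this
      push_cast at this
      linarith
    have h3 : excSum S' (N • P) ≤ a * (N : ℝ) ^ 2 / 4 := by
      rw [excSum_eq]
      have h4 : ∀ s ∈ (Finset.univ : Finset (Exc k S')),
          excMu S' s * Real.log (mx (excAbs S' s) (N • P)) ≤ η * (N : ℝ) ^ 2 := by
        intro s _
        have := hwin k' hk1 hk2 s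
        rwa [hNM] at this
      refine (Finset.sum_le_card_nsmul _ _ _ h4).trans ?_
      rw [nsmul_eq_mul]
      show e * (η * (N : ℝ) ^ 2) ≤ _
      have h5 : e * η ≤ a / 4 := by
        rw [hη, mul_div_assoc', div_le_div_iff₀ (by positivity) (by norm_num)]
        nlinarith
      calc e * (η * (N : ℝ) ^ 2) = (e * η) * (N : ℝ) ^ 2 := by ring
        _ ≤ (a / 4) * (N : ℝ) ^ 2 := by gcongr
        _ = _ := by ring
    have h4 : ∀ i, ht (b i • P + t i) ≤ 2 * a * ((N : ℝ) ^ 2 / (n : ℝ) ^ 2) +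
        (2 * C₀ + 2 * ht (t i) + C₁) := by
      intro i
      have h5 := (abs_le.1 (hC₁ (b i • P) (t i))).2
      have h6 := ht_nonneg (b i • P - t i)
      have h7 := (abs_le.1 (hC₀ (b i))).2
      have h8 : ((b i : ℤ) : ℝ) ^ 2 ≤ (N : ℝ) ^ 2 / (n : ℝ) ^ 2 := by
        rw [le_div_iff₀ (by positivity), ← mul_pow, ← sq_abs]
        apply pow_le_pow_left₀ (abs_nonneg _)
        rw [abs_mul, Nat.abs_cast]
        exact_mod_cast hb i
      have h9 : a * ((b i : ℤ) : ℝ) ^ 2 ≤ a * ((N : ℝ) ^ 2 / (n : ℝ) ^ 2) := by gcongr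
      linarith
    have h5 : ∑ i, (d G i : ℝ) * ht (b i • P + t i) ≤
        a * (N : ℝ) ^ 2 / 18 + ∑ i, (d G i : ℝ) * (2 * C₀ + 2 * ht (t i) + C₁) := by
      have h6 : ∑ i, (d G i : ℝ) * ht (b i • P + t i) ≤
          ∑ i, ((d G i : ℝ) * (2 * a * ((N : ℝ) ^ 2 / (n : ℝ) ^ 2)) +
            (d G i : ℝ) * (2 * C₀ + 2 * ht (t i) + C₁)) := by
        refine Finset.sum_le_sum fun i _ => ?_
        rw [← mul_add]
        exact mul_le_mul_of_nonneg_left (h4 i) (Nat.cast_nonneg _)
      refine h6.trans ?_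
      rw [Finset.sum_add_distrib, ← Finset.sum_mul]
      apply add_le_add_left
      have h7 : (∑ i, (d G i : ℝ)) ≤ D := by exact_mod_cast hDG G hG
      have hn' : (n : ℝ) = 6 * ((D : ℝ) + 1) := by rw [hn]; push_cast; ring
      have hD0 : (0 : ℝ) ≤ D := Nat.cast_nonneg _
      calc (∑ i, (d G i : ℝ)) * (2 * a * ((N : ℝ) ^ 2 / (n : ℝ) ^ 2)) ≤
          D * (2 * a * ((N : ℝ) ^ 2 / (n : ℝ) ^ 2)) := by gcongr
        _ = a * (N : ℝ) ^ 2 * (2 * D / (n : ℝ) ^ 2) := by ring
        _ ≤ a * (N : ℝ) ^ 2 * (1 / 18) := by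
            apply mul_le_mul_of_nonneg_left _ (by positivity)
            rw [hn', div_le_div_iff₀ (by positivity) (by norm_num)]
            nlinarith
        _ = a * (N : ℝ) ^ 2 / 18 := by ring
    have h6 := hB G hG
    have h7 : B < a * (N : ℝ) ^ 2 / 4 := by
      have h8 : (X₀ : ℝ) ≤ (N : ℝ) ^ 2 := by
        have h9 : (X₀ : ℝ) + 1 ≤ N := by exact_mod_cast hXN
        have h10 : (0 : ℝ) ≤ X₀ := Nat.cast_nonneg _
        nlinarith
      rw [div_lt_iff₀ ha] at hX₀
      have h11 : (X₀ : ℝ) * a ≤ (N : ℝ) ^ 2 * a := by gcongr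
      linarith
    have h8 : 0 < a * (N : ℝ) ^ 2 := by positivity
    simp only [X] at h6
    linarith

end Pool.Agent.Lib.MP_2f3286_ag.E
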