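import Mathlib
import Pool.Agent.Lib.MP_2f3286_ag.E.Ineq

/-!
# Heights of algebraically related elements
-/

set_option autoImplicit false
set_option linter.all false

open WeierstrassCurve WeierstrassCurve.Affine
open IsDedekindDomain NumberField Height

namespace Pool.Agent.Lib.MP_2f3286_ag.E

section local_bounds

variable {F : Type*} [Field F]

theorem pev_le (w : AbsoluteValue F ℝ) (D : ℕ) (c : ℕ → F) (x : F) :
    w (∑ i ∈ Finset.range (D + 1), c i * x ^ i) ≤
      (∑ i ∈ Finset.range (D + 1), w (c i)) * (max 1 (w x)) ^ D := by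
  have hm : 1 ≤ max 1 (w x) := le_max_left _ _
  rw [Finset.sum_mul]
  refine (w.sum_le _ _).trans (Finset.sum_le_sum fun i hi => ?_)
  rw [map_mul, map_pow]
  apply mul_le_mul_of_nonneg_left _ (w.nonneg _)
  calc w x ^ i ≤ max 1 (w x) ^ i := pow_le_pow_left₀ (w.nonneg _) (le_max_right _ _) _
    _ ≤ max 1 (w x) ^ D := pow_le_pow_right₀ hm (by rw [Finset.mem_range] at hi; omega)

theorem pev_le' {w : AbsoluteValue F ℝ} (hw : IsNonarchimedean w) (D : ℕ) (c : ℕ → F)
    (x : F) {A : ℝ} (hA0 : 0 ≤ A) (hA : ∀ i ∈ Finset.range (D + 1), w (c i) ≤ A) :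
    w (∑ i ∈ Finset.range (D + 1), c i * x ^ i) ≤ A * (max 1 (w x)) ^ D := by
  have hm : 1 ≤ max 1 (w x) := le_max_left _ _
  refine abs_sum_le hw _ _ (by positivity) fun i hi => ?_
  rw [map_mul, map_pow]
  have h1 : w x ^ i ≤ max 1 (w x) ^ D :=
    calc w x ^ i ≤ max 1 (w x) ^ i := pow_le_pow_left₀ (w.nonneg _) (le_max_right _ _) _
    _ ≤ max 1 (w x) ^ D := pow_le_pow_right₀ hm (by rw [Finset.mem_range] at hi; omega)
  exact mul_le_mul (hA i hi) h1 (pow_nonneg (w.nonneg _) _) hA0

/-- Root bound. -/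
theorem root_bound (w : AbsoluteValue F ℝ) {e : ℕ → F} {J : ℕ} {y : F} {B : ℝ} (hB0 : 0 ≤ B)
    (hB : ∀ j, w (e j) ≤ B) (hJ : 1 ≤ J)
    (h : ∑ j ∈ Finset.range (J + 1), e j * y ^ j = 0) : max 1 (w y) * w (e J) ≤ J * B := by
  have hJr : (1 : ℝ) ≤ J := by exact_mod_cast hJ
  rcases le_or_gt (w y) 1 with h1 | h1
  · rw [max_eq_left h1, one_mul]
    exact (hB J).trans (le_mul_of_one_le_left hB0 hJr)
  · rw [max_eq_right h1.le]
    have hy0 : 0 < w y := by linarith
    rw [Finset.sum_range_succ] at h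
    have h2 : e J * y ^ J = -∑ j ∈ Finset.range J, e j * y ^ j := by linear_combination h
    have h3 : w (e J) * w y ^ J ≤ J * (B * w y ^ (J - 1)) := by
      rw [← map_pow, ← map_mul, h2, w.map_neg]
      refine (w.sum_le _ _).trans ?_
      have : ∀ j ∈ Finset.range J, w (e j * y ^ j) ≤ B * w y ^ (J - 1) := by
        intro j hj
        rw [map_mul, map_pow]
        have h5 : w y ^ j ≤ w y ^ (J - 1) :=
          pow_le_pow_right₀ h1.le (by rw [Finset.mem_range] at hj; omega)
        have := hB j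
        have := w.nonneg (e j)
        gcongr
      refine (Finset.sum_le_card_nsmul _ _ _ this).trans ?_
      rw [Finset.card_range, nsmul_eq_mul]
    have h4 : w y ^ J = w y * w y ^ (J - 1) := by
      rw [← pow_succ']; congr 1; omega
    rw [h4] at h3
    have h5 : (w y * w (e J)) * w y ^ (J - 1) ≤ (J * B) * w y ^ (J - 1) := by
      calc (w y * w (e J)) * w y ^ (J - 1) = w (e J) * (w y * w y ^ (J - 1)) := by ring
        _ ≤ J * (B * w y ^ (J - 1)) := h3
        _ = _ := by ring
    exact le_of_mul_le_mul_right h5 (by positivity)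

theorem root_bound' {w : AbsoluteValue F ℝ} (hw : IsNonarchimedean w) {e : ℕ → F} {J : ℕ} {y : F}
    {B : ℝ} (hB0 : 0 ≤ B) (hB : ∀ j, w (e j) ≤ B) (hJ : 1 ≤ J)
    (h : ∑ j ∈ Finset.range (J + 1), e j * y ^ j = 0) : max 1 (w y) * w (e J) ≤ B := by
  rcases le_or_gt (w y) 1 with h1 | h1
  · rw [max_eq_left h1, one_mul]
    exact hB J
  · rw [max_eq_right h1.le]
    have hy0 : 0 < w y := by linarith
    rw [Finset.sum_range_succ] at h
    have h2 : e J * y ^ J = -∑ j ∈ Finset.range J, e j * y ^ j := by linear_combination h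
    have h3 : w (e J) * w y ^ J ≤ B * w y ^ (J - 1) := by
      rw [← map_pow, ← map_mul, h2, w.map_neg]
      refine abs_sum_le hw _ _ (by positivity) fun j hj => ?_
      rw [map_mul, map_pow]
      have h5 : w y ^ j ≤ w y ^ (J - 1) :=
        pow_le_pow_right₀ h1.le (by rw [Finset.mem_range] at hj; omega)
      have := hB j
      have := w.nonneg (e j)
      gcongr
    have h4 : w y ^ J = w y * w y ^ (J - 1) := by
      rw [← pow_succ']; congr 1; omega
    rw [h4] at h3
    have h5 : (w y * w (e J)) * w y ^ (J - 1) ≤ B * w y ^ (J - 1) := by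
      calc (w y * w (e J)) * w y ^ (J - 1) = w (e J) * (w y * w y ^ (J - 1)) := by ring
        _ ≤ B * w y ^ (J - 1) := h3
    exact le_of_mul_le_mul_right h5 (by positivity)

end local_bounds

variable {k : Type*} [Field k] [NumberField k]

/-- Heights of algebraically related elements: if `F(x, y) = 0` with `F(x, ·) ≠ 0`, then
`h(y) ≤ DX * h(x) + C`. -/
theorem ht_le_of_rel (a : ℕ → ℕ → k) (DX DY : ℕ) :
    ∃ C : ℝ, 0 ≤ C ∧ ∀ x y : k,
      (∃ j ≤ DY, ∑ i ∈ Finset.range (DX + 1), a j i * x ^ i ≠ 0) →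
      ∑ j ∈ Finset.range (DY + 1), (∑ i ∈ Finset.range (DX + 1), a j i * x ^ i) * y ^ j = 0 →
      logHeight₁ y ≤ DX * logHeight₁ x + C := by
  classical
  -- constants
  let A : AbsoluteValue k ℝ → ℝ := fun w =>
    ∑ j ∈ Finset.range (DY + 1), ∑ i ∈ Finset.range (DX + 1), w (a j i)
  have hA0 : ∀ w, 0 ≤ A w := fun w =>
    Finset.sum_nonneg fun j _ => Finset.sum_nonneg fun i _ => w.nonneg _
  let A' : AbsoluteValue k ℝ → ℝ := fun w =>
    ∏ j ∈ Finset.range (DY + 1), ∏ i ∈ Finset.range (DX + 1), max 1 (w (a j i))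
  have hpos1 : ∀ r : ℝ, 0 < max 1 r := fun r => lt_max_of_lt_left one_pos
  have hA'0 : ∀ w, 0 < A' w := fun w =>
    Finset.prod_pos fun j _ => Finset.prod_pos fun i _ => hpos1 _
  let B : ℝ := ∑ j ∈ Finset.range (DY + 1), ∑ i ∈ Finset.range (DX + 1),
    logHeight₁ (a j i)
  have hB0 : 0 ≤ B := Finset.sum_nonneg fun j _ => Finset.sum_nonneg fun i _ =>
    zero_le_logHeight₁ _
  let C : ℝ := ∑ w : InfinitePlace k, (w.mult : ℝ) *
    Real.log (max 1 (((DY : ℝ) + 1) * max 1 (A w.val))) + B
  have hC0 : 0 ≤ C := add_nonneg (Finset.sum_nonneg fun w _ =>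
    mul_nonneg (by positivity) (Real.log_nonneg (le_max_left _ _))) hB0
  refine ⟨C, hC0, fun x y hne hrel => ?_⟩
  set e : ℕ → k := fun j => if j ≤ DY then ∑ i ∈ Finset.range (DX + 1), a j i * x ^ i else 0 with he
  have hsum : ∑ j ∈ Finset.range (DY + 1), e j * y ^ j = 0 := by
    rw [← hrel]
    refine Finset.sum_congr rfl fun j hj => ?_
    rw [Finset.mem_range] at hj
    simp only [he]
    rw [if_pos (by omega)]
  have hehigh : ∀ j, DY < j → e j = 0 := by
    intro j hj
    simp only [he]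
    rw [if_neg (by omega)]
  obtain ⟨j₀, hj₀', hj₀0⟩ := hne
  have hj₀ : e j₀ ≠ 0 := by
    simp only [he]
    rwa [if_pos hj₀']
  -- largest index
  set J := Nat.findGreatest (fun j => e j ≠ 0) DY with hJ
  have hJe : e J ≠ 0 := Nat.findGreatest_spec (P := fun j => e j ≠ 0) hj₀' hj₀
  have hJDY : J ≤ DY := Nat.findGreatest_le DY
  have hJmax : ∀ j, J < j → e j = 0 := by
    intro j hj
    by_cases hjD : j ≤ DY
    · by_contra hne
      exact Nat.findGreatest_is_greatest hj hjD hne
    · exact hehigh j (by omega)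
  have hsum' : ∑ j ∈ Finset.range (J + 1), e j * y ^ j = 0 := by
    rw [← hsum]
    refine Finset.sum_subset ?_ ?_
    · intro j hj
      rw [Finset.mem_range] at hj ⊢
      omega
    · intro j _ hj
      rw [Finset.mem_range] at hj
      rw [hJmax j (by omega), zero_mul]
  have hJ1 : 1 ≤ J := by
    rcases Nat.eq_zero_or_pos J with h0 | h0
    · rw [h0] at hsum' hJe
      simp at hsum'
      exact absurd hsum' hJe
    · exact h0
  -- local bounds
  have hloc : ∀ w : AbsoluteValue k ℝ, Real.log (max 1 (w y)) +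
      Real.log (w (e J)) ≤ Real.log (max 1 (((DY : ℝ) + 1) * max 1 (A w))) +
        DX * Real.log (max 1 (w x)) := by
    intro w
    have hmS := hpos1 (w x)
    have hbd : ∀ j, w (e j) ≤ max 1 (A w) * (max 1 (w x)) ^ DX := by
      intro j
      by_cases hjD : j ≤ DY
      · simp only [he]
        rw [if_pos hjD]
        refine (pev_le w DX (a j) x).trans ?_
        apply mul_le_mul_of_nonneg_right _ (by positivity)
        refine le_trans ?_ (le_max_right _ _)
        exact Finset.single_le_sum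
          (f := fun j => ∑ i ∈ Finset.range (DX + 1), w (a j i))
          (fun _ _ => Finset.sum_nonneg fun _ _ => w.nonneg _)
          (Finset.mem_range.2 (Nat.lt_succ_of_le hjD))
      · rw [hehigh j (by omega), w.map_zero]
        have := hpos1 (A w)
        positivity
    have hm1 := hpos1 (A w)
    have h1 := root_bound w (B := max 1 (A w) * (max 1 (w x)) ^ DX) (by positivity) hbd hJ1 hsum'
    have h2 : max 1 (w y) * w (e J) ≤
        max 1 (((DY : ℝ) + 1) * max 1 (A w)) * (max 1 (w x)) ^ DX := by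
      refine h1.trans ?_
      rw [← mul_assoc]
      apply mul_le_mul_of_nonneg_right _ (by positivity)
      refine le_trans ?_ (le_max_right _ _)
      apply mul_le_mul_of_nonneg_right _ hm1.le
      have : (J : ℝ) ≤ DY := by exact_mod_cast hJDY
      linarith
    have h3 := Real.log_le_log (mul_pos (hpos1 _) (w.pos hJe)) h2
    have h4 := Real.log_mul (hpos1 (w y)).ne' (w.pos hJe).ne'
    have h5 := Real.log_mul (hpos1 (((DY : ℝ) + 1) * max 1 (A w))).ne' (pow_pos hmS DX).ne'
    rw [Real.log_pow] at h5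
    rw [← h4, ← h5]
    exact h3
  have hloc' : ∀ v : HeightOneSpectrum (𝓞 k), Real.log (max 1 (fv v y)) +
      Real.log (fv v (e J)) ≤ Real.log (A' (fv v)) + DX * Real.log (max 1 (fv v x)) := by
    intro v
    have hvn : IsNonarchimedean (fv v) := HeightOneSpectrum.isNonarchimedean_adicAbv k v
    have hmS := hpos1 (fv v x)
    have hA'v := hA'0 (fv v)
    have hco : ∀ j ∈ Finset.range (DY + 1), ∀ i ∈ Finset.range (DX + 1),
        fv v (a j i) ≤ A' (fv v) := by
      intro j hj i hi
      have h1 : ∀ (s : Finset ℕ) (f : ℕ → ℝ) (hf : ∀ i, 1 ≤ f i) (i : ℕ) (hi : i ∈ s),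
          f i ≤ ∏ i ∈ s, f i := by
        intro s f hf i hi
        rw [← Finset.mul_prod_erase _ _ hi]
        calc f i = f i * 1 := (mul_one _).symm
          _ ≤ _ := by
              apply mul_le_mul_of_nonneg_left _ (zero_le_one.trans (hf i))
              calc (1 : ℝ) = ∏ m ∈ s.erase i, 1 := by rw [Finset.prod_const_one]
                _ ≤ _ := Finset.prod_le_prod (fun _ _ => zero_le_one) fun _ _ => hf _
      have h2 : ∀ j, 1 ≤ ∏ i ∈ Finset.range (DX + 1), max 1 (fv v (a j i)) := by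
        intro j
        calc (1 : ℝ) = ∏ m ∈ Finset.range (DX + 1), 1 := by rw [Finset.prod_const_one]
          _ ≤ _ := Finset.prod_le_prod (fun _ _ => zero_le_one) fun _ _ => le_max_left _ _
      calc fv v (a j i) ≤ max 1 (fv v (a j i)) := le_max_right _ _
        _ ≤ ∏ i ∈ Finset.range (DX + 1), max 1 (fv v (a j i)) :=
            h1 _ (fun i => max 1 (fv v (a j i))) (fun i => le_max_left _ _) i hi
        _ ≤ A' (fv v) :=
            h1 _ (fun j => ∏ i ∈ Finset.range (DX + 1), max 1 (fv v (a j i))) h2 j hj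
    have hbd : ∀ j, fv v (e j) ≤ A' (fv v) * (max 1 (fv v x)) ^ DX := by
      intro j
      by_cases hjD : j ≤ DY
      · simp only [he]
        rw [if_pos hjD]
        exact pev_le' hvn DX (a j) x hA'v.le
          (hco j (Finset.mem_range.2 (Nat.lt_succ_of_le hjD)))
      · rw [hehigh j (by omega), (fv v).map_zero]
        positivity
    have h1 := root_bound' hvn (B := A' (fv v) * (max 1 (fv v x)) ^ DX) (by positivity) hbd hJ1
      hsum'
    have h3 := Real.log_le_log (mul_pos (hpos1 _) ((fv v).pos hJe)) h1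
    have h4 := Real.log_mul (hpos1 (fv v y)).ne' ((fv v).pos hJe).ne'
    have h5 := Real.log_mul hA'v.ne' (pow_pos hmS DX).ne'
    rw [Real.log_pow] at h5
    rw [← h4, ← h5]
    exact h3
  -- global
  obtain ⟨T₁, hT₁⟩ := prod_formula hJe
  obtain ⟨T₂, hT₂⟩ := height_formula y
  set T := T₁ ∪ T₂ with hT
  have e1 := hT₁ T Finset.subset_union_left
  have e2 := hT₂ T Finset.subset_union_right
  have e3 := partial_le_height x T
  have b1 : ∑ w : InfinitePlace k, (w.mult : ℝ) *
      (Real.log (max 1 (w y)) + Real.log (w (e J))) ≤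
      ∑ w : InfinitePlace k, (w.mult : ℝ) *
        (Real.log (max 1 (((DY : ℝ) + 1) * max 1 (A w.val))) + DX * Real.log (max 1 (w x))) :=
    Finset.sum_le_sum fun w _ => mul_le_mul_of_nonneg_left (hloc w.val) (by positivity)
  have b2 : ∑ v ∈ T, (Real.log (max 1 (fv v y)) +
      Real.log (fv v (e J))) ≤
      ∑ v ∈ T, (Real.log (A' (fv v)) + DX * Real.log (max 1 (fv v x))) :=
    Finset.sum_le_sum fun v _ => hloc' v
  have b3 : ∑ v ∈ T, Real.log (A' (fv v)) ≤ B := by
    have : ∀ v : HeightOneSpectrum (𝓞 k), Real.log (A' (fv v)) =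
        ∑ j ∈ Finset.range (DY + 1), ∑ i ∈ Finset.range (DX + 1),
          Real.log (max 1 (fv v (a j i))) := by
      intro v
      simp only [A']
      rw [Real.log_prod fun j _ => (Finset.prod_pos fun i _ => hpos1 _).ne']
      refine Finset.sum_congr rfl fun j _ => ?_
      rw [Real.log_prod fun i _ => (hpos1 _).ne']
    simp only [this]
    rw [Finset.sum_comm]
    refine Finset.sum_le_sum fun j _ => ?_
    rw [Finset.sum_comm]
    refine Finset.sum_le_sum fun i _ => ?_
    have h3 := partial_le_height (a j i) T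
    have h4 : 0 ≤ ∑ w : InfinitePlace k, (w.mult : ℝ) *
        Real.log (max 1 (w (a j i))) :=
      Finset.sum_nonneg fun w _ => mul_nonneg (by positivity) (Real.log_nonneg (le_max_left _ _))
    linarith
  have s1 : ∑ w : InfinitePlace k, (w.mult : ℝ) *
      (Real.log (max 1 (w y)) + Real.log (w (e J))) =
      ∑ w : InfinitePlace k, (w.mult : ℝ) * Real.log (max 1 (w y)) +
      ∑ w : InfinitePlace k, (w.mult : ℝ) * Real.log (w (e J)) := by
    rw [← Finset.sum_add_distrib]
    refine Finset.sum_congr rfl fun w _ => by ring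
  have s2 : ∑ w : InfinitePlace k, (w.mult : ℝ) *
        (Real.log (max 1 (((DY : ℝ) + 1) * max 1 (A w.val))) + DX * Real.log (max 1 (w x))) =
      ∑ w : InfinitePlace k, (w.mult : ℝ) *
        Real.log (max 1 (((DY : ℝ) + 1) * max 1 (A w.val))) +
      DX * ∑ w : InfinitePlace k, (w.mult : ℝ) * Real.log (max 1 (w x)) := by
    rw [Finset.mul_sum, ← Finset.sum_add_distrib]
    refine Finset.sum_congr rfl fun w _ => by ring
  have s3 : ∑ v ∈ T, (Real.log (A' (fv v)) + DX * Real.log (max 1 (fv v x))) =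
      ∑ v ∈ T, Real.log (A' (fv v)) + DX * ∑ v ∈ T, Real.log (max 1 (fv v x)) := by
    rw [Finset.sum_add_distrib, Finset.mul_sum]
  rw [s1, s2] at b1
  rw [Finset.sum_add_distrib, s3] at b2
  have e4 : (DX : ℝ) * (∑ w : InfinitePlace k, (w.mult : ℝ) * Real.log (max 1 (w x)) +
      ∑ v ∈ T, Real.log (max 1 (fv v x))) ≤ DX * logHeight₁ x :=
    mul_le_mul_of_nonneg_left e3 (Nat.cast_nonneg _)
  rw [mul_add] at e4
  simp only [C]
  linarith

end Pool.Agent.Lib.MP_2f3286_ag.E
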