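import Mathlib
import Pool.Agent.Lib.MP_2f3286_ag.E.HtRel
import Pool.Agent.Lib.MP_2f3286_ag.E.Core

/-!
# The height part of the Demjanenko-Manin method in rank one
-/

set_option autoImplicit false
set_option linter.all false

open WeierstrassCurve WeierstrassCurve.Affine
open IsDedekindDomain NumberField Height

namespace Pool.Agent.Lib.MP_2f3286_ag.E

/-- The `x`-coordinate of a point (`0` for the point at infinity). -/
def xc {F : Type*} [Field F] {V : Affine F} : V.Point → F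
  | .zero => 0
  | .some x _ _ => x

section

variable {k : Type*} [Field k] [NumberField k]

/-- Heights from a polynomial relation. -/
theorem height_of_poly (F : Polynomial (Polynomial k)) (d : ℕ) (hd : F.natDegree ≤ d)
    (hF : ∀ y : k, F.eval (Polynomial.C y) ≠ 0) :
    ∃ C : ℝ, 0 ≤ C ∧ ∀ x y : k, (F.eval (Polynomial.C y)).eval x = 0 →
      logHeight₁ x ≤ d * logHeight₁ y + C := by
  classical
  -- bound for the degree in the inner variable
  set D : ℕ := (Finset.range (d + 1)).sup fun i => (F.coeff i).natDegree with hD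
  obtain ⟨C, hC0, hC⟩ := ht_le_of_rel (fun j i => (F.coeff i).coeff j) d D
  have hcoe : ∀ (y : k) (j : ℕ), (F.eval (Polynomial.C y)).coeff j =
      ∑ i ∈ Finset.range (d + 1), (F.coeff i).coeff j * y ^ i := by
    intro y j
    rw [Polynomial.eval_eq_sum_range' (Nat.lt_succ_of_le hd), Polynomial.finsetSum_coeff]
    refine Finset.sum_congr rfl fun i _ => ?_
    rw [← Polynomial.C_pow, Polynomial.coeff_mul_C]
  have hdeg : ∀ y : k, (F.eval (Polynomial.C y)).natDegree ≤ D := by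
    intro y
    rw [Polynomial.natDegree_le_iff_coeff_eq_zero]
    intro N hN
    rw [hcoe]
    refine Finset.sum_eq_zero fun i hi => ?_
    have h1 : (F.coeff i).natDegree ≤ D :=
      Finset.le_sup (f := fun i => (F.coeff i).natDegree) hi
    rw [Polynomial.coeff_eq_zero_of_natDegree_lt (lt_of_le_of_lt h1 hN), zero_mul]
  refine ⟨C, hC0, fun x y hxy => ?_⟩
  refine hC y x ?_ ?_
  · by_contra hcon
    push Not at hcon
    apply hF y
    ext j
    rw [Polynomial.coeff_zero]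
    by_cases hj : j ≤ D
    · rw [hcoe]
      exact hcon j hj
    · exact Polynomial.coeff_eq_zero_of_natDegree_lt (lt_of_le_of_lt (hdeg y) (not_le.1 hj))
  · rw [← hxy, Polynomial.eval_eq_sum_range' (Nat.lt_succ_of_le (hdeg y))]
    refine Finset.sum_congr rfl fun j _ => ?_
    rw [hcoe]

end

section

variable {k : Type*} [Field k] [NumberField k] [DecidableEq k] {V : Affine k} [V.IsShortNF]
  [WeierstrassCurve.IsElliptic V]

/-- Upper and lower bounds for heights of `m • P + t`. -/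
theorem ht_bounds (P : V.Point) (hP : ∀ n : ℕ, n ≠ 0 → n • P ≠ 0) :
    ∃ a : ℝ, 0 < a ∧ ∀ t : V.Point, ∃ C : ℝ, 0 ≤ C ∧ ∀ m : ℤ,
      ht (m • P + t) ≤ 2 * (a * (m : ℝ) ^ 2) + C ∧ a * (m : ℝ) ^ 2 ≤ 2 * ht (m • P + t) + C := by
  obtain ⟨a, ha, C, hC⟩ := ht_zsmul P hP
  obtain ⟨C', hC'⟩ := parallelogram V
  have hC0 : 0 ≤ C := (abs_nonneg _).trans (hC 0)
  have hC'0 : 0 ≤ C' := (abs_nonneg _).trans (hC' 0 0)
  refine ⟨a, ha, fun t => ⟨2 * C + C' + 2 * ht t, ?_, fun m => ?_⟩⟩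
  · have := ht_nonneg t
    positivity
  · have h1 := hC m
    have h2 := hC' (m • P) t
    have h3 := hC' (m • P + t) t
    rw [add_sub_cancel_right] at h3
    rw [abs_le] at h1 h2 h3
    have h4 := ht_nonneg (m • P - t)
    have h5 := ht_nonneg (m • P + t + t)
    have h6 := ht_nonneg t
    constructor <;> linarith [h1.1, h1.2, h2.1, h2.2, h3.1, h3.2]

/-- Dirichlet approximation for two integers. -/
theorem dirichlet2 (Q : ℕ) (hQ : 0 < Q) (x y : ℤ) (hxy : |y| ≤ |x|) :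
    ∃ a b : ℤ, 0 < b ∧ b ≤ Q ∧ |a| ≤ Q ∧
      |((a * x + b * y : ℤ) : ℝ)| * (Q + 1) ≤ |(x : ℝ)| := by
  rcases eq_or_ne x 0 with hx | hx
  · subst hx
    rw [abs_zero] at hxy
    have hy : y = 0 := abs_eq_zero.1 (le_antisymm hxy (abs_nonneg _))
    subst hy
    refine ⟨0, 1, one_pos, by exact_mod_cast hQ, by simp, by simp⟩
  · obtain ⟨j, b, hb0, hbQ, hjb⟩ := Real.exists_int_int_abs_mul_sub_le ((y : ℝ) / x) hQ
    have hxr : (x : ℝ) ≠ 0 := by exact_mod_cast hx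
    have hxpos : 0 < |(x : ℝ)| := abs_pos.2 hxr
    have hyx : |(y : ℝ) / x| ≤ 1 := by
      rw [abs_div, div_le_one hxpos]
      exact_mod_cast hxy
    have hQr : (0 : ℝ) < (Q : ℝ) + 1 := by positivity
    refine ⟨-j, b, hb0, hbQ, ?_, ?_⟩
    · rw [abs_neg]
      have h1 : |(j : ℝ)| < Q + 1 := by
        have h2 : |(j : ℝ)| ≤ |(b : ℝ) * ((y : ℝ) / x)| + |(b : ℝ) * ((y : ℝ) / x) - j| := by
          have := abs_sub_abs_le_abs_sub (j : ℝ) ((b : ℝ) * ((y : ℝ) / x))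
          rw [abs_sub_comm] at this
          linarith
        have h3 : |(b : ℝ) * ((y : ℝ) / x)| ≤ Q := by
          rw [abs_mul]
          have hb : |(b : ℝ)| ≤ Q := by
            rw [abs_of_pos (by exact_mod_cast hb0)]
            exact_mod_cast hbQ
          calc |(b : ℝ)| * |(y : ℝ) / x| ≤ Q * 1 :=
                mul_le_mul hb hyx (abs_nonneg _) (Nat.cast_nonneg _)
            _ = Q := mul_one _
        have h4 : (1 : ℝ) / (Q + 1) < 1 := by
          rw [div_lt_one hQr]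
          have : (0 : ℝ) < Q := by exact_mod_cast hQ
          linarith
        linarith
      have h5 : |j| < (Q : ℤ) + 1 := by exact_mod_cast h1
      omega
    · have h1 : (((-j) * x + b * y : ℤ) : ℝ) = x * ((b : ℝ) * ((y : ℝ) / x) - j) := by
        push_cast
        field_simp
        ring
      rw [h1, abs_mul, mul_assoc]
      calc |(x : ℝ)| * (|(b : ℝ) * ((y : ℝ) / x) - j| * (Q + 1)) ≤
          |(x : ℝ)| * ((1 / (Q + 1)) * (Q + 1)) := by gcongr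
        _ = |(x : ℝ)| := by field_simp

/-- The inequality forcing boundedness. -/
theorem bound_of_ineq {a M L C₁ C₂ C₃ : ℝ} {d Q : ℝ} (ha : 0 < a) (hd : 0 ≤ d)
    (hQ : 32 * d ≤ Q ^ 2) (hQ0 : 0 < Q) (hM : 0 ≤ M) (hC₁ : 0 ≤ C₁) (hC₂ : 0 ≤ C₂) (hC₃ : 0 ≤ C₃)
    (hL : |L| ≤ M / Q + 1) {H H' : ℝ}
    (h1 : a * M ^ 2 ≤ 2 * H + C₁) (h2 : H ≤ d * H' + C₂) (h3 : H' ≤ 2 * (a * L ^ 2) + C₃) :
    M ^ 2 ≤ (2 * (C₁ + 2 * C₂ + 2 * d * C₃ + 8 * d * a)) / a := by
  have hL2 : L ^ 2 ≤ 2 * (M / Q) ^ 2 + 2 := by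
    have h4 : L ^ 2 ≤ (M / Q + 1) ^ 2 := by
      rw [← sq_abs L]
      exact pow_le_pow_left₀ (abs_nonneg _) hL 2
    nlinarith [sq_nonneg (M / Q - 1)]
  have h5 : d * (M / Q) ^ 2 ≤ M ^ 2 / 32 := by
    rw [div_pow]
    have h6 : d * (M ^ 2 / Q ^ 2) = M ^ 2 * (d / Q ^ 2) := by ring
    rw [h6]
    have h7 : d / Q ^ 2 ≤ 1 / 32 := by
      rw [div_le_div_iff₀ (by positivity) (by norm_num)]
      linarith
    have : M ^ 2 * (d / Q ^ 2) ≤ M ^ 2 * (1 / 32) := mul_le_mul_of_nonneg_left h7 (by positivity)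
    linarith
  have h8 : a * M ^ 2 ≤ 2 * (d * (2 * (a * L ^ 2) + C₃) + C₂) + C₁ := by
    have := mul_le_mul_of_nonneg_left h3 hd
    linarith
  have h9 : d * (a * L ^ 2) ≤ 2 * a * (M ^ 2 / 32) + 2 * (d * a) := by
    have h10 : d * (a * L ^ 2) ≤ d * (a * (2 * (M / Q) ^ 2 + 2)) := by gcongr
    have h11 : d * (a * (2 * (M / Q) ^ 2 + 2)) = 2 * a * (d * (M / Q) ^ 2) + 2 * (d * a) := by ring
    rw [h11] at h10
    have h12 : 2 * a * (d * (M / Q) ^ 2) ≤ 2 * a * (M ^ 2 / 32) :=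
      mul_le_mul_of_nonneg_left h5 (by positivity)
    linarith
  rw [le_div_iff₀ ha]
  nlinarith

end

section

variable {k : Type*} [Field k] [NumberField k] [DecidableEq k] {V : Affine k} [V.IsShortNF]
  [WeierstrassCurve.IsElliptic V]

theorem ht_eq_xc {R : V.Point} (hR : R ≠ 0) : ht R = logHeight₁ (xc R) := by
  rcases R with _ | ⟨x, y, h⟩
  · exact absurd rfl hR
  · rw [ht_some]; rfl

/-- **Height part of the Demjanenko-Manin method in rank one.** -/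
theorem dm_finite_aux (P : V.Point) (hP : ∀ n : ℕ, n ≠ 0 → n • P ≠ 0)
    (t : Fin 2 → V.Point) (d : ℕ) :
    ∃ Q : ℕ, ∀ F : Fin 2 → ℤ → ℤ → ℕ → Polynomial (Polynomial k),
      (∀ e a b c, (F e a b c).natDegree ≤ d ∧ ∀ y : k, (F e a b c).eval (Polynomial.C y) ≠ 0) →
      {m : Fin 2 → ℤ | ∀ (e : Fin 2) (a b : ℤ) (c : ℕ), |a| ≤ (Q : ℤ) → |b| ≤ (Q : ℤ) → (a ≠ 0 ∨ b ≠ 0) → c ≤ 1 →
        m e • P + t e ≠ 0 →
        (a * m 0 + b * m 1 + (c : ℤ)) • P + (a • t 0 + b • t 1) ≠ 0 →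
        ((F e a b c).eval (Polynomial.C
          (xc ((a * m 0 + b * m 1 + (c : ℤ)) • P + (a • t 0 + b • t 1))))).eval
            (xc (m e • P + t e)) = 0}.Finite := by
  classical
  obtain ⟨α, hα, hbd⟩ := ht_bounds P hP
  choose K hK0 hK using hbd
  refine ⟨32 * d + 1, fun F hF => ?_⟩
  set Q : ℕ := 32 * d + 1 with hQ
  have hQ0 : 0 < Q := Nat.succ_pos _
  have hQr : (32 : ℝ) * d ≤ (Q : ℝ) ^ 2 := by
    rw [hQ]; push_cast
    have : (0 : ℝ) ≤ d := Nat.cast_nonneg _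
    nlinarith
  choose H hH0 hH using fun (e : Fin 2) (a b : ℤ) (c : ℕ) =>
    height_of_poly (F e a b c) d (hF e a b c).1 (hF e a b c).2
  -- uniform constants
  set s : Finset ℤ := Finset.Icc (-(Q : ℤ)) Q with hs
  set CH : ℝ := ∑ e : Fin 2, ∑ a ∈ s, ∑ b ∈ s, ∑ c ∈ Finset.range 2, H e a b c with hCH
  have hCHle : ∀ e a b c, a ∈ s → b ∈ s → c ≤ 1 → H e a b c ≤ CH := by
    intro e a b c ha hb hc
    calc H e a b c ≤ ∑ c ∈ Finset.range 2, H e a b c :=
          Finset.single_le_sum (f := fun c => H e a b c) (fun _ _ => hH0 _ _ _ _)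
            (Finset.mem_range.2 (by omega))
      _ ≤ ∑ b ∈ s, ∑ c ∈ Finset.range 2, H e a b c :=
          Finset.single_le_sum (f := fun b => ∑ c ∈ Finset.range 2, H e a b c)
            (fun _ _ => Finset.sum_nonneg fun _ _ => hH0 _ _ _ _) hb
      _ ≤ ∑ a ∈ s, ∑ b ∈ s, ∑ c ∈ Finset.range 2, H e a b c :=
          Finset.single_le_sum (f := fun a => ∑ b ∈ s, ∑ c ∈ Finset.range 2, H e a b c)
            (fun _ _ => Finset.sum_nonneg fun _ _ => Finset.sum_nonneg fun _ _ => hH0 _ _ _ _) ha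
      _ ≤ CH :=
          Finset.single_le_sum
            (f := fun e => ∑ a ∈ s, ∑ b ∈ s, ∑ c ∈ Finset.range 2, H e a b c)
            (fun _ _ => Finset.sum_nonneg fun _ _ => Finset.sum_nonneg fun _ _ =>
              Finset.sum_nonneg fun _ _ => hH0 _ _ _ _) (Finset.mem_univ e)
  have hCH0 : 0 ≤ CH := Finset.sum_nonneg fun _ _ => Finset.sum_nonneg fun _ _ =>
    Finset.sum_nonneg fun _ _ => Finset.sum_nonneg fun _ _ => hH0 _ _ _ _
  set CK : ℝ := ∑ a ∈ s, ∑ b ∈ s, K (a • t 0 + b • t 1) with hCK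
  have hCKle : ∀ a b, a ∈ s → b ∈ s → K (a • t 0 + b • t 1) ≤ CK := by
    intro a b ha hb
    calc K (a • t 0 + b • t 1) ≤ ∑ b ∈ s, K (a • t 0 + b • t 1) :=
          Finset.single_le_sum (f := fun b => K (a • t 0 + b • t 1)) (fun _ _ => hK0 _) hb
      _ ≤ CK :=
          Finset.single_le_sum (f := fun a => ∑ b ∈ s, K (a • t 0 + b • t 1))
            (fun _ _ => Finset.sum_nonneg fun _ _ => hK0 _) ha
  have hCK0 : 0 ≤ CK := Finset.sum_nonneg fun _ _ => Finset.sum_nonneg fun _ _ => hK0 _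
  set CT : ℝ := K (t 0) + K (t 1) with hCT
  have hCT0 : 0 ≤ CT := add_nonneg (hK0 _) (hK0 _)
  have hCTle : ∀ e, K (t e) ≤ CT := by
    intro e
    have h0 := hK0 (t 0)
    have h1 := hK0 (t 1)
    fin_cases e
    · show K (t 0) ≤ CT
      linarith
    · show K (t 1) ≤ CT
      linarith
  clear_value CH CK CT Q
  obtain ⟨R, hR⟩ : ∃ R : ℝ, R = (2 * (CT + 2 * CH + 2 * d * CK + 8 * d * α)) / α := ⟨_, rfl⟩
  -- key bound
  have key : ∀ m : Fin 2 → ℤ, (∀ (e : Fin 2) (a b : ℤ) (c : ℕ), |a| ≤ (Q : ℤ) → |b| ≤ (Q : ℤ) → (a ≠ 0 ∨ b ≠ 0) → c ≤ 1 →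
        m e • P + t e ≠ 0 →
        (a * m 0 + b * m 1 + (c : ℤ)) • P + (a • t 0 + b • t 1) ≠ 0 →
        ((F e a b c).eval (Polynomial.C
          (xc ((a * m 0 + b * m 1 + (c : ℤ)) • P + (a • t 0 + b • t 1))))).eval
            (xc (m e • P + t e)) = 0) →
      ∀ e e' : Fin 2, |m e'| ≤ |m e| → ∀ a b : ℤ, |a| ≤ (Q : ℤ) → |b| ≤ (Q : ℤ) → (a ≠ 0 ∨ b ≠ 0) →
        |((a * m 0 + b * m 1 : ℤ) : ℝ)| * (Q + 1) ≤ |(m e : ℝ)| → (m e : ℝ) ^ 2 ≤ R := by
    intro m hm e e' hle a b ha hb hab hdir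
    have ha' : a ∈ s := by rw [hs, Finset.mem_Icc]; exact abs_le.1 ha
    have hb' : b ∈ s := by rw [hs, Finset.mem_Icc]; exact abs_le.1 hb
    have hPne : P ≠ 0 := by
      have := hP 1 one_ne_zero
      rwa [one_smul] at this
    -- choose c
    obtain ⟨c, hc1, hcne⟩ : ∃ c : ℕ, c ≤ 1 ∧
        (a * m 0 + b * m 1 + (c : ℤ)) • P + (a • t 0 + b • t 1) ≠ 0 := by
      by_cases h0 : (a * m 0 + b * m 1 + ((0 : ℕ) : ℤ)) • P + (a • t 0 + b • t 1) = 0
      · refine ⟨1, le_refl _, fun h1 => hPne ?_⟩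
        have h2 : (a * m 0 + b * m 1 + ((1 : ℕ) : ℤ)) • P + (a • t 0 + b • t 1) =
            ((a * m 0 + b * m 1 + ((0 : ℕ) : ℤ)) • P + (a • t 0 + b • t 1)) + P := by
          push_cast
          rw [add_zero, add_smul, one_smul]
          abel
        rw [h2, h0, zero_add] at h1
        exact h1
      · exact ⟨0, zero_le_one, h0⟩
    have hhe : ht (m e • P + t e) ≤ d * ht ((a * m 0 + b * m 1 + (c : ℤ)) • P +
        (a • t 0 + b • t 1)) + CH := by
      by_cases hne : m e • P + t e = 0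
      · rw [hne, ht_zero]
        have := ht_nonneg ((a * m 0 + b * m 1 + (c : ℤ)) • P + (a • t 0 + b • t 1))
        positivity
      · rw [ht_eq_xc hne, ht_eq_xc hcne]
        refine (hH e a b c _ _ (hm e a b c ha hb hab hc1 hne hcne)).trans ?_
        have := hCHle e a b c ha' hb' hc1
        linarith
    have hlow := (hK (t e) (m e)).2
    have hupp := (hK (a • t 0 + b • t 1) (a * m 0 + b * m 1 + (c : ℤ))).1
    have hM : (0 : ℝ) ≤ |(m e : ℝ)| := abs_nonneg _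
    have hL : |((a * m 0 + b * m 1 + (c : ℤ) : ℤ) : ℝ)| ≤ |(m e : ℝ)| / Q + 1 := by
      have hQr0 : (0 : ℝ) < Q := by exact_mod_cast hQ0
      have h1 : |((a * m 0 + b * m 1 : ℤ) : ℝ)| ≤ |(m e : ℝ)| / Q := by
        rw [le_div_iff₀ hQr0]
        have := abs_nonneg ((a * m 0 + b * m 1 : ℤ) : ℝ)
        nlinarith
      have h2 : ((a * m 0 + b * m 1 + (c : ℤ) : ℤ) : ℝ) =
          ((a * m 0 + b * m 1 : ℤ) : ℝ) + (c : ℝ) := by push_cast; ring
      rw [h2]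
      refine (_root_.abs_add_le _ _).trans ?_
      have h3 : |(c : ℝ)| ≤ 1 := by
        rw [abs_of_nonneg (Nat.cast_nonneg _)]
        exact_mod_cast hc1
      linarith
    have hfin := bound_of_ineq (a := α) (M := |(m e : ℝ)|) (C₁ := CT) (C₂ := CH) (C₃ := CK)
      (d := d) (Q := Q) hα (Nat.cast_nonneg _) hQr (by exact_mod_cast hQ0) hM hCT0 hCH0 hCK0 hL
      (H := ht (m e • P + t e))
      (H' := ht ((a * m 0 + b * m 1 + (c : ℤ)) • P + (a • t 0 + b • t 1)))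
      (by rw [sq_abs]; linarith [hCTle e]) hhe (by linarith [hCKle a b ha' hb'])
    rw [sq_abs, ← hR] at hfin
    exact hfin
  -- conclusion
  have hbdd : ∀ m : Fin 2 → ℤ, (∀ (e : Fin 2) (a b : ℤ) (c : ℕ), |a| ≤ (Q : ℤ) → |b| ≤ (Q : ℤ) → (a ≠ 0 ∨ b ≠ 0) → c ≤ 1 →
        m e • P + t e ≠ 0 →
        (a * m 0 + b * m 1 + (c : ℤ)) • P + (a • t 0 + b • t 1) ≠ 0 →
        ((F e a b c).eval (Polynomial.C
          (xc ((a * m 0 + b * m 1 + (c : ℤ)) • P + (a • t 0 + b • t 1))))).eval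
            (xc (m e • P + t e)) = 0) →
      ∀ e, (m e : ℝ) ^ 2 ≤ R := by
    intro m hm
    rcases le_total |m 1| |m 0| with h | h
    · obtain ⟨a, b, hb0, hbQ, haQ, hdir⟩ := dirichlet2 Q hQ0 (m 0) (m 1) h
      have h0 := key m hm 0 1 h a b haQ (by rwa [abs_of_pos hb0]) (Or.inr hb0.ne') hdir
      have h1 : (m 1 : ℝ) ^ 2 ≤ (m 0 : ℝ) ^ 2 := by
        rw [sq_le_sq]; exact_mod_cast h
      intro e
      fin_cases e
      · exact h0
      · exact h1.trans h0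
    · obtain ⟨b, a, ha0, haQ, hbQ, hdir⟩ := dirichlet2 Q hQ0 (m 1) (m 0) h
      rw [add_comm (b * m 1)] at hdir
      have h0 := key m hm 1 0 h a b (by rwa [abs_of_pos ha0]) hbQ (Or.inl ha0.ne') hdir
      have h1 : (m 0 : ℝ) ^ 2 ≤ (m 1 : ℝ) ^ 2 := by
        rw [sq_le_sq]; exact_mod_cast h
      intro e
      fin_cases e
      · exact h1.trans h0
      · exact h0
  set N : ℤ := ⌈R⌉ + 1 with hN
  have hbdd' : ∀ z : ℤ, (z : ℝ) ^ 2 ≤ R → z ∈ Finset.Icc (-N) N := by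
    intro z hz
    have h1 : (z : ℝ) ^ 2 ≤ (⌈R⌉ : ℝ) := hz.trans (Int.le_ceil R)
    have h2 : z ^ 2 ≤ ⌈R⌉ := by exact_mod_cast h1
    rw [Finset.mem_Icc]
    constructor <;> nlinarith
  refine (Set.Finite.subset (Set.Finite.pi' (t := fun _ : Fin 2 => ((Finset.Icc (-N) N : Finset ℤ) :
    Set ℤ)) fun _ => Finset.finite_toSet _) ?_)
  intro m hm e
  exact Finset.mem_coe.2 (hbdd' _ (hbdd m hm e))

end

section

variable {k : Type*} [Field k] [NumberField k] [DecidableEq k]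

/-- **Height part of the Demjanenko-Manin method in rank one.** -/
theorem dm_finite {W : Affine k} [W.IsShortNF] [WeierstrassCurve.IsElliptic W] (P : (W⁄k).Point)
    (hP : ∀ n : ℕ, n ≠ 0 → n • P ≠ 0) (t : Fin 2 → (W⁄k).Point) (d : ℕ) :
    ∃ Q : ℕ, ∀ F : Fin 2 → ℤ → ℤ → ℕ → Polynomial (Polynomial k),
      (∀ e a b c, (F e a b c).natDegree ≤ d ∧ ∀ y : k, (F e a b c).eval (Polynomial.C y) ≠ 0) →
      {m : Fin 2 → ℤ | ∀ (e : Fin 2) (a b : ℤ) (c : ℕ), |a| ≤ (Q : ℤ) → |b| ≤ (Q : ℤ) → (a ≠ 0 ∨ b ≠ 0) → c ≤ 1 →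
        m e • P + t e ≠ 0 →
        (a * m 0 + b * m 1 + (c : ℤ)) • P + (a • t 0 + b • t 1) ≠ 0 →
        ((F e a b c).eval (Polynomial.C
          (xc ((a * m 0 + b * m 1 + (c : ℤ)) • P + (a • t 0 + b • t 1))))).eval
            (xc (m e • P + t e)) = 0}.Finite := by
  have hkΔ : (W⁄k).Δ ≠ 0 := by
    rw [base_Δ]
    exact Δ_ne_zero_of_isElliptic W
  have : WeierstrassCurve.IsElliptic (W⁄k) := ⟨isUnit_iff_ne_zero.2 hkΔ⟩
  exact dm_finite_aux P hP t d

end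

end Pool.Agent.Lib.MP_2f3286_ag.E
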