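import Mathlib
import Pool.Agent.Lib.MP_2f3286_ag.E.Core

/-!
# The adelic Mordell–Lang theorem in rank one: final form
-/

set_option autoImplicit false
set_option linter.all false

open WeierstrassCurve WeierstrassCurve.Affine
open IsDedekindDomain NumberField Height MvPolynomial

namespace Pool.Agent.Lib.MP_2f3286_ag.E

variable {k : Type*} [Field k] [NumberField k] [DecidableEq k] {W : Affine k} [W.IsShortNF]
  {I : Type*} [Fintype I]

/-- Relations: from finitely many to all. -/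
theorem exists_finite_rel {R A σ : Type*} [CommRing R] [IsNoetherianRing R] [CommRing A]
    [Algebra R A] [Finite σ] (Rel : Set (MvPolynomial σ R)) : ∃ 𝒢 : Finset (MvPolynomial σ R),
    (↑𝒢 : Set (MvPolynomial σ R)) ⊆ Rel ∧
      ∀ x : σ → A, (∀ G ∈ 𝒢, aeval x G = 0) → ∀ G ∈ Rel, aeval x G = 0 := by
  have hfg : (Submodule.span (MvPolynomial σ R) Rel).FG := IsNoetherian.noetherian _
  obtain ⟨𝒢, h1, h2⟩ := (Submodule.fg_span_iff_fg_span_finset_subset Rel).1 hfg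
  refine ⟨𝒢, h1, fun x hx G hG => ?_⟩
  have h3 : Submodule.span (MvPolynomial σ R) (↑𝒢 : Set (MvPolynomial σ R)) ≤
      RingHom.ker (aeval x : MvPolynomial σ R →ₐ[R] A) := by
    rw [Submodule.span_le]
    intro G hG
    exact hx G hG
  have h4 : G ∈ Submodule.span (MvPolynomial σ R) Rel := Submodule.subset_span hG
  rw [h2] at h4
  exact h3 h4

/-- **Adelic Mordell–Lang theorem in rank one.** -/
theorem core [W.IsElliptic]
    [∀ v : HeightOneSpectrum (𝓞 k), DecidableEq (v.adicCompletion k)]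
    (S : Finset (HeightOneSpectrum (𝓞 k)))
    (P : (W⁄k).Point) (hP : ∀ n : ℕ, n ≠ 0 → n • P ≠ 0) (t : I → (W⁄k).Point)
    (α : I → ℕ → ℤ) (hα : ∀ (i : I) (n m : ℕ), 1 ≤ m → n ∣ m → (n : ℤ) ∣ α i m - α i n)
    (y : ∀ v : HeightOneSpectrum (𝓞 k), I → (W⁄(v.adicCompletion k)).Point)
    (hy : ∀ v ∉ S, ∀ i n, 1 ≤ n → ∃ z, y v i =
      Point.baseChange (W' := W) k (v.adicCompletion k) (α i n • P + t i) + n • z)
    (Rel : Set (MvPolynomial (I × Fin 3) k)) (hRel : ∀ G ∈ Rel, ∃ d, MultiHom G d)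
    (S' : Finset (HeightOneSpectrum (𝓞 k)))
    (hrel : ∀ v ∉ S', ∀ G ∈ Rel, aeval (crds (y v)) G = 0) :
    (∀ N : ℕ, 1 ≤ N → ∃ m : I → ℤ, (∀ i, (N : ℤ) ∣ m i - α i N) ∧
      ∀ G ∈ Rel, aeval (crds fun i => m i • P + t i) G = 0) ∧
    ({m : I → ℤ | ∀ G ∈ Rel, aeval (crds fun i => m i • P + t i) G = 0}.Finite →
      ∃ m : I → ℤ, (∀ G ∈ Rel, aeval (crds fun i => m i • P + t i) G = 0) ∧
        (∀ i (n : ℕ), 1 ≤ n → (n : ℤ) ∣ m i - α i n) ∧
        ∀ v ∉ S, ∀ i, y v i =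
          Point.baseChange (W' := W) k (v.adicCompletion k) (m i • P + t i)) := by
  classical
  have main : ∀ N : ℕ, 1 ≤ N → ∃ m : I → ℤ, (∀ i, (N : ℤ) ∣ m i - α i N) ∧
      ∀ G ∈ Rel, aeval (crds fun i => m i • P + t i) G = 0 := by
    intro N hN
    obtain ⟨𝒢, h𝒢, hall⟩ := exists_finite_rel (A := k) Rel
    set T := S ∪ S' ∪ (finite_not_le_one W.a₄).toFinset ∪ (finite_not_le_one W.a₆).toFinset with hT
    have hTS : ∀ v ∉ T, v ∉ S ∧ v ∉ S' ∧ fv v W.a₄ ≤ 1 ∧ fv v W.a₆ ≤ 1 := by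
      intro v hv
      simp only [hT, Finset.mem_union, Set.Finite.mem_toFinset, not_or] at hv
      obtain ⟨⟨⟨h1, h2⟩, h3⟩, h4⟩ := hv
      exact ⟨h1, h2, not_not.1 h3, not_not.1 h4⟩
    obtain ⟨m, h1, h2⟩ := core_finite T (fun v hv => (hTS v hv).2.2) P hP t α hα y
      (fun v hv => hy v (hTS v hv).1) 𝒢 (fun G hG => hRel G (h𝒢 hG))
      (fun v hv G hG => hrel v (hTS v hv).2.1 G (h𝒢 hG)) N hN
    exact ⟨m, h1, hall _ h2⟩
  refine ⟨main, fun hfin => ?_⟩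
  have h1 : ∀ j : ℕ, ∃ m : {m : I → ℤ | ∀ G ∈ Rel, aeval (crds fun i => m i • P + t i) G = 0},
      ∀ i, (j.factorial : ℤ) ∣ m.1 i - α i j.factorial := by
    intro j
    obtain ⟨m, h1, h2⟩ := main _ (Nat.factorial_pos j)
    exact ⟨⟨m, h2⟩, h1⟩
  choose f hf using h1
  have : Finite {m : I → ℤ | ∀ G ∈ Rel, aeval (crds fun i => m i • P + t i) G = 0} := hfin
  obtain ⟨m, hm⟩ := Finite.exists_infinite_fiber f
  have hdiv : ∀ i (n : ℕ), 1 ≤ n → (n : ℤ) ∣ m.1 i - α i n := by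
    intro i n hn
    obtain ⟨j, hj1, hj2⟩ := (Set.infinite_coe_iff.1 hm).exists_gt n
    have hj3 : f j = m := hj1
    have h2 := hf j i
    rw [hj3] at h2
    have h3 : n ∣ j.factorial := Nat.dvd_factorial hn hj2.le
    have h4 : (n : ℤ) ∣ (j.factorial : ℤ) := Int.natCast_dvd_natCast.2 h3
    have h5 := dvd_add (h4.trans h2) (hα i n _ (Nat.factorial_pos _) h3)
    rwa [sub_add_sub_cancel] at h5
  refine ⟨m.1, m.2, hdiv, fun v hv i => ?_⟩
  have hWv : (W⁄(v.adicCompletion k)).Δ ≠ 0 := by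
    rw [base_Δ]
    exact fun h => Δ_ne_zero_of_isElliptic W ((map_eq_zero _).1 h)
  rw [← sub_eq_zero]
  apply eq_zero_of_divisible' v hWv
  intro n hn
  obtain ⟨z, hz⟩ := hy v hv i n hn
  obtain ⟨u, hu⟩ := hdiv i n hn
  refine ⟨z - u • Point.baseChange (W' := W) k (v.adicCompletion k) P, ?_⟩
  have h6 : m.1 i = α i n + n * u := by linarith
  rw [hz, h6, map_add, map_add, map_zsmul, map_zsmul, smul_sub, add_smul, mul_smul, natCast_zsmul]
  abel

/-- `ℤ P` has finite index in its saturation. -/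
theorem exists_index [W.IsElliptic] (P : (W⁄k).Point) (hP : ∀ n : ℕ, n ≠ 0 → n • P ≠ 0) :
    ∃ e : ℕ, 1 ≤ e ∧ ∀ (m : ℤ) (n : ℕ), 1 ≤ n → (∃ R, m • P = n • R) → (n : ℤ) ∣ e * m := by
  classical
  have hWΔ := Δ_ne_zero_of_isElliptic W
  have hkΔ : (W⁄k).Δ ≠ 0 := by rw [base_Δ]; exact hWΔ
  have : WeierstrassCurve.IsElliptic (W⁄k) := ⟨isUnit_iff_ne_zero.2 hkΔ⟩
  obtain ⟨C₁, hC₁⟩ := parallelogram (W⁄k)
  have hq : ∀ R : (W⁄k).Point, ∃ a : ℝ, ∀ j : ℤ, |ht (j • R) - a * (j : ℝ) ^ 2| ≤ C₁ := by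
    intro R
    exact exists_quadratic (fun m : ℤ => ht (m • R)) C₁ (fun m n => by
      have := hC₁ (m • R) (n • R)
      rwa [← add_smul, ← sub_smul] at this)
  choose q hq using hq
  obtain ⟨a, ha, C₀, hC₀⟩ := ht_zsmul P hP
  -- comparison of quadratic functions
  have hcmp : ∀ (x x' C : ℝ), (∀ j : ℕ, |x * (j : ℝ) ^ 2 - x' * (j : ℝ) ^ 2| ≤ C) → x = x' := by
    intro x x' C h
    by_contra hne
    have h1 : 0 < |x - x'| := abs_pos.2 (sub_ne_zero.2 hne)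
    obtain ⟨j, hj⟩ := exists_nat_gt (C / |x - x'|)
    rw [div_lt_iff₀ h1] at hj
    have h2 := h (j + 1)
    rw [← sub_mul, abs_mul, abs_of_nonneg (by positivity : (0 : ℝ) ≤ ((j + 1 : ℕ) : ℝ) ^ 2)] at h2
    have h3 : (j : ℝ) ≤ ((j + 1 : ℕ) : ℝ) ^ 2 := by
      push_cast
      have : (0 : ℝ) ≤ j := Nat.cast_nonneg _
      nlinarith
    have h4 : (j : ℝ) * |x - x'| ≤ |x - x'| * ((j + 1 : ℕ) : ℝ) ^ 2 := by
      rw [mul_comm]; gcongr
    linarith
  have hrel : ∀ (g n' : ℕ) (R : (W⁄k).Point), g • P = (g * n') • R →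
      a * (g : ℝ) ^ 2 = q R * ((g * n' : ℕ) : ℝ) ^ 2 := by
    intro g n' R h
    apply hcmp _ _ (C₀ + C₁)
    intro j
    have h1 := hC₀ (j * g : ℤ)
    have h2 := hq R (j * (g * n' : ℕ) : ℤ)
    have h3 : ((j * g : ℤ)) • P = ((j * (g * n' : ℕ) : ℤ)) • R := by
      rw [mul_smul, mul_smul, natCast_zsmul, natCast_zsmul, natCast_zsmul, natCast_zsmul, h]
    rw [← h3] at h2
    push_cast at h1 h2 ⊢
    rw [abs_le] at *
    constructor
    · nlinarith [h1.1, h1.2, h2.1, h2.2]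
    · nlinarith [h1.1, h1.2, h2.1, h2.2]
  -- the finite set
  have hfin := finite_ht (W := W⁄k) (a + C₁)
  obtain ⟨B, hB⟩ : ∃ B : ℕ, ∀ R ∈ hfin.toFinset, a / q R ≤ B := by
    obtain ⟨B, hB⟩ := exists_nat_ge (∑ R ∈ hfin.toFinset, |a / q R|)
    exact ⟨B, fun R hR => (le_abs_self _).trans ((Finset.single_le_sum
      (f := fun R => |a / q R|) (fun _ _ => abs_nonneg _) hR).trans hB)⟩
  refine ⟨B.factorial, Nat.factorial_pos _, fun m n hn hR => ?_⟩
  obtain ⟨R, hR⟩ := hR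
  by_cases hm : m = 0
  · subst hm; simp
  -- gcd
  set g := Int.gcd m n with hg
  have hg0 : 0 < g := Int.gcd_pos_of_ne_zero_left _ hm
  obtain ⟨m', hm'⟩ : (g : ℤ) ∣ m := Int.gcd_dvd_left _ _
  obtain ⟨n'', hn''⟩ : (g : ℤ) ∣ (n : ℤ) := Int.gcd_dvd_right _ _
  have hgz : (0 : ℤ) < g := by exact_mod_cast hg0
  have hn''0 : 0 < n'' := by
    have : (0 : ℤ) < g * n'' := by rw [← hn'']; exact_mod_cast hn
    exact pos_of_mul_pos_right this hgz.le
  obtain ⟨n', rfl⟩ := Int.eq_ofNat_of_zero_le hn''0.le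
  have hn'0 : 0 < n' := by exact_mod_cast hn''0
  have hbez : (g : ℤ) = m * Int.gcdA m n + n * Int.gcdB m n := Int.gcd_eq_gcd_ab m n
  set u := Int.gcdA m n
  set w := Int.gcdB m n
  have hP1 : g • P = (g * n') • (u • R + w • P) := by
    have h1 : (g : ℤ) • P = (u * m) • P + (w * n) • P := by
      rw [← add_smul]
      congr 1
      linear_combination hbez
    rw [← natCast_zsmul, h1, mul_smul, hR, smul_add, smul_comm u n R,
      show (g * n') = n by exact_mod_cast hn''.symm]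
    congr 1
    rw [mul_smul, natCast_zsmul, smul_comm]
  have h2 := hrel g n' _ hP1
  set R' := u • R + w • P
  have hgr : (0 : ℝ) < (g : ℝ) ^ 2 := by positivity
  have hn'r : (1 : ℝ) ≤ n' := by exact_mod_cast hn'0
  have h3 : a = q R' * (n' : ℝ) ^ 2 := by
    push_cast at h2
    have : a * (g : ℝ) ^ 2 = (q R' * (n' : ℝ) ^ 2) * (g : ℝ) ^ 2 := by rw [h2]; ring
    exact mul_right_cancel₀ hgr.ne' this
  have hqpos : 0 < q R' := by
    by_contra hneg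
    push Not at hneg
    have : q R' * (n' : ℝ) ^ 2 ≤ 0 := mul_nonpos_of_nonpos_of_nonneg hneg (by positivity)
    linarith
  have hmem : R' ∈ hfin.toFinset := by
    rw [Set.Finite.mem_toFinset]
    have h4 := (abs_le.1 (hq R' 1)).2
    rw [one_smul] at h4
    have h5 : q R' ≤ a := by
      rw [h3]
      have : (1 : ℝ) ≤ (n' : ℝ) ^ 2 := by nlinarith
      nlinarith
    show ht R' ≤ a + C₁
    push_cast at h4
    linarith
  have h6 := hB R' hmem
  have h7 : (n' : ℝ) ≤ a / q R' := by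
    rw [h3, mul_comm, mul_div_assoc, div_self hqpos.ne', mul_one]
    nlinarith
  have h8 : n' ≤ B := by exact_mod_cast h7.trans h6
  obtain ⟨r, hr⟩ := Nat.dvd_factorial hn'0 h8
  refine ⟨r * m', ?_⟩
  rw [hr, hm', hn'']
  push_cast
  ring

/-- Compatible coefficients. -/
theorem exists_compatible_coeff [W.IsElliptic] (P : (W⁄k).Point)
    (hP : ∀ n : ℕ, n ≠ 0 → n • P ≠ 0) {J : Type*} (A : J → ℕ → (W⁄k).Point)
    (hA : ∀ i n m, 1 ≤ n → 1 ≤ m → ∃ B, A i (n * m) - A i n = n • B)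
    (𝒯 : Set (W⁄k).Point) (h𝒯 : 𝒯.Finite)
    (hAT : ∀ i n, 1 ≤ n → ∃ m : ℤ, ∃ t ∈ 𝒯, A i n = m • P + t) :
    ∃ (t : J → (W⁄k).Point) (α : J → ℕ → ℤ), (∀ i, t i ∈ 𝒯) ∧
      (∀ (i : J) (n m : ℕ), 1 ≤ m → n ∣ m → (n : ℤ) ∣ α i m - α i n) ∧
      ∀ i n, 1 ≤ n → ∃ B, A i n = α i n • P + t i + n • B := by
  classical
  obtain ⟨e, he, hidx⟩ := exists_index P hP
  have hA' : ∀ i n m, 1 ≤ n → 1 ≤ m → n ∣ m → ∃ B, A i m - A i n = n • B := by
    rintro i n m hn hm ⟨q, rfl⟩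
    exact hA i n q hn (Nat.pos_of_ne_zero (by rintro rfl; omega))
  have key : ∀ i : J, ∃ (t : (W⁄k).Point) (α : ℕ → ℤ), t ∈ 𝒯 ∧
      (∀ (n m : ℕ), 1 ≤ m → n ∣ m → (n : ℤ) ∣ α m - α n) ∧
      ∀ n, 1 ≤ n → ∃ B, A i n = α n • P + t + n • B := by
    intro i
    have h1 : ∀ j : ℕ, 1 ≤ j.factorial * e := fun j => Nat.mul_pos (Nat.factorial_pos _) he
    choose m t ht hmt using fun j : ℕ => hAT i (j.factorial * e) (h1 j)
    have : Finite 𝒯 := h𝒯
    obtain ⟨t₀, ht₀⟩ := Finite.exists_infinite_fiber (fun j => (⟨t j, ht j⟩ : 𝒯))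
    have hinf := Set.infinite_coe_iff.1 ht₀
    have h2 : ∀ n : ℕ, ∃ j, t j = t₀.1 ∧ n < j := by
      intro n
      obtain ⟨j, hj1, hj2⟩ := hinf.exists_gt n
      exact ⟨j, congrArg Subtype.val hj1, hj2⟩
    choose j hj1 hj2 using h2
    have hcomp : ∀ n n' : ℕ, 1 ≤ n → 1 ≤ n' → n ∣ n' → (n : ℤ) ∣ m (j n') - m (j n) := by
      intro n n' hn hn' hd
      have hne : 1 ≤ n * e := Nat.mul_pos hn he
      have d1 : n * e ∣ (j n).factorial * e :=
        Nat.mul_dvd_mul_right (Nat.dvd_factorial hn (hj2 n).le) e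
      have d2 : n * e ∣ (j n').factorial * e :=
        Nat.mul_dvd_mul_right (hd.trans (Nat.dvd_factorial hn' (hj2 n').le)) e
      obtain ⟨B₁, hB₁⟩ := hA' i _ _ hne (h1 _) d1
      obtain ⟨B₂, hB₂⟩ := hA' i _ _ hne (h1 _) d2
      have h3 : (m (j n') - m (j n)) • P = (n * e) • (B₂ - B₁) := by
        rw [smul_sub, ← hB₁, ← hB₂, hmt, hmt, hj1, hj1, sub_smul]
        abel
      have h4 := hidx _ _ hne ⟨_, h3⟩
      have hez : (e : ℤ) ≠ 0 := by exact_mod_cast (by omega : e ≠ 0)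
      have h5 : (e : ℤ) * n ∣ e * (m (j n') - m (j n)) := by
        have : ((n * e : ℕ) : ℤ) = e * n := by push_cast; ring
        rwa [this] at h4
      exact (mul_dvd_mul_iff_left hez).1 h5
    refine ⟨t₀.1, fun n => m (j n), t₀.2, ?_, ?_⟩
    · intro n n' hn' hd
      exact hcomp n n' (Nat.pos_of_dvd_of_pos hd hn') hn' hd
    · intro n hn
      obtain ⟨B, hB⟩ := hA' i n _ hn (h1 (j n))
        ((Nat.dvd_factorial hn (hj2 n).le).mul_right e)
      refine ⟨-B, ?_⟩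
      rw [hmt, hj1] at hB
      rw [smul_neg, ← hB]
      abel
  choose t α h1 h2 h3 using key
  exact ⟨t, α, h1, h2, h3⟩

end Pool.Agent.Lib.MP_2f3286_ag.E
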